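import Pool.Agent.H731.P5.Stm

open Polynomial
open scoped Classical

noncomputable section

namespace P5

namespace XA1

variable {F : Type} [Field F] [Fintype F] [CharP F 5]

omit [Fintype F] in
lemma five : (5 : F[X]) = 0 := by
  have h : ((5 : ℕ) : F[X]) = 0 := CharP.cast_eq_zero F[X] 5
  exact_mod_cast h

lemma mul5 (f : F[X]) (z : OO f) : z + (z + (z + (z + z))) = 0 := by
  have h := five (F := F)
  ext1
  · simp only [QuadraticAlgebra.re_add, QuadraticAlgebra.re_zero]
    linear_combination z.re * h
  · simp only [QuadraticAlgebra.im_add, QuadraticAlgebra.im_zero]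
    linear_combination z.im * h

omit [Fintype F] [CharP F 5] in
lemma dadd (f : F[X]) (x y : OO f) : dl f (x + y) = dl f x + dl f y := by
  ext1
  · simp only [dl, QuadraticAlgebra.re_add, QuadraticAlgebra.im_add, map_add]
    ring
  · simp only [dl, QuadraticAlgebra.re_add, QuadraticAlgebra.im_add, map_add]

lemma dmul (f : F[X]) (x y : OO f) : dl f (x * y) = x * dl f y + y * dl f x := by
  have h := five (F := F)
  ext1
  · simp only [dl, QuadraticAlgebra.re_add, QuadraticAlgebra.im_add, QuadraticAlgebra.re_mul,
      QuadraticAlgebra.im_mul, map_add, derivative_mul, zero_mul, add_zero]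
    ring
  · simp only [dl, QuadraticAlgebra.re_add, QuadraticAlgebra.im_add, QuadraticAlgebra.re_mul,
      QuadraticAlgebra.im_mul, map_add, derivative_mul, zero_mul, add_zero]
    linear_combination (-(derivative f * x.im * y.im)) * h

lemma dfifth (f : F[X]) (x : OO f) : dl f (x ^ 5) = 0 := by
  have e : x ^ 5 = x * (x * (x * (x * x))) := by ring
  rw [e, dmul, dmul, dmul, dmul]
  have h := mul5 f (x * x * x * x * dl f x)
  rw [← h]
  ring

omit [Fintype F] [CharP F 5] in
lemma dstar (f : F[X]) (x : OO f) : dl f (star x) = - star (dl f x) := by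
  ext1
  · simp [dl]
    ring
  · simp [dl]

end XA1

theorem p_A1 (F : Type) [Field F] [Fintype F] [CharP F 5] : S_A1 F := by
  intro f
  refine ⟨XA1.dadd f, XA1.dmul f, XA1.dfifth f, ?_, XA1.dstar f, ?_⟩
  · intro x y
    rw [XA1.dmul, XA1.dfifth, mul_zero, add_zero]
  · intro v
    ext1
    · simp [dl, cc]
    · simp [dl, cc]

end P5
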