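import Pool.Agent.H731.P5.Stm

/-!
# P5 A2: the fifth power of the derivation `dl f`
-/

open Polynomial
open scoped Classical

noncomputable section

namespace P5

namespace XA2

theorem five_zero {F : Type} [Field F] [CharP F 5] : (5 : F[X]) = 0 := by
  have h : ((5 : ℕ) : F[X]) = 0 := CharP.cast_eq_zero F[X] 5
  exact_mod_cast h

theorem der_five {F : Type} [Field F] [CharP F 5] (a : F[X]) :
    derivative (derivative (derivative (derivative (derivative a)))) = 0 := by
  have h := congrFun (factorial_smul_hasseDeriv (R := F) 5) a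
  have h2 : (derivative (R := F))^[5] a =
      derivative (derivative (derivative (derivative (derivative a)))) := rfl
  rw [← h2, ← h]
  have h3 : Nat.factorial 5 = 24 * 5 := rfl
  rw [LinearMap.smul_apply, h3, nsmul_eq_mul]
  have h5 : (5 : F[X]) = 0 := five_zero
  push_cast
  linear_combination (24 * hasseDeriv 5 a) * h5

end XA2

open XA2

theorem p_A2 (F : Type) [Field F] [Fintype F] [CharP F 5] : S_A2 F := by
  intro f x
  obtain ⟨a, b⟩ := x
  have h5 : (5 : F[X]) = 0 := five_zero
  have ha := der_five a
  have hb := der_five b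
  have hf := der_five f
  have e2 : f ^ 2 = f * f := sq f
  rw [e2]
  apply QuadraticAlgebra.ext
  · rw [QuadraticAlgebra.re_mul, QuadraticAlgebra.re_neg, QuadraticAlgebra.im_neg]
    simp only [dl, cc, derivative_add, derivative_mul, derivative_ofNat, zero_mul, zero_add,
      neg_zero, mul_zero, add_zero]
    set a1 := derivative a
    set a2 := derivative a1
    set a3 := derivative a2
    set a4 := derivative a3
    set b1 := derivative b
    set b2 := derivative b1
    set b3 := derivative b2
    set b4 := derivative b3
    set f1 := derivative f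
    set f2 := derivative f1
    set f3 := derivative f2
    set f4 := derivative f3
    set a5 := derivative a4
    set b5 := derivative b4
    set f5 := derivative f4
    linear_combination (6*b*f*f1*f4 + 6*b*f*f2*f3 + 12*b*f1^2*f3 + 9*b*f1*f2^2 + 3*b1*f^2*f4 + 20*b1*f*f1*f3 + 11*b1*f*f2^2 + 24*b1*f1^2*f2 + 5*b2*f^2*f3 + 28*b2*f*f1*f2 + 12*b2*f1^3 + 5*b3*f^2*f2 + 12*b3*f*f1^2 + 3*b4*f^2*f1) * h5 + f^3 * hb + 3*b*f^2 * hf
  · rw [QuadraticAlgebra.im_mul, QuadraticAlgebra.re_neg, QuadraticAlgebra.im_neg]
    simp only [dl, cc, derivative_add, derivative_mul, derivative_ofNat, zero_mul, zero_add,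
      neg_zero, mul_zero, add_zero]
    set a1 := derivative a
    set a2 := derivative a1
    set a3 := derivative a2
    set a4 := derivative a3
    set f1 := derivative f
    set f2 := derivative f1
    set f3 := derivative f2
    set f4 := derivative f3
    set a5 := derivative a4
    set f5 := derivative f4
    linear_combination (a1*f*f4 + 4*a1*f1*f3 + 3*a1*f2^2 + 2*a2*f*f3 + 8*a2*f1*f2 + 3*a3*f*f2 + 4*a3*f1^2 + 2*a4*f*f1) * h5 + f^2 * ha

end P5
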