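import Pool.Agent.H731.P5.Stm

/-!
# A2b: `δ h = v h` implies `(f² v)'''' = - v ^ 5`
-/

set_option autoImplicit false

open Polynomial
open scoped Classical

noncomputable section

namespace P5

namespace XA2b

/-- one more application of `δ` to a multiple of `h` -/
theorem nxt {F : Type} [Field F] [Fintype F] [CharP F 5] (hA1 : S_A1 F) {f v : F[X]} {h : OO f}
    (hv : dl f h = cc f v * h) {a b : F[X]} {x : OO f} (hx : x = (⟨a, b⟩ : OO f) * h) :
    dl f x =
      (⟨a * v + (derivative b * f + 3 * (b * derivative f)), b * v + derivative a⟩ : OO f) * h := by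
  have h1 := (hA1 f).2.1 (⟨a, b⟩ : OO f) h
  rw [hx, h1, hv]
  have h2 : (⟨a * v + (derivative b * f + 3 * (b * derivative f)), b * v + derivative a⟩ : OO f) =
      (⟨a, b⟩ : OO f) * cc f v + dl f (⟨a, b⟩ : OO f) := by
    refine QuadraticAlgebra.ext ?_ ?_
    · rw [QuadraticAlgebra.re_add, QuadraticAlgebra.re_mul]
      simp only [cc, dl]
      ring
    · rw [QuadraticAlgebra.im_add, QuadraticAlgebra.im_mul]
      simp only [cc, dl]
      ring
  rw [h2]
  ring

theorem five {F : Type} [Field F] [CharP F 5] : (5 : F[X]) = 0 := by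
  have h : ((5 : ℕ) : F[X]) = 0 := CharP.cast_eq_zero F[X] 5
  exact_mod_cast h

end XA2b

open XA2b in
theorem p_A2b (F : Type) [Field F] [Fintype F] [CharP F 5] (hA1 : S_A1 F) (hA2 : S_A2 F) :
    S_A2b F := by
  intro f hdom h v hh hv
  have e1 : dl f h = (⟨v, 0⟩ : OO f) * h := hv
  have e2 := nxt hA1 hv e1
  have e3 := nxt hA1 hv e2
  have e4 := nxt hA1 hv e3
  have e5 := nxt hA1 hv e4
  have e6 := hA2 f h
  rw [e5, hv] at e6
  have e7 := mul_right_cancel₀ hh (e6.trans (mul_assoc _ _ _).symm)
  have e8 := congrArg QuadraticAlgebra.re e7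
  rw [QuadraticAlgebra.re_mul, QuadraticAlgebra.re_neg, QuadraticAlgebra.im_neg] at e8
  have h5 := five (F := F)
  show derivative (derivative (derivative (derivative (f ^ 2 * v)))) = - v ^ 5
  have hd3 : derivative (3 : F[X]) = 0 := derivative_ofNat 3
  simp only [cc, derivative_mul, derivative_add, sq, hd3, derivative_zero, zero_mul, mul_zero,
    add_zero, zero_add, neg_zero] at e8 ⊢
  linear_combination e8 + (f * derivative (derivative f) * derivative (derivative v) +
    3 * derivative f * derivative (derivative f) * derivative v +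
    f * derivative (derivative (derivative f)) * derivative v
    - 2 * v ^ 2 * derivative (derivative v) * f - 6 * v ^ 2 * derivative v * derivative f
    - 3 * v * (derivative v) ^ 2 * f) * h5

end P5
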