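import Pool.Agent.H731.P5.Stm

open Polynomial
open scoped Classical

noncomputable section

namespace P5

namespace XA4

variable {F : Type} [Field F]

theorem fif [Fintype F] [CharP F 5] (G : F[X]) (h : derivative G = 0) : ∃ A : F[X], G = A ^ 5 := by
  have h5 : Fact (Nat.Prime 5) := ⟨Nat.prime_five⟩
  have : ExpChar F 5 := ExpChar.prime Nat.prime_five
  have h1 : expand F 5 (contract 5 G) = G := expand_contract 5 h (by norm_num)
  refine ⟨map ((frobeniusEquiv F 5).symm : F →+* F) (contract 5 G), ?_⟩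
  rw [← map_frobenius_expand 5, map_expand, map_map]
  have h2 : (frobenius F 5).comp ((frobeniusEquiv F 5).symm : F →+* F) = RingHom.id F := by
    ext x
    show frobenius F 5 ((frobeniusEquiv F 5).symm x) = x
    exact frobenius_apply_frobeniusEquiv_symm F 5 x
  rw [h2, map_id, h1]

theorem five [CharP F 5] : (5 : F[X]) = 0 := by
  have h : ((5 : ℕ) : F[X]) = 0 := CharP.cast_eq_zero F[X] 5
  exact_mod_cast h

theorem fiveO [CharP F 5] (f : F[X]) : (5 : OO f) = 0 :=
  QuadraticAlgebra.ext (show (5 : F[X]) = 0 from five) rfl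

theorem fifth [CharP F 5] (f a c : F[X]) : (⟨a, c⟩ : OO f) ^ 5 = ⟨a ^ 5, f ^ 2 * c ^ 5⟩ := by
  have h5 : (5 : F[X]) = 0 := five
  have e2 : (⟨a, c⟩ : OO f) ^ 2 = ⟨a ^ 2 + f * c ^ 2, 2 * a * c⟩ := by
    rw [pow_two]
    apply QuadraticAlgebra.ext
    · simp only [QuadraticAlgebra.re_mul]
      ring
    · simp only [QuadraticAlgebra.im_mul]
      ring
  have e4 : (⟨a, c⟩ : OO f) ^ 4 = ⟨(a ^ 2 + f * c ^ 2) ^ 2 + f * (2 * a * c) ^ 2,
      2 * (a ^ 2 + f * c ^ 2) * (2 * a * c)⟩ := by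
    rw [show (4 : ℕ) = 2 * 2 by norm_num, pow_mul, e2, pow_two]
    apply QuadraticAlgebra.ext
    · simp only [QuadraticAlgebra.re_mul]
      ring
    · simp only [QuadraticAlgebra.im_mul]
      ring
  rw [pow_succ, e4]
  apply QuadraticAlgebra.ext
  · simp only [QuadraticAlgebra.re_mul]
    linear_combination (2 * a ^ 3 * c ^ 2 * f + a * c ^ 4 * f ^ 2) * h5
  · simp only [QuadraticAlgebra.im_mul]
    linear_combination (a ^ 4 * c + 2 * a ^ 2 * c ^ 3 * f) * h5

theorem first [Fintype F] [CharP F 5] (f : F[X]) (hf0 : f ≠ 0) (hs : Squarefree f) (x : OO f)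
    (hx : dl f x = 0) : ∃ y : OO f, x = y ^ 5 := by
  have h1 : derivative x.im * f + 3 * (x.im * derivative f) = 0 := congrArg QuadraticAlgebra.re hx
  have h2 : derivative x.re = 0 := congrArg QuadraticAlgebra.im hx
  obtain ⟨a, ha⟩ := fif _ h2
  have h4 : derivative (x.im * f ^ 3) = 0 := by
    rw [derivative_mul, pow_succ, derivative_mul, pow_two, derivative_mul]
    linear_combination f ^ 2 * h1
  obtain ⟨c, hc⟩ := fif _ h4
  have h5 : f ∣ c := by
    apply hs.isRadical 5 c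
    rw [← hc]
    exact ⟨x.im * f ^ 2, by ring⟩
  obtain ⟨d, rfl⟩ := h5
  have h6 : x.im = f ^ 2 * d ^ 5 := by
    have : f ^ 3 * x.im = f ^ 3 * (f ^ 2 * d ^ 5) := by
      linear_combination hc
    exact mul_left_cancel₀ (pow_ne_zero 3 hf0) this
  refine ⟨⟨a, d⟩, ?_⟩
  rw [fifth]
  exact QuadraticAlgebra.ext ha h6

end XA4

theorem p_A4 (F : Type) [Field F] [Fintype F] [CharP F 5] (hA1 : S_A1 F) (hA3 : S_A3 F) :
    S_A4 F := by
  intro f hs hf
  have hf0 : f ≠ 0 := by
    rintro rfl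
    simp at hf
  have h1 := fun x hx => XA4.first f hf0 hs x hx
  refine ⟨h1, ?_⟩
  intro p q hp hq hpq
  obtain ⟨-, hmul, -, -, -, -⟩ := hA1 f
  have hD : IsDedekindDomain (OO f) := hA3 f hs hf
  have : IsDomain (OO f) := hD.toIsDomain
  have h5 : (5 : OO f) = 0 := XA4.fiveO f
  have h2 : dl f (p * (p * (p * (p * q)))) = 0 := by
    rw [hmul, hmul, hmul, hmul]
    linear_combination p ^ 3 * hpq + (p ^ 3 * q * dl f p) * h5
  obtain ⟨y, hy⟩ := h1 _ h2
  refine ⟨p, y, hp, ?_, ?_⟩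
  · intro h0
    rw [h0] at hy
    have : p * (p * (p * (p * q))) = 0 := by
      rw [hy]
      ring
    exact mul_ne_zero hp (mul_ne_zero hp (mul_ne_zero hp (mul_ne_zero hp hq))) this
  · rw [← hy]
    ring

end P5
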