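import Pool.Agent.H731.P5.Stm

/-! The 5-torsion classes and the solutions `v` (helper825 for helper731; adapted from
`Pool/Agent/H463/DH/A9.lean`). -/

set_option autoImplicit false
set_option linter.unusedVariables false
set_option linter.overlappingInstances false
set_option linter.unusedSectionVars false

open Polynomial
open scoped Classical

noncomputable section

namespace P5

namespace XA9

open nonZeroDivisors

/-- the fifth power of ideals is injective in a Dedekind domain -/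
lemma fifth_inj {R : Type*} [CommRing R] [IsDomain R] [IsDedekindDomain R] {I J : Ideal R}
    (h : I ^ 5 = J ^ 5) : I = J := by
  apply le_antisymm
  · rw [← Ideal.dvd_iff_le]
    exact (UniqueFactorizationMonoid.pow_dvd_pow_iff_dvd (by norm_num)).1 (dvd_of_eq h.symm)
  · rw [← Ideal.dvd_iff_le]
    exact (UniqueFactorizationMonoid.pow_dvd_pow_iff_dvd (by norm_num)).1 (dvd_of_eq h)

lemma mk0_fifth {R : Type*} [CommRing R] [IsDomain R] [IsDedekindDomain R] (I : (Ideal R)⁰) :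
    ClassGroup.mk0 I ^ 5 = 1 ↔ ∃ h : R, (I : Ideal R) ^ 5 = Ideal.span {h} := by
  have hm : (I : Ideal R) ^ 5 ∈ (Ideal R)⁰ := pow_mem I.2 5
  have h1 : (I ^ 5 : (Ideal R)⁰) = ⟨(I : Ideal R) ^ 5, hm⟩ :=
    Subtype.ext (SubmonoidClass.coe_pow I 5)
  rw [← map_pow, h1, ClassGroup.mk0_eq_one_iff hm]
  constructor
  · rintro ⟨⟨h, hh⟩⟩
    exact ⟨h, hh⟩
  · rintro ⟨h, hh⟩
    exact ⟨⟨h, hh⟩⟩

variable {F : Type} [Field F] [Fintype F] [CharP F 5]

/-- the relation between solutions and classes -/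
def R (f : F[X]) [IsDomain (OO f)] [IsDedekindDomain (OO f)] (v : F[X]) (c : ClassGroup (OO f)) :
    Prop :=
  ∃ h : OO f, h ≠ 0 ∧ dl f h = cc f v * h ∧
    ∃ I : (Ideal (OO f))⁰, (I : Ideal (OO f)) ^ 5 = Ideal.span {h} ∧ ClassGroup.mk0 I = c

lemma exists_v (hA8 : S_A8 F) {f : F[X]} (hf : Squarefree f) (hd : 1 ≤ f.natDegree)
    [IsDomain (OO f)] [IsDedekindDomain (OO f)]
    {c : ClassGroup (OO f)} (hc : c ^ 5 = 1) : ∃ v, IsSol f v ∧ R f v c := by
  obtain ⟨I, rfl⟩ := ClassGroup.mk0_surjective c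
  obtain ⟨h, hh'⟩ := (mk0_fifth I).1 hc
  have h0 : h ≠ 0 := by
    intro hz
    rw [hz] at hh'
    have h1 : (I : Ideal (OO f)) ^ 5 = 0 := by rw [hh']; simp
    exact nonZeroDivisors.coe_ne_zero I (pow_eq_zero_iff (by norm_num) |>.1 h1)
  obtain ⟨v, hv, hd⟩ := hA8 f hf hd h h0 I hh'
  exact ⟨v, hv, h, h0, hd, I, hh', rfl⟩

lemma uniq_c (hA4 : S_A4 F) {f : F[X]} (hf : Squarefree f) (hd : 1 ≤ f.natDegree)
    [IsDomain (OO f)] [IsDedekindDomain (OO f)]
    {v : F[X]} {c c' : ClassGroup (OO f)} (h1 : R f v c) (h2 : R f v c') : c = c' := by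
  obtain ⟨h, h0, hd', I, hI, rfl⟩ := h1
  obtain ⟨h', h0', hd'', I', hI', rfl⟩ := h2
  obtain ⟨c, e, hc, he, hce⟩ := (hA4 f hf hd).2 h h' h0 h0' (by rw [hd', hd'']; ring)
  rw [ClassGroup.mk0_eq_mk0_iff]
  refine ⟨e, c, he, hc, ?_⟩
  apply fifth_inj
  rw [mul_pow, mul_pow, hI, hI', Ideal.span_singleton_pow, Ideal.span_singleton_pow,
    Ideal.span_singleton_mul_span_singleton, Ideal.span_singleton_mul_span_singleton,
    mul_comm, hce, mul_comm]

/-- the solutions are of degree `< deg f` -/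
lemma sol_mem (hB0 : S_B0 F) (hB1 : S_B1 F) {f v : F[X]} (hd : 1 ≤ f.natDegree) (hv : IsSol f v) :
    v ∈ POL F f.natDegree := by
  rw [hB0.1]
  by_cases h0 : v = 0
  · rw [h0, degree_zero]
    exact WithBot.bot_lt_coe _
  · have h1 := hB1.2.2.2.2.2.2.2.1 f v h0 hv
    rw [degree_eq_natDegree h0]
    exact_mod_cast (by omega : v.natDegree < f.natDegree)

end XA9

open XA9 in
/-- **A9** -/
theorem p_A9 (F : Type) [Field F] [Fintype F] [CharP F 5] (hA1 : S_A1 F) (hA3 : S_A3 F)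
    (hA4 : S_A4 F) (hA8 : S_A8 F) (hB0 : S_B0 F) (hB1 : S_B1 F) : S_A9 F := by
  intro f hf hd
  have key : ∀ _h : IsDomain (OO f), ∃ g : {c : ClassGroup (OO f) // c ^ 5 = 1} →
      {v : F[X] // v ∈ (POL F f.natDegree).filter (fun v => IsSol f v)}, Function.Injective g := by
    intro hdom
    have hded : IsDedekindDomain (OO f) := hA3 f hf hd
    have hex : ∀ c : {c : ClassGroup (OO f) // c ^ 5 = 1}, ∃ v, IsSol f v ∧ R f v c.1 := fun c =>
      exists_v hA8 hf hd c.2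
    choose g hg1 hg2 using hex
    refine ⟨fun c => ⟨g c, Finset.mem_filter.2 ⟨sol_mem hB0 hB1 hd (hg1 c), hg1 c⟩⟩, ?_⟩
    intro c c' hcc
    have h1 : g c = g c' := congrArg Subtype.val hcc
    have h2 := hg2 c'
    rw [← h1] at h2
    exact Subtype.ext (uniq_c hA4 hf hd (hg2 c) h2)
  refine ⟨fun h => ?_, ?_⟩
  · obtain ⟨g, hg⟩ := key h
    exact Finite.of_injective g hg
  · unfold cl5
    by_cases h : IsDomain (OO f)
    · rw [dif_pos h]
      obtain ⟨g, hg⟩ := key h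
      have h1 := Nat.card_le_card_of_injective g hg
      refine h1.trans (le_of_eq ?_)
      rw [Nat.card_eq_fintype_card, Fintype.card_coe]
    · rw [dif_neg h]
      exact Nat.zero_le _

end P5
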