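import Pool.Agent.H731.P5.Stm

/-! Finite sets of polynomials. -/

open Polynomial
open scoped Classical

noncomputable section

namespace P5

namespace XB0

variable {F : Type} [Field F] [Fintype F]

omit [Fintype F] in
theorem coeff_sum (n : ℕ) (c : Fin n → F) (k : ℕ) :
    (∑ i : Fin n, C (c i) * X ^ (i : ℕ) : F[X]).coeff k = if h : k < n then c ⟨k, h⟩ else 0 := by
  rw [finsetSum_coeff]
  simp only [coeff_C_mul_X_pow]
  split_ifs with h
  · rw [Finset.sum_eq_single (⟨k, h⟩ : Fin n)]
    · simp
    · intro b _ hb
      rw [if_neg]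
      intro h'
      exact hb (Fin.ext h'.symm)
    · intro h'
      exact absurd (Finset.mem_univ _) h'
  · refine Finset.sum_eq_zero fun i _ => ?_
    rw [if_neg]
    intro h'
    exact h (h' ▸ i.2)

theorem mem_POL (n : ℕ) (g : F[X]) : g ∈ POL F n ↔ g.degree < n := by
  unfold POL
  rw [Finset.mem_image]
  constructor
  · rintro ⟨c, -, rfl⟩
    exact degree_sum_fin_lt c
  · intro h
    refine ⟨fun i => g.coeff i, Finset.mem_univ _, ?_⟩
    ext k
    rw [coeff_sum]
    split_ifs with hk
    · rfl
    · rw [coeff_eq_zero_of_degree_lt]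
      refine h.trans_le ?_
      exact_mod_cast not_lt.1 hk

theorem card_POL (n : ℕ) : (POL F n).card = Fintype.card F ^ n := by
  unfold POL
  rw [Finset.card_image_of_injective]
  · rw [Finset.card_univ, Fintype.card_fun, Fintype.card_fin]
  · intro c c' h
    funext i
    have h1 := congrArg (fun g : F[X] => g.coeff (i : ℕ)) h
    simp only [coeff_sum, dif_pos i.2] at h1
    exact h1

end XB0

theorem p_B0 (F : Type) [Field F] [Fintype F] [CharP F 5] : S_B0 F := by
  refine ⟨fun n g => XB0.mem_POL n g, ?_, fun n => XB0.card_POL n, ?_⟩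
  · intro n g
    rw [XB0.mem_POL]
    by_cases h0 : g = 0
    · rw [h0, degree_zero, natDegree_zero]
      exact ⟨fun _ => Nat.zero_le _, fun _ => WithBot.bot_lt_coe _⟩
    · rw [degree_eq_natDegree h0]
      constructor
      · intro h
        have h1 : g.natDegree < n + 1 := by exact_mod_cast h
        omega
      · intro h
        exact_mod_cast Nat.lt_succ_of_le h
  · intro m n hmn g hg
    rw [XB0.mem_POL] at hg ⊢
    refine hg.trans_le ?_
    exact_mod_cast hmn

end P5
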