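import Pool.Agent.H731.P5.Stm

/-!
# P5, task B1: the operator `lam` and the fourth derivative in characteristic 5
-/

open Polynomial
open scoped Classical

noncomputable section

namespace P5

namespace XB1

variable {F : Type} [Field F]

theorem coeff_lam (G : F[X]) (i : ℕ) : (lam G).coeff i = G.coeff (5 * i + 4) := by
  unfold lam
  rw [coeff_contract (by norm_num), coeff_divX, coeff_divX, coeff_divX, coeff_divX]
  congr 1
  ring

theorem lam_add (G H : F[X]) : lam (G + H) = lam G + lam H := by
  ext i
  rw [coeff_add, coeff_lam, coeff_lam, coeff_lam, coeff_add]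

theorem lam_C_mul (a : F) (G : F[X]) : lam (C a * G) = C a * lam G := by
  ext i
  rw [coeff_C_mul, coeff_lam, coeff_lam, coeff_C_mul]

theorem lam_X_pow (n : ℕ) (G : F[X]) : lam (X ^ (5 * n) * G) = X ^ n * lam G := by
  ext i
  rw [coeff_lam, coeff_X_pow_mul', coeff_X_pow_mul', coeff_lam]
  by_cases h : n ≤ i
  · rw [if_pos (by omega), if_pos h]
    congr 1
    omega
  · rw [if_neg (by omega), if_neg h]

theorem lam_expand_mul (a G : F[X]) : lam (expand F 5 a * G) = a * lam G := by
  induction a using Polynomial.induction_on' with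
  | add p q hp hq => rw [map_add, add_mul, lam_add, hp, hq, add_mul]
  | monomial n c =>
    rw [← C_mul_X_pow_eq_monomial, map_mul, map_pow, expand_C, expand_X, ← pow_mul, mul_assoc,
      lam_C_mul, lam_X_pow, mul_assoc]

theorem five [CharP F 5] : (5 : F) = 0 := by
  have := CharP.cast_eq_zero F 5
  exact_mod_cast this

theorem cast5 [CharP F 5] (k : ℕ) : ((5 * k : ℕ) : F) = 0 := by
  rw [Nat.cast_mul]
  have := CharP.cast_eq_zero F 5
  rw [this, zero_mul]

theorem der4 [CharP F 5] (G : F[X]) :
    derivative (derivative (derivative (derivative G))) = - expand F 5 (lam G) := by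
  ext m
  rw [coeff_derivative, coeff_derivative, coeff_derivative, coeff_derivative, coeff_neg,
    coeff_expand (by norm_num)]
  have h5 : (5 : F) = 0 := five
  obtain ⟨k, r, hr, hm⟩ : ∃ k r, r < 5 ∧ m = 5 * k + r :=
    ⟨m / 5, m % 5, Nat.mod_lt _ (by norm_num), by omega⟩
  have hk : ((5 * k : ℕ) : F) = 0 := cast5 k
  have hmF : (m : F) = (r : F) := by rw [hm, Nat.cast_add, hk, zero_add]
  by_cases hr0 : r = 0
  · subst hr0
    have hd : 5 ∣ m := ⟨k, by omega⟩
    rw [if_pos hd, coeff_lam]
    have e1 : 5 * (m / 5) + 4 = m + 1 + 1 + 1 + 1 := by omega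
    rw [e1]
    push_cast
    rw [hmF, Nat.cast_zero]
    linear_combination (5 * G.coeff (m + 1 + 1 + 1 + 1)) * h5
  · have hd : ¬ 5 ∣ m := by omega
    rw [if_neg hd, neg_zero]
    have hr' : r = 1 ∨ r = 2 ∨ r = 3 ∨ r = 4 := by omega
    push_cast
    rw [hmF]
    rcases hr' with rfl | rfl | rfl | rfl
    · push_cast
      linear_combination (G.coeff (m + 1 + 1 + 1 + 1) * 24) * h5
    · push_cast
      linear_combination (G.coeff (m + 1 + 1 + 1 + 1) * 72) * h5
    · push_cast
      linear_combination (G.coeff (m + 1 + 1 + 1 + 1) * 168) * h5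
    · push_cast
      linear_combination (G.coeff (m + 1 + 1 + 1 + 1) * 336) * h5

theorem lam_degree (G : F[X]) : (lam G).natDegree ≤ G.natDegree := by
  rw [natDegree_le_iff_coeff_eq_zero]
  intro i hi
  rw [coeff_lam]
  exact coeff_eq_zero_of_natDegree_lt (by omega)

theorem lam_sep (G : F[X]) (h : ∀ i < 5, lam (X ^ i * G) = 0) : G = 0 := by
  ext n
  rw [coeff_zero]
  have h1 := h (4 - n % 5) (by omega)
  have h2 : (lam (X ^ (4 - n % 5) * G)).coeff (n / 5) = 0 := by rw [h1, coeff_zero]
  rw [coeff_lam, coeff_X_pow_mul', if_pos (by omega)] at h2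
  have h3 : 5 * (n / 5) + 4 - (4 - n % 5) = n := by omega
  rwa [h3] at h2

theorem pow_five [CharP F 5] (v : F[X]) : v ^ 5 = expand F 5 (map (frobenius F 5) v) := by
  rw [← map_expand, map_frobenius_expand]

theorem isSol_iff [CharP F 5] (f v : F[X]) :
    IsSol f v ↔ lam (f ^ 2 * v) = map (frobenius F 5) v := by
  unfold IsSol
  rw [der4, pow_five, neg_inj]
  exact (expand_injective (by norm_num : 0 < 5)).eq_iff

theorem deg_sol (f v : F[X]) (hv : v ≠ 0) (h : IsSol f v) : 2 * v.natDegree + 2 ≤ f.natDegree := by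
  unfold IsSol at h
  have h1 : (v ^ 5).natDegree = 5 * v.natDegree := natDegree_pow v 5
  have h2 : (derivative (derivative (derivative (derivative (f ^ 2 * v))))).natDegree =
      5 * v.natDegree := by rw [h, natDegree_neg, h1]
  have h3 : 4 ≤ (f ^ 2 * v).natDegree := by
    by_contra hcon
    have h4 := iterate_derivative_eq_zero (p := f ^ 2 * v) (x := 4) (by omega)
    have h5 : derivative (derivative (derivative (derivative (f ^ 2 * v)))) = 0 := h4
    rw [h5] at h
    exact (pow_ne_zero 5 hv) (neg_eq_zero.mp h.symm)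
  have h4 := natDegree_derivative_le (f ^ 2 * v)
  have h5 := natDegree_derivative_le (derivative (f ^ 2 * v))
  have h6 := natDegree_derivative_le (derivative (derivative (f ^ 2 * v)))
  have h7 := natDegree_derivative_le (derivative (derivative (derivative (f ^ 2 * v))))
  have h8 : (f ^ 2 * v).natDegree ≤ 2 * f.natDegree + v.natDegree := by
    refine natDegree_mul_le.trans ?_
    have := natDegree_pow_le (p := f) (n := 2)
    omega
  omega

end XB1

open XB1 in
theorem p_B1 (F : Type) [Field F] [Fintype F] [CharP F 5] : S_B1 F :=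
  ⟨der4, lam_add, lam_expand_mul, lam_C_mul, lam_degree, lam_sep, isSol_iff, deg_sol,
    fun v => natDegree_map_eq_of_injective (frobenius_inj F 5) v,
    fun _ hv => (Polynomial.map_ne_zero_iff (frobenius_inj F 5)).mpr hv⟩

end P5
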