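import Pool.Agent.H731.P5.Stm

/-!
B2: the components modulo 5 of a polynomial (by helper375 for helper731).
-/

set_option autoImplicit false

open Polynomial
open scoped Classical

noncomputable section

namespace P5

namespace XB2

variable {F : Type} [Field F]

theorem coeff_iter (i : ℕ) (f : F[X]) (m : ℕ) : (divX^[i] f).coeff m = f.coeff (m + i) := by
  induction i generalizing f with
  | zero => rfl
  | succ i ih =>
    rw [Function.iterate_succ_apply, ih, coeff_divX]
    congr 1

/-- the components -/
def cmp (f : F[X]) (i : ℕ) : F[X] := contract 5 (divX^[i] f)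

theorem coeff_cmp (f : F[X]) (i j : ℕ) : (cmp f i).coeff j = f.coeff (j * 5 + i) := by
  unfold cmp
  rw [coeff_contract (by norm_num), coeff_iter]

theorem coeff_term (f : F[X]) (i m : ℕ) :
    (expand F 5 (cmp f i) * X ^ i).coeff m = if i ≤ m ∧ 5 ∣ m - i then f.coeff m else 0 := by
  rw [coeff_mul_X_pow']
  by_cases h1 : i ≤ m
  · rw [if_pos h1, coeff_expand (by norm_num)]
    by_cases h2 : 5 ∣ m - i
    · rw [if_pos h2, if_pos ⟨h1, h2⟩, coeff_cmp]
      congr 1
      omega
    · rw [if_neg h2, if_neg (fun h => h2 h.2)]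
  · rw [if_neg h1, if_neg (fun h => h1 h.1)]

end XB2

theorem p_B2 (F : Type) [Field F] [Fintype F] [CharP F 5] (hB0 : S_B0 F) : S_B2 F := by
  intro n f hf
  rw [hB0.1, degree_lt_iff_coeff_zero] at hf
  refine ⟨fun i => XB2.cmp f i, fun i => ?_, ?_⟩
  · rw [hB0.1, degree_lt_iff_coeff_zero]
    intro m hm
    rw [XB2.coeff_cmp]
    exact hf _ (by omega)
  · ext m
    rw [finsetSum_coeff, Finset.sum_eq_single (⟨m % 5, Nat.mod_lt _ (by norm_num)⟩ : Fin 5)]
    · rw [XB2.coeff_term, if_pos]
      constructor
      · exact Nat.mod_le _ _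
      · exact Nat.dvd_sub_mod m
    · intro i _ hi
      rw [XB2.coeff_term, if_neg]
      rintro ⟨h1, h2⟩
      apply hi
      apply Fin.ext
      have := i.2
      show (i : ℕ) = m % 5
      omega
    · intro h
      exact absurd (Finset.mem_univ _) h

end P5
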