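import Pool.Agent.H731.P5.Stm

/-!
# Project P5, task B3: a good basis for the form `lam (· · v)`
-/

open Polynomial
open scoped Classical

noncomputable section

namespace P5

namespace XB3

variable {F : Type} [Field F]

theorem perm3 (i j k : Fin 5) (hij : i ≠ j) (hik : i ≠ k) (hjk : j ≠ k) :
    ∃ σ : Equiv.Perm (Fin 5), σ 0 = i ∧ σ 1 = j ∧ σ 2 = k := by
  obtain ⟨σ, h0⟩ : ∃ σ : Equiv.Perm (Fin 5), σ 0 = i := ⟨Equiv.swap 0 i, Equiv.swap_apply_left _ _⟩
  obtain ⟨τ, h1, h2⟩ : ∃ τ : Equiv.Perm (Fin 5), τ 0 = i ∧ τ 1 = j := by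
    refine ⟨(Equiv.swap 1 (σ.symm j)).trans σ, ?_, ?_⟩
    · rw [Equiv.trans_apply, Equiv.swap_apply_of_ne_of_ne (by decide), h0]
      intro h
      rw [Equiv.eq_symm_apply, h0] at h
      exact hij h
    · rw [Equiv.trans_apply, Equiv.swap_apply_left, Equiv.apply_symm_apply]
  refine ⟨(Equiv.swap 2 (τ.symm k)).trans τ, ?_, ?_, ?_⟩
  · rw [Equiv.trans_apply, Equiv.swap_apply_of_ne_of_ne (by decide), h1]
    intro h
    rw [Equiv.eq_symm_apply, h1] at h
    exact hik h
  · rw [Equiv.trans_apply, Equiv.swap_apply_of_ne_of_ne (by decide), h2]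
    intro h
    rw [Equiv.eq_symm_apply, h2] at h
    exact hjk h
  · rw [Equiv.trans_apply, Equiv.swap_apply_left, Equiv.apply_symm_apply]

theorem perm2 (i j : Fin 5) (hij : i ≠ j) : ∃ σ : Equiv.Perm (Fin 5), σ 0 = i ∧ σ 1 = j := by
  have h : ∀ i j : Fin 5, ∃ k : Fin 5, i ≠ k ∧ j ≠ k := by decide
  obtain ⟨k, hk, hk'⟩ := h i j
  obtain ⟨σ, h1, h2, -⟩ := perm3 i j k hij hk hk'
  exact ⟨σ, h1, h2⟩

theorem sub_mem [Fintype F] (h0 : S_B0 F) {n : ℕ} {a b : F[X]} (ha : a ∈ POL F n)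
    (hb : b ∈ POL F n) : a - b ∈ POL F n := by
  rw [h0.1] at *
  exact lt_of_le_of_lt (degree_sub_le a b) (max_lt ha hb)

theorem two_ne [CharP F 5] : (2 : F[X]) ≠ 0 := by
  intro h
  have h5 : (5 : F[X]) = 0 := by exact_mod_cast CharP.cast_eq_zero F[X] 5
  have h1 : (1 : F[X]) = 0 := by linear_combination h5 - 2 * h
  exact one_ne_zero h1

/-- the entries of the form -/
def g (v : F[X]) (i j : Fin 5) : F[X] := lam (X ^ (i : ℕ) * X ^ (j : ℕ) * v)

theorem g_comm (v : F[X]) (i j : Fin 5) : g v i j = g v j i := by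
  unfold g
  rw [mul_comm (X ^ (i : ℕ) : F[X])]

theorem exists_ijk [Fintype F] [CharP F 5] (h1 : S_B1 F) {v : F[X]} (hv : v ≠ 0) :
    ∃ i j k : Fin 5, g v i i * g v j k ≠ g v i j * g v i k := by
  obtain ⟨-, hadd, hexp, hC, -, hz, -⟩ := h1
  by_contra hcon
  push Not at hcon
  by_cases hall : ∀ i, g v i i = 0
  · apply hv
    apply hz
    intro i hi
    have h2 := hcon 0 ⟨i, hi⟩ ⟨i, hi⟩
    rw [hall 0, zero_mul] at h2
    have h3 : g v 0 ⟨i, hi⟩ = 0 := mul_self_eq_zero.1 h2.symm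
    unfold g at h3
    simpa using h3
  · push Not at hall
    obtain ⟨i, hi⟩ := hall
    obtain ⟨j, hj⟩ : ∃ j : Fin 5, j ≠ i := by
      have h : ∀ i : Fin 5, ∃ j : Fin 5, j ≠ i := by decide
      exact h i
    have hG : (expand F 5 (g v i j) * X ^ (i : ℕ) - expand F 5 (g v i i) * X ^ (j : ℕ)) * v = 0 := by
      apply hz
      intro k hk
      have e1 : X ^ k * ((expand F 5 (g v i j) * X ^ (i : ℕ) - expand F 5 (g v i i) * X ^ (j : ℕ)) * v) =
          expand F 5 (g v i j) * (X ^ (i : ℕ) * X ^ k * v) +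
            expand F 5 (-(g v i i)) * (X ^ (j : ℕ) * X ^ k * v) := by
        rw [map_neg]
        ring
      have e2 := hcon i j ⟨k, hk⟩
      rw [e1, hadd, hexp, hexp]
      unfold g at e2 ⊢
      simp only at e2 ⊢
      linear_combination -e2
    rcases mul_eq_zero.1 hG with h4 | h4
    · rw [sub_eq_zero] at h4
      have h5 : expand F 5 (g v i i) ≠ 0 := by
        rw [Ne, expand_eq_zero (by norm_num)]
        exact hi
      have h6 : expand F 5 (g v i j) ≠ 0 := by
        intro h7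
        rw [h7, zero_mul] at h4
        rcases mul_eq_zero.1 h4.symm with h8 | h8
        · exact h5 h8
        · exact pow_ne_zero _ X_ne_zero h8
      have h7 := congrArg natDegree h4
      rw [natDegree_mul_X_pow _ h6, natDegree_mul_X_pow _ h5, natDegree_expand,
        natDegree_expand] at h7
      apply hj
      apply Fin.ext
      have hi5 := i.2
      have hj5 := j.2
      omega
    · exact hv h4

theorem rep [Fintype F] (h2 : S_B2 F) (σ : Equiv.Perm (Fin 5)) {n : ℕ} {f : F[X]}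
    (hf : f ∈ POL F (5 * n)) : ∃ y : Fin 5 → F[X], (∀ l, y l ∈ POL F n) ∧
      f = ∑ l : Fin 5, expand F 5 (y l) * X ^ (σ l : ℕ) := by
  obtain ⟨x, hx, hfx⟩ := h2 n f hf
  refine ⟨fun l => x (σ l), fun l => hx _, ?_⟩
  rw [hfx]
  exact (Equiv.sum_comp σ (fun i : Fin 5 => expand F 5 (x i) * X ^ (i : ℕ))).symm

theorem caseA [Fintype F] (h2 : S_B2 F) {v : F[X]} {i j : Fin 5} (hij : i ≠ j)
    (h : g v i i * g v j j ≠ g v i j ^ 2) : ∃ E : Fin 5 → F[X], (∀ l, (E l).natDegree ≤ 4) ∧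
    (∀ n (f : F[X]), f ∈ POL F (5 * n) → ∃ x : Fin 5 → F[X], (∀ l, x l ∈ POL F n) ∧
      f = ∑ l : Fin 5, expand F 5 (x l) * E l) ∧
    lam (E 0 * E 0 * v) * lam (E 1 * E 1 * v) - lam (E 0 * E 1 * v) ^ 2 ≠ 0 := by
  obtain ⟨σ, hi, hj⟩ := perm2 i j hij
  refine ⟨fun l => X ^ (σ l : ℕ), fun l => ?_, fun n f hf => rep h2 σ hf, ?_⟩
  · rw [natDegree_X_pow]
    have := (σ l).2
    omega
  · simp only [hi, hj]
    rw [sub_ne_zero]
    exact h

end XB3

open XB3

theorem p_B3 (F : Type) [Field F] [Fintype F] [CharP F 5] (hB1 : S_B1 F) (hB2 : S_B2 F)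
    (hB0 : S_B0 F) : S_B3 F := by
  intro v hv
  obtain ⟨i, j, k, hijk⟩ := exists_ijk hB1 hv
  have hij : i ≠ j := by
    rintro rfl
    exact hijk rfl
  have hik : i ≠ k := by
    rintro rfl
    rw [g_comm v j i, mul_comm] at hijk
    exact hijk rfl
  by_cases hA : g v i i * g v j j = g v i j ^ 2
  · by_cases hB : g v i i * g v k k = g v i k ^ 2
    · have hjk : j ≠ k := by
        rintro rfl
        apply hijk
        rw [hA]
        ring
      obtain ⟨σ, hi, hj, hk⟩ := perm3 i j k hij hik hjk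
      refine ⟨fun l => X ^ (σ l : ℕ) + if l = 1 then X ^ (k : ℕ) else 0, fun l => ?_,
        fun n f hf => ?_, ?_⟩
      · have h3 : (X ^ (σ l : ℕ) : F[X]).natDegree ≤ 4 := by
          rw [natDegree_X_pow]
          have := (σ l).2
          omega
        have h4 : (if l = 1 then X ^ (k : ℕ) else 0 : F[X]).natDegree ≤ 4 := by
          split_ifs
          · rw [natDegree_X_pow]
            have := k.2
            omega
          · simp
        exact (natDegree_add_le _ _).trans (max_le h3 h4)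
      · obtain ⟨y, hy, hfy⟩ := rep hB2 σ hf
        refine ⟨fun l => if l = 2 then y 2 - y 1 else y l, fun l => ?_, ?_⟩
        · beta_reduce
          by_cases hl : l = 2
          · rw [if_pos hl]
            exact sub_mem hB0 (hy _) (hy _)
          · rw [if_neg hl]
            exact hy l
        · rw [hfy, Fin.sum_univ_five, Fin.sum_univ_five]
          beta_reduce
          rw [if_neg (by decide : ¬ (0 : Fin 5) = 2), if_neg (by decide : ¬ (1 : Fin 5) = 2),
            if_pos (rfl : (2 : Fin 5) = 2), if_neg (by decide : ¬ (3 : Fin 5) = 2),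
            if_neg (by decide : ¬ (4 : Fin 5) = 2), if_neg (by decide : ¬ (0 : Fin 5) = 1),
            if_pos (rfl : (1 : Fin 5) = 1), if_neg (by decide : ¬ (2 : Fin 5) = 1),
            if_neg (by decide : ¬ (3 : Fin 5) = 1), if_neg (by decide : ¬ (4 : Fin 5) = 1),
            hi, hj, hk, map_sub]
          ring
      · obtain ⟨-, hadd, -⟩ := hB1
        beta_reduce
        rw [if_neg (by decide : ¬ (0 : Fin 5) = 1), if_pos (rfl : (1 : Fin 5) = 1), add_zero, hi, hj]
        have e1 : lam ((X ^ (j : ℕ) + X ^ (k : ℕ)) * (X ^ (j : ℕ) + X ^ (k : ℕ)) * v) =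
            g v j j + g v j k + (g v j k + g v k k) := by
          have : ((X ^ (j : ℕ) + X ^ (k : ℕ)) * (X ^ (j : ℕ) + X ^ (k : ℕ)) * v : F[X]) =
              (X ^ (j : ℕ) * X ^ (j : ℕ) * v + X ^ (j : ℕ) * X ^ (k : ℕ) * v) +
              (X ^ (j : ℕ) * X ^ (k : ℕ) * v + X ^ (k : ℕ) * X ^ (k : ℕ) * v) := by ring
          rw [this, hadd, hadd, hadd]
          rfl
        have e2 : lam (X ^ (i : ℕ) * (X ^ (j : ℕ) + X ^ (k : ℕ)) * v) = g v i j + g v i k := by
          have : (X ^ (i : ℕ) * (X ^ (j : ℕ) + X ^ (k : ℕ)) * v : F[X]) =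
              X ^ (i : ℕ) * X ^ (j : ℕ) * v + X ^ (i : ℕ) * X ^ (k : ℕ) * v := by ring
          rw [this, hadd]
          rfl
        rw [e1, e2, show lam (X ^ (i : ℕ) * X ^ (i : ℕ) * v) = g v i i from rfl]
        intro hz
        apply hijk
        have h3 : (2 : F[X]) * (g v i i * g v j k - g v i j * g v i k) = 0 := by
          linear_combination hz - hA - hB
        rcases mul_eq_zero.1 h3 with h4 | h4
        · exact absurd h4 two_ne
        · exact sub_eq_zero.1 h4
    · exact caseA hB2 hik hB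
  · exact caseA hB2 hij hA

end P5
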