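import Pool.Agent.H731.P5.Stm

/-!
# C1: the divisor bound (all divisors), adapted from the file DB of helper463's project DH (helper969)
-/

set_option linter.unusedSectionVars false

open Polynomial
open scoped Classical

noncomputable section

namespace P5

namespace XC1

variable {F : Type} [Field F] [Fintype F]

theorem mem_POL {n : ℕ} {U : F[X]} (h : U.natDegree < n) : U ∈ POL F n := by
  unfold POL
  rw [Finset.mem_image]
  refine ⟨fun i => U.coeff i, Finset.mem_univ _, ?_⟩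
  rw [Fin.sum_univ_eq_sum_range (fun i => C (U.coeff i) * X ^ i) n]
  exact (U.as_sum_range_C_mul_X_pow' h).symm

theorem dv_fin {R : F[X]} (hR : R ≠ 0) : {U : F[X] | U ∣ R}.Finite :=
  (Finset.finite_toSet (POL F (R.natDegree + 1))).subset fun _ hU =>
    mem_POL (Nat.lt_succ_of_le (natDegree_le_of_dvd hU hR))

/-- the divisors of `P ^ k * W` -/
theorem div_pow {P W : F[X]} (hP : Irreducible P) (k : ℕ) :
    ∀ a : F[X], a ∣ P ^ k * W → ∃ i < k + 1, ∃ a' : F[X], a' ∣ W ∧ P ^ i * a' = a := by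
  induction k with
  | zero =>
    intro a hd
    rw [pow_zero, one_mul] at hd
    exact ⟨0, Nat.zero_lt_one, a, hd, by rw [pow_zero, one_mul]⟩
  | succ k ih =>
    intro a hd
    by_cases hPa : P ∣ a
    · obtain ⟨b, rfl⟩ := hPa
      rw [pow_succ', mul_assoc] at hd
      obtain ⟨i, hi, a', had, hia⟩ := ih b ((mul_dvd_mul_iff_left hP.ne_zero).1 hd)
      exact ⟨i + 1, by omega, a', had, by rw [pow_succ', mul_assoc, hia]⟩
    · have h1 : IsCoprime a P := ((Irreducible.coprime_iff_not_dvd hP).2 hPa).symm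
      rw [pow_succ', mul_assoc] at hd
      obtain ⟨i, hi, a', had, hia⟩ := ih a (h1.dvd_of_dvd_mul_left hd)
      exact ⟨i, by omega, a', had, hia⟩

theorem dv_pow_le {P W : F[X]} (hP : Irreducible P) (hW : W ≠ 0) (k : ℕ) :
    dv (P ^ k * W) ≤ (k + 1) * dv W := by
  unfold dv
  have hsub : {U : F[X] | U ∣ P ^ k * W} ⊆ (fun z : ℕ × F[X] => P ^ z.1 * z.2) ''
      (((Finset.range (k + 1) : Finset ℕ) : Set ℕ) ×ˢ {U : F[X] | U ∣ W}) := by
    intro a ha
    obtain ⟨i, hi, a', had, hia⟩ := div_pow hP k a ha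
    exact ⟨(i, a'), ⟨Finset.mem_coe.2 (Finset.mem_range.2 hi), had⟩, hia⟩
  have hf : (((Finset.range (k + 1) : Finset ℕ) : Set ℕ) ×ˢ {U : F[X] | U ∣ W}).Finite :=
    (Finset.finite_toSet _).prod (dv_fin hW)
  refine (Set.ncard_le_ncard hsub (hf.image _)).trans ((Set.ncard_image_le hf).trans ?_)
  rw [Set.ncard_prod, Set.ncard_coe_finset, Finset.card_range]

theorem dv_unit {W : F[X]} (hW : IsUnit W) : dv W ≤ Fintype.card F := by
  unfold dv
  have hsub : {U : F[X] | U ∣ W} ⊆ (fun c : F => (C c : F[X])) '' Set.univ := by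
    intro U hU
    obtain ⟨c, _, hc⟩ := Polynomial.isUnit_iff.1 (isUnit_of_dvd_unit hU hW)
    exact ⟨c, Set.mem_univ _, hc⟩
  refine (Set.ncard_le_ncard hsub (Set.finite_univ.image _)).trans
    ((Set.ncard_image_le Set.finite_univ).trans ?_)
  rw [Set.ncard_univ, Nat.card_eq_fintype_card]

/-- the main induction -/
theorem main {t C₁ : ℝ} (ht : 1 < t) (hC₁ : 1 ≤ C₁) (hk : ∀ k : ℕ, (k : ℝ) + 1 ≤ C₁ * t ^ k)
    {D₀ : ℕ} (hD₀ : 2 < t ^ D₀) (n : ℕ) : ∀ (𝒮 : Finset F[X]) (W : F[X]), W ≠ 0 →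
      W.natDegree = n → (∀ P : F[X], P.Monic → Irreducible P → P ∣ W → P.natDegree < D₀ → P ∈ 𝒮) →
      (dv W : ℝ) ≤ qq F * (C₁ ^ 𝒮.card * t ^ W.natDegree) := by
  induction n using Nat.strong_induction_on with
  | _ n ih =>
    intro 𝒮 W hW hn hS
    have ht0 : 0 < t := by linarith
    have hq0 : 0 ≤ qq F := Nat.cast_nonneg _
    by_cases hu : IsUnit W
    · have h1 : (dv W : ℝ) ≤ qq F := by
        unfold qq
        exact_mod_cast dv_unit hu
      refine h1.trans ?_
      have h2 : 1 ≤ C₁ ^ 𝒮.card := one_le_pow₀ hC₁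
      have h3 : 1 ≤ t ^ W.natDegree := one_le_pow₀ ht.le
      have h4 : 1 ≤ C₁ ^ 𝒮.card * t ^ W.natDegree := one_le_mul_of_one_le_of_one_le h2 h3
      exact le_mul_of_one_le_right hq0 h4
    · obtain ⟨P, hPm, hPi, hPW⟩ := exists_monic_irreducible_factor W hu
      have hfin : FiniteMultiplicity P W :=
        FiniteMultiplicity.of_not_isUnit hPi.not_isUnit hW
      obtain ⟨W', hW', hPW'⟩ := hfin.exists_eq_pow_mul_and_not_dvd
      obtain ⟨k, hkk⟩ : ∃ k, k = multiplicity P W := ⟨_, rfl⟩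
      rw [← hkk] at hW'
      have hk0 : k ≠ 0 := by
        rintro rfl
        rw [pow_zero, one_mul] at hW'
        rw [hW'] at hPW
        exact hPW' hPW
      have hW'0 : W' ≠ 0 := by
        rintro rfl
        exact hPW' (dvd_zero _)
      have hPd : 0 < P.natDegree := hPi.natDegree_pos
      have hdeg : W.natDegree = k * P.natDegree + W'.natDegree := by
        rw [hW', natDegree_mul (pow_ne_zero _ hPm.ne_zero) hW'0, natDegree_pow]
      have hlt : W'.natDegree < n := by
        have : 0 < k * P.natDegree := Nat.mul_pos (Nat.pos_of_ne_zero hk0) hPd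
        omega
      have htau : (dv W : ℝ) ≤ ((k : ℝ) + 1) * dv W' := by
        have h1 := dv_pow_le hPi hW'0 k
        rw [← hW'] at h1
        exact_mod_cast h1
      have htk : (t ^ P.natDegree) ^ k * t ^ W'.natDegree = t ^ W.natDegree := by
        rw [hdeg, pow_add, ← pow_mul, mul_comm P.natDegree k]
      have htau0 : (0 : ℝ) ≤ dv W' := Nat.cast_nonneg _
      by_cases hsm : P.natDegree < D₀
      · have hPS : P ∈ 𝒮 := hS P hPm hPi hPW hsm
        have h1 := ih _ hlt (𝒮.erase P) W' hW'0 rfl (by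
          intro Q hQm hQi hQW hQd
          refine Finset.mem_erase.mpr ⟨?_, hS Q hQm hQi ?_ hQd⟩
          · rintro rfl
            exact hPW' hQW
          · rw [hW']
            exact hQW.mul_left _)
        have hcard : 𝒮.card = (𝒮.erase P).card + 1 := (Finset.card_erase_add_one hPS).symm
        have h2 : (k : ℝ) + 1 ≤ C₁ * (t ^ P.natDegree) ^ k := by
          refine (hk k).trans (mul_le_mul_of_nonneg_left ?_ (by linarith))
          exact pow_le_pow_left₀ ht0.le (le_self_pow₀ ht.le hPd.ne') k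
        calc (dv W : ℝ) ≤ ((k : ℝ) + 1) * dv W' := htau
          _ ≤ (C₁ * (t ^ P.natDegree) ^ k) *
              (qq F * (C₁ ^ (𝒮.erase P).card * t ^ W'.natDegree)) :=
              mul_le_mul h2 h1 htau0 (by positivity)
          _ = qq F * (C₁ ^ 𝒮.card * ((t ^ P.natDegree) ^ k * t ^ W'.natDegree)) := by
              rw [hcard, pow_succ]
              ring
          _ = qq F * (C₁ ^ 𝒮.card * t ^ W.natDegree) := by rw [htk]
      · have h1 := ih _ hlt 𝒮 W' hW'0 rfl (by
          intro Q hQm hQi hQW hQd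
          refine hS Q hQm hQi ?_ hQd
          rw [hW']
          exact hQW.mul_left _)
        have h2 : (k : ℝ) + 1 ≤ (t ^ P.natDegree) ^ k := by
          have h3 : (2 : ℝ) ≤ t ^ P.natDegree :=
            hD₀.le.trans (pow_le_pow_right₀ ht.le (not_lt.mp hsm))
          have h4 : (k : ℝ) + 1 ≤ 2 ^ k := by
            have h5 : k + 1 ≤ 2 ^ k := Nat.lt_two_pow_self
            exact_mod_cast h5
          exact h4.trans (pow_le_pow_left₀ (by norm_num) h3 k)
        calc (dv W : ℝ) ≤ ((k : ℝ) + 1) * dv W' := htau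
          _ ≤ (t ^ P.natDegree) ^ k * (qq F * (C₁ ^ 𝒮.card * t ^ W'.natDegree)) :=
              mul_le_mul h2 h1 htau0 (by positivity)
          _ = qq F * (C₁ ^ 𝒮.card * ((t ^ P.natDegree) ^ k * t ^ W'.natDegree)) := by ring
          _ = qq F * (C₁ ^ 𝒮.card * t ^ W.natDegree) := by rw [htk]

end XC1

theorem p_C1 (F : Type) [Field F] [Fintype F] [CharP F 5] : S_C1 F := by
  refine ⟨fun R hR => XC1.dv_fin hR, ?_⟩
  intro δ hδ
  have hq : 1 < qq F := by
    unfold qq
    exact_mod_cast Fintype.one_lt_card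
  have hq0 : 0 < qq F := by linarith
  have ht : 1 < qq F ^ δ := Real.one_lt_rpow hq hδ
  obtain ⟨t, htt⟩ : ∃ t, t = qq F ^ δ := ⟨_, rfl⟩
  rw [← htt] at ht
  obtain ⟨D₀, hD₀⟩ := pow_unbounded_of_one_lt (2 : ℝ) ht
  have hε : 0 < t - 1 := by linarith
  have hC : 1 ≤ 1 + 1 / (t - 1) := by
    have : 0 < 1 / (t - 1) := by positivity
    linarith
  have hk : ∀ k : ℕ, (k : ℝ) + 1 ≤ (1 + 1 / (t - 1)) * t ^ k := by
    intro k
    have h1 : 1 + (k : ℝ) * (t - 1) ≤ t ^ k := by
      have h2 := one_add_mul_le_pow (a := t - 1) (by linarith) k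
      rw [add_sub_cancel] at h2
      exact h2
    have h3 : (1 + 1 / (t - 1)) * (1 + (k : ℝ) * (t - 1)) = 1 + k + (k * (t - 1) + 1 / (t - 1)) := by
      field_simp
      ring
    have h4 : 0 ≤ (k : ℝ) * (t - 1) + 1 / (t - 1) := by positivity
    have h5 := mul_le_mul_of_nonneg_left h1 (by linarith : 0 ≤ 1 + 1 / (t - 1))
    linarith
  refine ⟨qq F * (1 + 1 / (t - 1)) ^ (POL F D₀).card, by positivity, ?_⟩
  intro W hW
  have h1 := XC1.main ht hC hk hD₀ W.natDegree (POL F D₀) W hW rfl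
    (fun P _ _ _ hPd => XC1.mem_POL hPd)
  have h2 : qq F ^ (δ * (W.natDegree : ℝ)) = t ^ W.natDegree := by
    rw [Real.rpow_mul hq0.le, Real.rpow_natCast, htt]
  rw [h2, mul_assoc]
  exact h1

end P5
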