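import Pool.Agent.H731.P5.Stm

set_option autoImplicit false

/-!
# C2: elements of norm one
-/

open Polynomial
open scoped Classical

noncomputable section

namespace P5

namespace XC2

variable {F : Type} [Field F]

theorem zconst {P Z D : F[X]} (hD : D ≠ 0) (h : P ^ 2 - D * Z ^ 2 = 1) (hP : P.natDegree = 0) :
    Z.natDegree = 0 := by
  by_cases hZ : Z = 0
  · rw [hZ, natDegree_zero]
  · have h1 : D * Z ^ 2 = P ^ 2 - 1 := by linear_combination -h
    have h2 : (D * Z ^ 2).natDegree = D.natDegree + 2 * Z.natDegree := by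
      rw [natDegree_mul hD (pow_ne_zero _ hZ), natDegree_pow]
    have h3 : (P ^ 2 - 1).natDegree ≤ 0 := by
      refine (natDegree_sub_le _ _).trans ?_
      rw [natDegree_pow, hP, natDegree_one]
      simp
    rw [← h1, h2] at h3
    omega

theorem fib (h20 : (2 : F) ≠ 0) {D U T U' T' : F[X]} {n : ℕ} (h1 : U ^ 2 - D * T ^ 2 = 1)
    (h2 : U' ^ 2 - D * T' ^ 2 = 1) (hU : U.natDegree = n) (hU' : U'.natDegree = n) (hn : 1 ≤ n)
    (hP : (U * U' + D * T * T').natDegree ≠ 0) : (U * U' - D * T * T').natDegree = 0 := by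
  by_contra hP1
  have hU0 : U ≠ 0 := by
    rintro rfl
    rw [natDegree_zero] at hU
    omega
  have hU0' : U' ≠ 0 := by
    rintro rfl
    rw [natDegree_zero] at hU'
    omega
  have hP0 : U * U' + D * T * T' ≠ 0 := by
    intro h
    rw [h, natDegree_zero] at hP
    exact hP rfl
  have hP10 : U * U' - D * T * T' ≠ 0 := by
    intro h
    rw [h, natDegree_zero] at hP1
    exact hP1 rfl
  have e1 : (U * U' + D * T * T') * (U * U' - D * T * T') = U ^ 2 + U' ^ 2 - 1 := by
    linear_combination (U' ^ 2 - 1) * h1 + D * T ^ 2 * h2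
  have e2 : (U * U' + D * T * T').natDegree + (U * U' - D * T * T').natDegree ≤ 2 * n := by
    rw [← natDegree_mul hP0 hP10, e1]
    refine (natDegree_sub_le _ _).trans ?_
    refine max_le ((natDegree_add_le _ _).trans ?_) ?_
    · rw [natDegree_pow, natDegree_pow, hU, hU', max_self]
    · rw [natDegree_one]
      exact Nat.zero_le _
  have e3 : (U * U' + D * T * T') + (U * U' - D * T * T') = C 2 * (U * U') := by
    rw [show (C 2 : F[X]) = 2 from rfl]
    ring
  have e4 : 2 * n ≤ max (U * U' + D * T * T').natDegree (U * U' - D * T * T').natDegree := by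
    have h := natDegree_add_le (U * U' + D * T * T') (U * U' - D * T * T')
    rw [e3, natDegree_C_mul h20, natDegree_mul hU0 hU0', hU, hU'] at h
    omega
  rcases le_max_iff.1 e4 with h | h
  · omega
  · omega

/-- the code of a solution -/
def code (D U T : F[X]) (z : F[X] × F[X]) : Bool × F × F :=
  if (U * z.1 + D * T * z.2).natDegree = 0 then
    (true, (U * z.1 + D * T * z.2).coeff 0, (U * z.2 + T * z.1).coeff 0)
  else (false, (U * z.1 - D * T * z.2).coeff 0, (U * z.2 - T * z.1).coeff 0)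

/-- the inverse -/
def dcode (D U T : F[X]) (c : Bool × F × F) : F[X] × F[X] :=
  if c.1 = true then (U * C c.2.1 - D * T * C c.2.2, U * C c.2.2 - T * C c.2.1)
  else (U * C c.2.1 + D * T * C c.2.2, U * C c.2.2 + T * C c.2.1)

theorem dcode_code (h20 : (2 : F) ≠ 0) {D U T : F[X]} {n : ℕ} (hD : D ≠ 0)
    (h1 : U ^ 2 - D * T ^ 2 = 1) (hU : U.natDegree = n) (hn : 1 ≤ n) (z : F[X] × F[X])
    (h2 : z.1 ^ 2 - D * z.2 ^ 2 = 1) (hU' : z.1.natDegree = n) :
    dcode D U T (code D U T z) = z := by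
  unfold code
  by_cases hP : (U * z.1 + D * T * z.2).natDegree = 0
  · rw [if_pos hP]
    have hZ : (U * z.2 + T * z.1).natDegree = 0 := by
      refine zconst (P := U * z.1 + D * T * z.2) hD ?_ hP
      linear_combination z.1 ^ 2 * h1 - D * z.2 ^ 2 * h1 + h2
    have e1 := eq_C_of_natDegree_eq_zero hP
    have e2 := eq_C_of_natDegree_eq_zero hZ
    unfold dcode
    rw [if_pos rfl]
    simp only
    rw [← e1, ← e2]
    apply Prod.ext
    · simp only
      linear_combination z.1 * h1
    · simp only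
      linear_combination z.2 * h1
  · rw [if_neg hP]
    have hP1 := fib h20 h1 h2 hU hU' hn hP
    have hZ : (U * z.2 - T * z.1).natDegree = 0 := by
      refine zconst (P := U * z.1 - D * T * z.2) hD ?_ hP1
      linear_combination z.1 ^ 2 * h1 - D * z.2 ^ 2 * h1 + h2
    have e1 := eq_C_of_natDegree_eq_zero hP1
    have e2 := eq_C_of_natDegree_eq_zero hZ
    unfold dcode
    rw [if_neg (by simp)]
    simp only
    rw [← e1, ← e2]
    apply Prod.ext
    · simp only
      linear_combination z.1 * h1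
    · simp only
      linear_combination z.2 * h1

/-- the solutions of degree `n` -/
theorem fiber_le [Fintype F] (h20 : (2 : F) ≠ 0) {D : F[X]} (hD : D ≠ 0) {n : ℕ} (hn : 1 ≤ n)
    (S : Finset (F[X] × F[X])) (hS : ∀ z ∈ S, z.1 ^ 2 - D * z.2 ^ 2 = 1 ∧ z.1.natDegree = n) :
    S.card ≤ 2 * Fintype.card F ^ 2 := by
  rcases S.eq_empty_or_nonempty with rfl | ⟨w, hw⟩
  · simp
  · have h : S.card ≤ (Finset.univ : Finset (Bool × F × F)).card := by
      refine Finset.card_le_card_of_injOn (code D w.1 w.2) (fun _ _ => Finset.mem_univ _) ?_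
      intro z hz z' hz' he
      have e1 := dcode_code h20 hD (hS w hw).1 (hS w hw).2 hn z (hS z hz).1 (hS z hz).2
      have e2 := dcode_code h20 hD (hS w hw).1 (hS w hw).2 hn z' (hS z' hz').1 (hS z' hz').2
      rw [← e1, ← e2, he]
    refine h.trans (le_of_eq ?_)
    rw [Finset.card_univ, Fintype.card_prod, Fintype.card_prod, Fintype.card_bool]
    ring

/-- the constant solutions -/
theorem fiber_zero [Fintype F] {D : F[X]} (hD : D ≠ 0)
    (S : Finset (F[X] × F[X])) (hS : ∀ z ∈ S, z.1 ^ 2 - D * z.2 ^ 2 = 1 ∧ z.1.natDegree = 0) :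
    S.card ≤ Fintype.card F ^ 2 := by
  have h : S.card ≤ (Finset.univ : Finset (F × F)).card := by
    refine Finset.card_le_card_of_injOn (fun z => (z.1.coeff 0, z.2.coeff 0))
      (fun _ _ => Finset.mem_univ _) ?_
    intro z hz z' hz' he
    have e1 := eq_C_of_natDegree_eq_zero (hS z hz).2
    have e2 := eq_C_of_natDegree_eq_zero (hS z' hz').2
    have e3 := eq_C_of_natDegree_eq_zero (zconst hD (hS z hz).1 (hS z hz).2)
    have e4 := eq_C_of_natDegree_eq_zero (zconst hD (hS z' hz').1 (hS z' hz').2)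
    simp only [Prod.mk.injEq] at he
    apply Prod.ext
    · rw [e1, e2, he.1]
    · rw [e3, e4, he.2]
  refine h.trans (le_of_eq ?_)
  rw [Finset.card_univ, Fintype.card_prod]
  ring

end XC2

open XC2 in
theorem p_C2 (F : Type) [Field F] [Fintype F] [CharP F 5] (hB0 : S_B0 F) : S_C2 F := by
  intro D hD _ L
  have h20 : (2 : F) ≠ 0 := by
    intro h
    have h1 : ((2 : ℕ) : F) = 0 := by exact_mod_cast h
    rw [CharP.cast_eq_zero_iff F 5 2] at h1
    omega
  obtain ⟨S, hS⟩ : ∃ S, S = ((POL F (L + 1)) ×ˢ (POL F (L + 1))).filter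
      (fun z => z.1 ^ 2 - D * z.2 ^ 2 = 1) := ⟨_, rfl⟩
  rw [← hS]
  have hmem : ∀ z ∈ S, z.1 ^ 2 - D * z.2 ^ 2 = 1 ∧ z.1.natDegree ≤ L := by
    intro z hz
    rw [hS, Finset.mem_filter, Finset.mem_product] at hz
    exact ⟨hz.2, (hB0.2.1 L z.1).1 hz.1.1⟩
  have h1 : S.card = ∑ n ∈ Finset.range (L + 1), (S.filter (fun z => z.1.natDegree = n)).card := by
    refine Finset.card_eq_sum_card_fiberwise (f := fun z : F[X] × F[X] => z.1.natDegree) ?_
    intro z hz
    rw [Finset.coe_range, Set.mem_Iio]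
    have := (hmem z hz).2
    simp only
    omega
  rw [h1, Finset.sum_range_succ']
  have h2 : ∀ n ∈ Finset.range L, (S.filter (fun z => z.1.natDegree = n + 1)).card ≤
      2 * Fintype.card F ^ 2 := by
    intro n _
    refine fiber_le h20 hD (Nat.succ_le_succ (Nat.zero_le n)) _ fun z hz => ?_
    rw [Finset.mem_filter] at hz
    exact ⟨(hmem z hz.1).1, hz.2⟩
  have h3 : (S.filter (fun z => z.1.natDegree = 0)).card ≤ Fintype.card F ^ 2 := by
    refine fiber_zero hD _ fun z hz => ?_
    rw [Finset.mem_filter] at hz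
    exact ⟨(hmem z hz.1).1, hz.2⟩
  have h4 := Finset.sum_le_card_nsmul _ _ _ h2
  rw [Finset.card_range, smul_eq_mul] at h4
  nlinarith

end P5
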