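import Pool.Agent.H731.P5.Stm

/-!
# Square roots of `D` modulo `M`

The map `z ↦ gcd (M, z - z₀)` is injective on the square roots of the squarefree polynomial `D` modulo `M`, for a fixed
square root `z₀`: if `G` is the value at `z` and `M = G H` then `H ∣ z + z₀`, and `G`, `H` are coprime (a common prime
divisor divides `z - z₀` and `z + z₀`, so it divides `z₀`, and its square divides `M` and so `D`).
-/

set_option autoImplicit false

open Polynomial
open scoped Classical

noncomputable section

namespace P5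

namespace XC3

variable {F : Type} [Field F] [CharP F 5]

lemma two_unit : IsUnit (2 : F[X]) := by
  have h : (2 : F) ≠ 0 := by
    intro h
    have h1 : ((2 : ℕ) : F) = 0 := by exact_mod_cast h
    rw [CharP.cast_eq_zero_iff F 5] at h1
    omega
  have h2 : (2 : F[X]) = C (2 : F) := (map_ofNat (C : F →+* F[X]) 2).symm
  rw [h2]
  exact isUnit_C.2 (isUnit_iff_ne_zero.2 h)

omit [CharP F 5] in
/-- the complementary divisor divides `z + z₀` -/
lemma compl_dvd {D M z0 z H : F[X]} (hM : M ≠ 0) (h0 : M ∣ z0 ^ 2 - D) (hz : M ∣ z ^ 2 - D)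
    (hH : M = EuclideanDomain.gcd M (z - z0) * H) : H ∣ z + z0 := by
  obtain ⟨a, ha⟩ := EuclideanDomain.gcd_dvd_right M (z - z0)
  have hbez := EuclideanDomain.gcd_eq_gcd_ab M (z - z0)
  generalize EuclideanDomain.gcd M (z - z0) = G at *
  generalize EuclideanDomain.gcdA M (z - z0) = x at *
  generalize EuclideanDomain.gcdB M (z - z0) = y at *
  have hG : G ≠ 0 := by
    rintro rfl
    rw [zero_mul] at hH
    exact hM hH
  have hcop : IsCoprime H a := by
    refine ⟨x, y, ?_⟩
    apply mul_left_cancel₀ hG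
    calc G * (x * H + y * a) = G * H * x + G * a * y := by ring
      _ = M * x + (z - z0) * y := by rw [← hH, ← ha]
      _ = G * 1 := by rw [← hbez, mul_one]
  have h1 : G * H ∣ G * (a * (z + z0)) := by
    have h2 : M ∣ (z - z0) * (z + z0) := by
      have h3 := dvd_sub hz h0
      have e : z ^ 2 - D - (z0 ^ 2 - D) = (z - z0) * (z + z0) := by ring
      rwa [e] at h3
    rw [← hH]
    have e : G * (a * (z + z0)) = (z - z0) * (z + z0) := by rw [ha]; ring
    rwa [e]
  exact hcop.dvd_of_dvd_mul_left ((mul_dvd_mul_iff_left hG).1 h1)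

lemma key {D M z0 z w : F[X]} (hD : Squarefree D) (hM : M ≠ 0) (h0 : M ∣ z0 ^ 2 - D)
    (hz : M ∣ z ^ 2 - D) (hw : M ∣ w ^ 2 - D)
    (hg : EuclideanDomain.gcd M (z - z0) = EuclideanDomain.gcd M (w - z0)) : M ∣ z - w := by
  obtain ⟨H, hH⟩ := EuclideanDomain.gcd_dvd_left M (z - z0)
  have hH2 : M = EuclideanDomain.gcd M (w - z0) * H := by rw [← hg]; exact hH
  have c1 : H ∣ z + z0 := compl_dvd hM h0 hz hH
  have c2 : H ∣ w + z0 := compl_dvd hM h0 hw hH2
  have g1 := EuclideanDomain.gcd_dvd_right M (z - z0)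
  have g2 := EuclideanDomain.gcd_dvd_right M (w - z0)
  rw [← hg] at g2
  generalize EuclideanDomain.gcd M (z - z0) = G at *
  have d1 : H ∣ z - w := by
    have := dvd_sub c1 c2
    have e : z + z0 - (w + z0) = z - w := by ring
    rwa [e] at this
  have d2 : G ∣ z - w := by
    have := dvd_sub g1 g2
    have e : z - z0 - (w - z0) = z - w := by ring
    rwa [e] at this
  have hcop : IsCoprime G H := by
    refine isCoprime_of_prime_dvd ?_ ?_
    · rintro ⟨h1, _⟩
      rw [h1, zero_mul] at hH
      exact hM hH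
    · intro P hP hPG hPH
      have e1 : P ∣ z - z0 := hPG.trans g1
      have e2 : P ∣ z + z0 := hPH.trans c1
      have e3 : P ∣ 2 * z0 := by
        have := dvd_sub e2 e1
        have e : z + z0 - (z - z0) = 2 * z0 := by ring
        rwa [e] at this
      have e4 : P ∣ z0 := (two_unit.dvd_mul_left).1 e3
      have e5 : P * P ∣ M := by
        rw [hH]
        exact mul_dvd_mul hPG hPH
      have e6 : P * P ∣ D := by
        have h1 : P * P ∣ z0 ^ 2 := by
          rw [sq]
          exact mul_dvd_mul e4 e4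
        have := dvd_sub h1 (e5.trans h0)
        have e : z0 ^ 2 - (z0 ^ 2 - D) = D := by ring
        rwa [e] at this
      exact hP.not_isUnit (hD P e6)
  rw [hH]
  exact hcop.mul_dvd d2 d1

end XC3

theorem p_C3 (F : Type) [Field F] [Fintype F] [CharP F 5] (hB0 : S_B0 F) : S_C3 F := by
  intro D M hD hM
  have hfin : {U : F[X] | U ∣ M}.Finite := by
    refine (Finset.finite_toSet (POL F (M.natDegree + 1))).subset fun U hU => ?_
    rw [Finset.mem_coe, hB0.2.1]
    exact natDegree_le_of_dvd hU hM
  rcases ((POL F M.natDegree).filter (fun z => M ∣ z ^ 2 - D)).eq_empty_or_nonempty with h | ⟨z0, hz0⟩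
  · rw [h]
    exact Nat.zero_le _
  · rw [Finset.mem_filter] at hz0
    unfold dv
    rw [← Set.ncard_coe_finset]
    refine Set.ncard_le_ncard_of_injOn (fun z => EuclideanDomain.gcd M (z - z0)) ?_ ?_ hfin
    · intro z _
      exact EuclideanDomain.gcd_dvd_left M (z - z0)
    · intro z hz w hw hzw
      rw [Finset.mem_coe, Finset.mem_filter] at hz hw
      have hdvd := XC3.key hD hM hz0.2 hz.2 hw.2 hzw
      have hdeg : (z - w).degree < M.degree := by
        rw [degree_eq_natDegree hM]
        exact lt_of_le_of_lt (degree_sub_le _ _)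
          (max_lt ((hB0.1 _ _).1 hz.1) ((hB0.1 _ _).1 hw.1))
      exact sub_eq_zero.1 (eq_zero_of_dvd_of_degree_lt hdvd hdeg)

end P5
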