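import Pool.Agent.H731.P5.Stm

/-!
# Project P5, part C4: coprime solutions of the Pell equation
-/

open Polynomial
open scoped Classical

noncomputable section

namespace P5

namespace XC4

variable {F : Type} [Field F]

/-- the residue class of a coprime solution -/
theorem exists_z {D M x y : F[X]} (hM : M ≠ 0) (hc : IsCoprime x y) (h : y ^ 2 - D * x ^ 2 = M) :
    ∃ z : F[X], z.degree < M.degree ∧ M ∣ y - z * x ∧ M ∣ z ^ 2 - D := by
  have h1 : IsCoprime x M := by
    obtain ⟨a, b, hab⟩ := hc.pow_right (n := 2)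
    refine ⟨a + b * D * x, b, ?_⟩
    rw [← h, ← hab]
    ring
  obtain ⟨u, v, huv⟩ := h1
  have h2 : M * (u * y / M) + u * y % M = u * y := EuclideanDomain.div_add_mod _ _
  have h3 : M ∣ y - (u * y % M) * x := by
    refine ⟨v * y + (u * y / M) * x, ?_⟩
    have h4 : u * y % M = u * y - M * (u * y / M) := eq_sub_of_add_eq' h2
    have h5 : y = (u * x + v * M) * y := by rw [huv, one_mul]
    rw [h4]
    calc y - (u * y - M * (u * y / M)) * x
        = (u * x + v * M) * y - (u * y - M * (u * y / M)) * x := by rw [← h5]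
      _ = M * (v * y + u * y / M * x) := by ring
  refine ⟨u * y % M, EuclideanDomain.mod_lt _ hM, h3, ?_⟩
  obtain ⟨z, hz⟩ : ∃ z, z = u * y % M := ⟨_, rfl⟩
  rw [← hz] at h3 ⊢
  have h6 : M ∣ (z ^ 2 - D) * x ^ 2 := by
    obtain ⟨c, hc'⟩ := h3
    have h7 : y = z * x + M * c := by rw [← hc']; ring
    refine ⟨1 - 2 * z * x * c - M * c ^ 2, ?_⟩
    have h8 : (z * x + M * c) ^ 2 - D * x ^ 2 = M := by rw [← h7]; exact h
    linear_combination h8
  have h9 : IsCoprime M (x ^ 2) := (IsCoprime.pow_left (m := 2) ⟨u, v, huv⟩).symm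
  exact h9.dvd_of_dvd_mul_right h6

theorem natDegree_of_mul {U M P : F[X]} {n : ℕ} (hM : M ≠ 0) (h : M * U = P) (hP : P.natDegree ≤ n) :
    U.natDegree ≤ n := by
  by_cases hU : U = 0
  · rw [hU, natDegree_zero]
    exact Nat.zero_le _
  · rw [← h, natDegree_mul hM hU] at hP
    omega

end XC4

open XC4

/-- **C4** coprime solutions of the Pell equation. -/
theorem p_C4 (F : Type) [Field F] [Fintype F] [CharP F 5] (hB0 : S_B0 F) (hC2 : S_C2 F)
    (hC3 : S_C3 F) : S_C4 F := by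
  intro D M hD hsq hM L
  obtain ⟨hp1, hp2, -, -⟩ := hB0
  have hD0 : D ≠ 0 := by
    rintro rfl
    exact hsq ⟨0, by ring⟩
  obtain ⟨A, hA⟩ : ∃ A : Finset (F[X] × F[X]),
      A = (pell (L + 1) D M).filter (fun z => IsCoprime z.1 z.2) := ⟨_, rfl⟩
  obtain ⟨Z, hZ⟩ : ∃ Z : Finset F[X], Z = (POL F M.natDegree).filter (fun z => M ∣ z ^ 2 - D) :=
    ⟨_, rfl⟩
  have hAm : ∀ p, p ∈ A → p.1.natDegree ≤ L ∧ p.2.natDegree ≤ L ∧ p.2 ^ 2 - D * p.1 ^ 2 = M ∧
      IsCoprime p.1 p.2 := by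
    intro p hp
    rw [hA, Finset.mem_filter, pell, Finset.mem_filter, Finset.mem_product, hp2, hp2] at hp
    exact ⟨hp.1.1.1, hp.1.1.2, hp.1.2, hp.2⟩
  have hcover : A ⊆ Z.biUnion fun z => A.filter (fun p => M ∣ p.2 - z * p.1) := by
    intro p hp
    obtain ⟨_, _, h3, h4⟩ := hAm p hp
    obtain ⟨z, hz1, hz2, hz3⟩ := exists_z hM h4 h3
    rw [Finset.mem_biUnion]
    refine ⟨z, ?_, Finset.mem_filter.2 ⟨hp, hz2⟩⟩
    rw [hZ, Finset.mem_filter, hp1]
    rw [degree_eq_natDegree hM] at hz1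
    exact ⟨hz1, hz3⟩
  have hfib : ∀ z ∈ Z, (A.filter (fun p => M ∣ p.2 - z * p.1)).card ≤
      Fintype.card F ^ 2 * (4 * (2 * L + D.natDegree) + 2) := by
    intro z hz
    rw [hZ, Finset.mem_filter] at hz
    obtain ⟨e, he⟩ := hz.2
    rcases Finset.eq_empty_or_nonempty (A.filter (fun p => M ∣ p.2 - z * p.1)) with h0 | ⟨w, hw⟩
    · rw [h0, Finset.card_empty]
      exact Nat.zero_le _
    refine le_trans ?_ (hC2 D hD0 hsq (2 * L + D.natDegree))
    rw [Finset.mem_filter] at hw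
    obtain ⟨hwA, b, hb⟩ := hw
    obtain ⟨w1, w2, w3, -⟩ := hAm w hwA
    have key : ∀ p ∈ A.filter (fun p => M ∣ p.2 - z * p.1),
        M * ((p.2 * w.2 - D * p.1 * w.1) / M) = p.2 * w.2 - D * p.1 * w.1 ∧
        M * ((p.1 * w.2 - w.1 * p.2) / M) = p.1 * w.2 - w.1 * p.2 := by
      intro p hp
      rw [Finset.mem_filter] at hp
      obtain ⟨-, a, ha⟩ := hp
      have ha' : p.2 = z * p.1 + M * a := by rw [← ha]; ring
      have hb' : w.2 = z * w.1 + M * b := by rw [← hb]; ring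
      constructor
      · refine EuclideanDomain.mul_div_cancel' hM ⟨e * p.1 * w.1 + a * z * w.1 + b * z * p.1 +
          M * a * b, ?_⟩
        have he' : D = z ^ 2 - M * e := by rw [← he]; ring
        rw [ha', hb', he']
        ring
      · refine EuclideanDomain.mul_div_cancel' hM ⟨p.1 * b - w.1 * a, ?_⟩
        rw [ha', hb']
        ring
    refine Finset.card_le_card_of_injOn
      (fun p => ((p.2 * w.2 - D * p.1 * w.1) / M, (p.1 * w.2 - w.1 * p.2) / M)) ?_ ?_
    · intro p hp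
      rw [Finset.mem_coe] at hp
      obtain ⟨k1, k2⟩ := key p hp
      rw [Finset.mem_filter] at hp
      obtain ⟨d1, d2, d3, -⟩ := hAm p hp.1
      obtain ⟨U, hU⟩ : ∃ U, U = (p.2 * w.2 - D * p.1 * w.1) / M := ⟨_, rfl⟩
      obtain ⟨T, hT⟩ : ∃ T, T = (p.1 * w.2 - w.1 * p.2) / M := ⟨_, rfl⟩
      rw [← hU] at k1
      rw [← hT] at k2
      simp only [Finset.coe_filter, Set.mem_ofPred_eq, Finset.mem_product, hp2]
      rw [← hU, ← hT]
      refine ⟨⟨natDegree_of_mul hM k1 ?_, natDegree_of_mul hM k2 ?_⟩, ?_⟩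
      · refine (natDegree_sub_le _ _).trans (max_le ?_ ?_)
        · exact natDegree_mul_le.trans (by omega)
        · refine natDegree_mul_le.trans ?_
          have h5 : (D * p.1).natDegree ≤ D.natDegree + p.1.natDegree := natDegree_mul_le
          omega
      · refine (natDegree_sub_le _ _).trans (max_le ?_ ?_)
        · exact natDegree_mul_le.trans (by omega)
        · exact natDegree_mul_le.trans (by omega)
      · have h6 : M ^ 2 * (U ^ 2 - D * T ^ 2) = M ^ 2 * 1 := by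
          calc M ^ 2 * (U ^ 2 - D * T ^ 2) = (M * U) ^ 2 - D * (M * T) ^ 2 := by ring
            _ = (p.2 ^ 2 - D * p.1 ^ 2) * (w.2 ^ 2 - D * w.1 ^ 2) := by rw [k1, k2]; ring
            _ = M ^ 2 * 1 := by rw [d3, w3]; ring
        exact mul_left_cancel₀ (pow_ne_zero 2 hM) h6
    · intro p hp r hr hpr
      rw [Finset.mem_coe] at hp hr
      obtain ⟨k1, k2⟩ := key p hp
      obtain ⟨l1, l2⟩ := key r hr
      simp only [Prod.mk.injEq] at hpr
      rw [hpr.1] at k1
      rw [hpr.2] at k2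
      have e1 : p.2 * w.2 - D * p.1 * w.1 = r.2 * w.2 - D * r.1 * w.1 := k1.symm.trans l1
      have e2 : p.1 * w.2 - w.1 * p.2 = r.1 * w.2 - w.1 * r.2 := k2.symm.trans l2
      have f1 : M * p.1 = M * r.1 := by
        rw [← w3]
        linear_combination w.1 * e1 + w.2 * e2
      have f2 : M * p.2 = M * r.2 := by
        rw [← w3]
        linear_combination w.2 * e1 + D * w.1 * e2
      exact Prod.ext (mul_left_cancel₀ hM f1) (mul_left_cancel₀ hM f2)
  rw [← hA]
  refine (Finset.card_le_card hcover).trans (Finset.card_biUnion_le.trans ?_)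
  refine (Finset.sum_le_card_nsmul Z _ _ hfib).trans ?_
  rw [smul_eq_mul]
  have hZc : Z.card ≤ dv M := by
    rw [hZ]
    exact hC3 D M hD hM
  exact Nat.mul_le_mul_right _ hZc

end P5
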