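import Pool.Agent.H731.P5.Stm

/-!
# Project P5 (helper731), task C5: all solutions of the Pell equation in `F[X]` (helper484)

Proof plan by helper731.
-/

open Polynomial
open scoped Classical

noncomputable section

namespace P5

namespace XC5

variable {F : Type} [Field F] [Fintype F] [CharP F 5]

omit [Fintype F] in
theorem two_ne : (2 : F[X]) ≠ 0 := by
  intro h
  have h5 : (5 : F[X]) = 0 := by exact_mod_cast CharP.cast_eq_zero F[X] 5
  have h1 : (1 : F[X]) = 0 := by linear_combination h5 - 2 * h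
  exact one_ne_zero h1

omit [Fintype F] [CharP F 5] in
theorem isUnit_of_natDegree {D : F[X]} (hD : D ≠ 0) (h : D.natDegree = 0) : IsUnit D := by
  rw [Polynomial.isUnit_iff_degree_eq_zero, degree_eq_natDegree hD, h]
  rfl

omit [Fintype F] [CharP F 5] in
theorem sqf_decomp (n : ℕ) : ∀ D : F[X], D ≠ 0 → D.natDegree ≤ n →
    ∃ e D₀ : F[X], D = e ^ 2 * D₀ ∧ Squarefree D₀ := by
  induction n with
  | zero =>
    intro D hD h
    exact ⟨1, D, by ring, (isUnit_of_natDegree hD (Nat.le_zero.1 h)).squarefree⟩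
  | succ n ih =>
    intro D hD h
    by_cases hs : Squarefree D
    · exact ⟨1, D, by ring, hs⟩
    · unfold Squarefree at hs
      push Not at hs
      obtain ⟨x, ⟨D', hD'⟩, hx⟩ := hs
      have hx0 : x ≠ 0 := by
        rintro rfl
        rw [zero_mul, zero_mul] at hD'
        exact hD hD'
      have hD'0 : D' ≠ 0 := by
        rintro rfl
        rw [mul_zero] at hD'
        exact hD hD'
      have hdx : x.natDegree ≠ 0 := fun h0 => hx (isUnit_of_natDegree hx0 h0)
      have hdeg : D.natDegree = x.natDegree + x.natDegree + D'.natDegree := by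
        rw [hD', natDegree_mul (mul_ne_zero hx0 hx0) hD'0, natDegree_mul hx0 hx0]
      obtain ⟨e, D₀, h1, h2⟩ := ih D' hD'0 (by omega)
      exact ⟨x * e, D₀, by rw [hD', h1]; ring, h2⟩

theorem case_sq {e M : F[X]} {n : ℕ} (he : e ≠ 0) (hM : M ≠ 0)
    (hfin : {U : F[X] | U ∣ M}.Finite) : (pell n (e * e) M).card ≤ dv M := by
  unfold dv
  rw [Set.ncard_eq_toFinset_card _ hfin]
  refine Finset.card_le_card_of_injOn (fun z => z.2 - e * z.1) ?_ ?_
  · intro z hz
    have h := (Finset.mem_filter.1 hz).2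
    rw [Set.Finite.coe_toFinset]
    exact ⟨z.2 + e * z.1, by rw [← h]; ring⟩
  · intro z hz w hw hzw
    have h1 := (Finset.mem_filter.1 hz).2
    have h2 := (Finset.mem_filter.1 hw).2
    have hzw' : z.2 - e * z.1 = w.2 - e * w.1 := hzw
    have hu : z.2 - e * z.1 ≠ 0 := by
      intro h0
      apply hM
      rw [← h1]
      linear_combination (z.2 + e * z.1) * h0
    have h3 : z.2 + e * z.1 = w.2 + e * w.1 := by
      apply mul_left_cancel₀ hu
      linear_combination h1 - h2 - (w.2 + e * w.1) * hzw'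
    have h4 : (2 : F[X]) * z.2 = 2 * w.2 := by linear_combination hzw' + h3
    have h5 : z.2 = w.2 := mul_left_cancel₀ two_ne h4
    have h6 : e * z.1 = e * w.1 := by linear_combination h3 - h5
    exact Prod.ext (mul_left_cancel₀ he h6) h5

omit [CharP F 5] in
theorem case_map (hB : S_B0 F) {e D₀ M : F[X]} {L : ℕ} (he : e ≠ 0) (hdeg : e.natDegree ≤ L) :
    (pell (L + 1) (e ^ 2 * D₀) M).card ≤ (pell (2 * L + 1) D₀ M).card := by
  refine Finset.card_le_card_of_injOn (fun z => (e * z.1, z.2)) ?_ ?_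
  · intro z hz
    obtain ⟨h0, h1⟩ := Finset.mem_filter.1 hz
    obtain ⟨hx, hy⟩ := Finset.mem_product.1 h0
    refine Finset.mem_filter.2 ⟨Finset.mem_product.2 ⟨?_, ?_⟩, ?_⟩
    · rw [hB.2.1] at hx ⊢
      have := natDegree_mul_le (p := e) (q := z.1)
      show (e * z.1).natDegree ≤ 2 * L
      omega
    · rw [hB.2.1] at hy ⊢
      show z.2.natDegree ≤ 2 * L
      omega
    · show z.2 ^ 2 - D₀ * (e * z.1) ^ 2 = M
      rw [← h1]
      ring
  · intro z _ w _ hzw
    have h := Prod.ext_iff.1 hzw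
    exact Prod.ext (mul_left_cancel₀ he h.1) h.2

omit [CharP F 5] in
theorem coprime_part (hB : S_B0 F) {D₀ M : F[X]} {n : ℕ} (hM : M ≠ 0)
    (hfin : {U : F[X] | U ∣ M}.Finite) :
    (pell n D₀ M).card ≤ ∑ U ∈ hfin.toFinset.filter (fun U => U ^ 2 ∣ M),
      ((pell n D₀ (M / U ^ 2)).filter (fun z => IsCoprime z.1 z.2)).card := by
  have hsub : pell n D₀ M ⊆ (hfin.toFinset.filter (fun U => U ^ 2 ∣ M)).biUnion (fun U =>
      ((pell n D₀ (M / U ^ 2)).filter (fun z => IsCoprime z.1 z.2)).image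
        (fun z => (U * z.1, U * z.2))) := by
    intro z hz
    obtain ⟨h0, h1⟩ := Finset.mem_filter.1 hz
    obtain ⟨hx, hy⟩ := Finset.mem_product.1 h0
    set g : F[X] := EuclideanDomain.gcd z.1 z.2 with hg
    obtain ⟨X₁, hX₁⟩ := EuclideanDomain.gcd_dvd_left z.1 z.2
    obtain ⟨Y₁, hY₁⟩ := EuclideanDomain.gcd_dvd_right z.1 z.2
    rw [← hg] at hX₁ hY₁
    have hg0 : g ≠ 0 := by
      intro h
      rw [h, zero_mul] at hX₁ hY₁
      apply hM
      rw [← h1, hX₁, hY₁]
      ring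
    have hcop : IsCoprime X₁ Y₁ := by
      have hb := EuclideanDomain.gcd_eq_gcd_ab z.1 z.2
      rw [← hg] at hb
      refine ⟨EuclideanDomain.gcdA z.1 z.2, EuclideanDomain.gcdB z.1 z.2, ?_⟩
      apply mul_left_cancel₀ hg0
      linear_combination (-1 : F[X]) * hb - EuclideanDomain.gcdA z.1 z.2 * hX₁ -
        EuclideanDomain.gcdB z.1 z.2 * hY₁
    have hsq : M = g ^ 2 * (Y₁ ^ 2 - D₀ * X₁ ^ 2) := by
      rw [← h1]
      linear_combination (z.2 + g * Y₁) * hY₁ - D₀ * (z.1 + g * X₁) * hX₁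
    have hg2 : g ^ 2 ∣ M := ⟨_, hsq⟩
    have hdiv : M / g ^ 2 = Y₁ ^ 2 - D₀ * X₁ ^ 2 := by
      conv_lhs => rw [hsq]
      exact mul_div_cancel_left₀ _ (pow_ne_zero 2 hg0)
    rw [Finset.mem_biUnion]
    refine ⟨g, Finset.mem_filter.2 ⟨?_, hg2⟩, Finset.mem_image.2 ⟨(X₁, Y₁),
      Finset.mem_filter.2 ⟨Finset.mem_filter.2 ⟨Finset.mem_product.2 ⟨?_, ?_⟩, ?_⟩, hcop⟩, ?_⟩⟩
    · rw [Set.Finite.mem_toFinset]
      exact (dvd_pow_self g two_ne_zero).trans hg2
    · rw [hB.1] at hx ⊢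
      refine lt_of_le_of_lt ?_ hx
      rw [hX₁, mul_comm]
      exact degree_le_mul_left X₁ hg0
    · rw [hB.1] at hy ⊢
      refine lt_of_le_of_lt ?_ hy
      rw [hY₁, mul_comm]
      exact degree_le_mul_left Y₁ hg0
    · exact hdiv.symm
    · exact Prod.ext hX₁.symm hY₁.symm
  refine (Finset.card_le_card hsub).trans (Finset.card_biUnion_le.trans ?_)
  exact Finset.sum_le_sum fun U _ => Finset.card_image_le

omit [Fintype F] [CharP F 5] in
theorem dv_le {M M' : F[X]} (hfin : {U : F[X] | U ∣ M}.Finite) (h : M' ∣ M) : dv M' ≤ dv M :=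
  Set.ncard_le_ncard (fun _ hU => dvd_trans hU h) hfin

end XC5

open XC5 in
theorem p_C5 (F : Type) [Field F] [Fintype F] [CharP F 5] (hB0 : S_B0 F) (hC1 : S_C1 F)
    (hC4 : S_C4 F) : S_C5 F := by
  intro ε hε
  obtain ⟨K₁, hK₁, hK⟩ := hC1.2 (ε / 4) (by positivity)
  have hq1 : 1 < qq F := by
    unfold qq
    exact_mod_cast Fintype.one_lt_card (α := F)
  have hq0 : 0 < qq F := by linarith
  have hlq : 0 < Real.log (qq F) := Real.log_pos hq1
  set K₂ : ℝ := 40 / (ε * Real.log (qq F)) + 2 with hK₂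
  refine ⟨K₁ + K₁ ^ 2 * (qq F) ^ 2 * K₂, by positivity, ?_⟩
  intro L D M hD hM hDL hML
  have hfin := hC1.1 M hM
  have hL0 : (0 : ℝ) ≤ L := Nat.cast_nonneg L
  have hdv : (dv M : ℝ) ≤ K₁ * qq F ^ (ε / 4 * (L : ℝ)) := by
    refine (hK M hM).trans (mul_le_mul_of_nonneg_left ?_ hK₁.le)
    refine Real.rpow_le_rpow_of_exponent_le hq1.le ?_
    have : (M.natDegree : ℝ) ≤ L := by exact_mod_cast hML
    exact mul_le_mul_of_nonneg_left this (by positivity)
  by_cases hsq : IsSquare D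
  · -- the first case
    obtain ⟨e, rfl⟩ := hsq
    have he : e ≠ 0 := left_ne_zero_of_mul hD
    have h1 : ((pell (L + 1) (e * e) M).card : ℝ) ≤ dv M := by
      exact_mod_cast case_sq he hM hfin
    refine h1.trans (hdv.trans ?_)
    have h2 : qq F ^ (ε / 4 * (L : ℝ)) ≤ qq F ^ (ε * (L : ℝ)) :=
      Real.rpow_le_rpow_of_exponent_le hq1.le (mul_le_mul_of_nonneg_right (by linarith) hL0)
    calc K₁ * qq F ^ (ε / 4 * (L : ℝ)) ≤ K₁ * qq F ^ (ε * (L : ℝ)) :=
          mul_le_mul_of_nonneg_left h2 hK₁.le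
      _ ≤ (K₁ + K₁ ^ 2 * (qq F) ^ 2 * K₂) * qq F ^ (ε * (L : ℝ)) := by
          refine mul_le_mul_of_nonneg_right ?_ (Real.rpow_nonneg hq0.le _)
          have : 0 ≤ K₁ ^ 2 * (qq F) ^ 2 * K₂ := by positivity
          linarith
  · -- the second case
    obtain ⟨e, D₀, hDe, hD₀⟩ := sqf_decomp D.natDegree D hD le_rfl
    have he : e ≠ 0 := by
      rintro rfl
      apply hD
      rw [hDe]
      ring
    have hD₀0 : D₀ ≠ 0 := hD₀.ne_zero
    have hns : ¬ IsSquare D₀ := by
      rintro ⟨r, hr⟩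
      exact hsq ⟨e * r, by rw [hDe, hr]; ring⟩
    have hdeg : D.natDegree = 2 * e.natDegree + D₀.natDegree := by
      rw [hDe, natDegree_mul (pow_ne_zero 2 he) hD₀0, natDegree_pow]
    have hcard : (pell (L + 1) D M).card ≤
        dv M * (dv M * (Fintype.card F ^ 2 * (20 * L + 2))) := by
      rw [hDe]
      refine (case_map hB0 he (by omega)).trans ((coprime_part hB0 hM hfin).trans ?_)
      calc ∑ U ∈ hfin.toFinset.filter (fun U => U ^ 2 ∣ M),
            ((pell (2 * L + 1) D₀ (M / U ^ 2)).filter (fun z => IsCoprime z.1 z.2)).card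
          ≤ ∑ _U ∈ hfin.toFinset.filter (fun U => U ^ 2 ∣ M),
              dv M * (Fintype.card F ^ 2 * (20 * L + 2)) := by
            refine Finset.sum_le_sum fun U hU => ?_
            obtain ⟨-, V, hV⟩ := Finset.mem_filter.1 hU
            have hU0 : U ^ 2 ≠ 0 := by
              intro h0
              rw [h0, zero_mul] at hV
              exact hM hV
            have hdivV : M / U ^ 2 = V := by
              conv_lhs => rw [hV]
              exact mul_div_cancel_left₀ _ hU0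
            have hV0 : V ≠ 0 := by
              intro h0
              rw [h0, mul_zero] at hV
              exact hM hV
            rw [hdivV]
            refine (hC4 D₀ V hD₀ hns hV0 (2 * L)).trans ?_
            refine Nat.mul_le_mul (dv_le hfin ⟨U ^ 2, by rw [hV]; ring⟩)
              (Nat.mul_le_mul le_rfl ?_)
            omega
        _ = (hfin.toFinset.filter (fun U => U ^ 2 ∣ M)).card *
              (dv M * (Fintype.card F ^ 2 * (20 * L + 2))) := by
            rw [Finset.sum_const, smul_eq_mul]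
        _ ≤ dv M * (dv M * (Fintype.card F ^ 2 * (20 * L + 2))) := by
            refine Nat.mul_le_mul ((Finset.card_filter_le _ _).trans (le_of_eq ?_)) le_rfl
            exact (Set.ncard_eq_toFinset_card _ hfin).symm
    have hcard' : ((pell (L + 1) D M).card : ℝ) ≤
        (dv M : ℝ) * ((dv M : ℝ) * ((qq F) ^ 2 * (20 * L + 2))) := by
      unfold qq
      exact_mod_cast hcard
    have hlin : 20 * (L : ℝ) + 2 ≤ K₂ * qq F ^ (ε / 2 * (L : ℝ)) := by
      have h1 : ε / 2 * (L : ℝ) * Real.log (qq F) ≤ qq F ^ (ε / 2 * (L : ℝ)) := by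
        rw [Real.rpow_def_of_pos hq0]
        have := Real.add_one_le_exp (Real.log (qq F) * (ε / 2 * (L : ℝ)))
        linarith
      have h2 : (1 : ℝ) ≤ qq F ^ (ε / 2 * (L : ℝ)) := Real.one_le_rpow hq1.le (by positivity)
      have h3 : 20 * (L : ℝ) = 40 / (ε * Real.log (qq F)) *
          (ε / 2 * (L : ℝ) * Real.log (qq F)) := by
        field_simp
        ring
      rw [hK₂, add_mul, h3]
      exact add_le_add (mul_le_mul_of_nonneg_left h1 (by positivity)) (by linarith)
    have hA : (0 : ℝ) ≤ dv M := Nat.cast_nonneg _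
    have hP : (0 : ℝ) ≤ qq F ^ (ε / 4 * (L : ℝ)) := Real.rpow_nonneg hq0.le _
    have hK₂0 : 0 ≤ K₂ := by positivity
    calc ((pell (L + 1) D M).card : ℝ)
        ≤ (dv M : ℝ) * ((dv M : ℝ) * ((qq F) ^ 2 * (20 * L + 2))) := hcard'
      _ ≤ (K₁ * qq F ^ (ε / 4 * (L : ℝ))) * ((K₁ * qq F ^ (ε / 4 * (L : ℝ))) *
            ((qq F) ^ 2 * (K₂ * qq F ^ (ε / 2 * (L : ℝ))))) := by
          gcongr
      _ = K₁ ^ 2 * (qq F) ^ 2 * K₂ * (qq F ^ (ε / 4 * (L : ℝ)) * qq F ^ (ε / 4 * (L : ℝ)) *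
            qq F ^ (ε / 2 * (L : ℝ))) := by ring
      _ = K₁ ^ 2 * (qq F) ^ 2 * K₂ * qq F ^ (ε * (L : ℝ)) := by
          rw [← Real.rpow_add hq0, ← Real.rpow_add hq0]
          congr 2
          ring
      _ ≤ (K₁ + K₁ ^ 2 * (qq F) ^ 2 * K₂) * qq F ^ (ε * (L : ℝ)) := by
          refine mul_le_mul_of_nonneg_right ?_ (Real.rpow_nonneg hq0.le _)
          linarith

end P5
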