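import Pool.Agent.H731.P5.Stm

/-!
# P5, C6: points on conics over `F[X]`
-/

open Polynomial
open scoped Classical

noncomputable section

namespace P5

namespace XC6

variable {F : Type} [Field F]

lemma two_ne [CharP F 5] : (2 : F[X]) ≠ 0 := by
  intro h
  have h1 : (C (2 : F) : F[X]) = 0 := by rw [← h]; rfl
  rw [C_eq_zero] at h1
  have h2 : ((2 : ℕ) : F) = 0 := by exact_mod_cast h1
  rw [CharP.cast_eq_zero_iff F 5] at h2
  norm_num at h2

lemma dm {p q : F[X]} {m n r : ℕ} (hp : p.natDegree ≤ m) (hq : q.natDegree ≤ n) (h : m + n ≤ r) :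
    (p * q).natDegree ≤ r := (natDegree_mul_le_of_le hp hq).trans h

lemma da {p q : F[X]} {r : ℕ} (hp : p.natDegree ≤ r) (hq : q.natDegree ≤ r) :
    (p + q).natDegree ≤ r := natDegree_add_le_of_degree_le hp hq

lemma ds {p q : F[X]} {r : ℕ} (hp : p.natDegree ≤ r) (hq : q.natDegree ≤ r) :
    (p - q).natDegree ≤ r := by
  rw [sub_eq_add_neg]
  exact da hp (by rwa [natDegree_neg])

lemma dp2 {p : F[X]} {m r : ℕ} (hp : p.natDegree ≤ m) (h : 2 * m ≤ r) :
    (p ^ 2).natDegree ≤ r := by
  rw [pow_two]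
  exact dm hp hp (by omega)

lemma d2 : (2 : F[X]).natDegree ≤ 0 := by simp

lemma d4 : (4 : F[X]).natDegree ≤ 0 := by simp

lemma caseA [Fintype F] (hB0 : S_B0 F) {L : ℕ} {a b c d e k : F[X]} (ha : a.natDegree ≤ L)
    (hb : b.natDegree ≤ L) (hc : c.natDegree ≤ L) (hd : d.natDegree ≤ L) (he : e.natDegree ≤ L)
    (ha0 : a ≠ 0) (hD : a * c - b ^ 2 ≠ 0) :
    (conic (L + 1) a b c d e k).card ≤
      (pell (4 * L + 1) (b ^ 2 - a * c) (-(a * dsc a b c d e k))).card := by
  obtain ⟨-, hP, -, -⟩ := hB0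
  have hD' : b ^ 2 - a * c ≠ 0 := by
    intro h
    apply hD
    linear_combination -h
  apply Finset.card_le_card_of_injOn
    (fun z => (a * z.1 + b * z.2 + d, (b ^ 2 - a * c) * z.2 + (b * d - a * e)))
  · intro z hz
    have hz' := Finset.mem_filter.mp (Finset.mem_coe.mp hz)
    obtain ⟨hz1, hz2⟩ := hz'
    rw [Finset.mem_product] at hz1
    obtain ⟨hx, hy⟩ := hz1
    rw [hP] at hx hy
    refine Finset.mem_coe.mpr (Finset.mem_filter.mpr ⟨Finset.mem_product.mpr ⟨?_, ?_⟩, ?_⟩)
    · rw [hP]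
      refine da (da (dm ha hx (by omega)) (dm hb hy (by omega))) (by omega)
    · rw [hP]
      refine da (dm (ds (dp2 hb le_rfl) (dm ha hc (by omega))) hy (by omega))
        (ds (dm hb hd (by omega)) (dm ha he (by omega)))
    · dsimp only
      unfold dsc
      linear_combination (-((b ^ 2 - a * c) * a)) * hz2
  · intro z _ w _ h
    simp only [Prod.mk.injEq] at h
    obtain ⟨h1, h2⟩ := h
    have h3 : (b ^ 2 - a * c) * (z.2 - w.2) = 0 := by linear_combination h2
    have h4 : z.2 - w.2 = 0 := (mul_eq_zero.mp h3).resolve_left hD'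
    have h5 : a * (z.1 - w.1) = 0 := by linear_combination h1 - b * h4
    have h6 : z.1 - w.1 = 0 := (mul_eq_zero.mp h5).resolve_left ha0
    exact Prod.ext (sub_eq_zero.mp h6) (sub_eq_zero.mp h4)

lemma swap [Fintype F] {n : ℕ} {a b c d e k : F[X]} :
    (conic n a b c d e k).card ≤ (conic n c b a e d k).card := by
  apply Finset.card_le_card_of_injOn Prod.swap
  · intro z hz
    have hz' := Finset.mem_filter.mp (Finset.mem_coe.mp hz)
    obtain ⟨hz1, hz2⟩ := hz'
    rw [Finset.mem_product] at hz1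
    refine Finset.mem_coe.mpr (Finset.mem_filter.mpr ⟨Finset.mem_product.mpr ⟨hz1.2, hz1.1⟩, ?_⟩)
    simp only [Prod.fst_swap, Prod.snd_swap]
    linear_combination hz2
  · intro z _ w _ h
    exact Prod.swap_injective h

lemma caseC [Fintype F] [CharP F 5] {n : ℕ} {b d e k : F[X]} (hb : b ≠ 0)
    (hR : 4 * d * e - 2 * b * k ≠ 0) (hfin : {U : F[X] | U ∣ 4 * d * e - 2 * b * k}.Finite) :
    (conic n 0 b 0 d e k).card ≤ dv (4 * d * e - 2 * b * k) := by
  have h2 : (2 : F[X]) ≠ 0 := two_ne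
  have hkey : ∀ z ∈ conic n 0 b 0 d e k,
      (2 * b * z.1 + 2 * e) * (2 * b * z.2 + 2 * d) = 4 * d * e - 2 * b * k := by
    intro z hz
    have hz' := (Finset.mem_filter.mp hz).2
    linear_combination (2 * b) * hz'
  unfold dv
  rw [← Set.ncard_coe_finset]
  refine Set.ncard_le_ncard_of_injOn (fun z => 2 * b * z.1 + 2 * e) ?_ ?_ hfin
  · intro z hz
    exact ⟨_, (hkey z (Finset.mem_coe.mp hz)).symm⟩
  · intro z hz w hw h
    simp only at h
    have k1 := hkey z (Finset.mem_coe.mp hz)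
    have k2 := hkey w (Finset.mem_coe.mp hw)
    have h3 : (2 * b) * (z.1 - w.1) = 0 := by linear_combination h
    have h4 : z.1 - w.1 = 0 := (mul_eq_zero.mp h3).resolve_left (mul_ne_zero h2 hb)
    have h5 : 2 * b * z.1 + 2 * e ≠ 0 := by
      intro h0
      apply hR
      rw [← k1, h0, zero_mul]
    have h6 : (2 * b * z.1 + 2 * e) * ((2 * b) * (z.2 - w.2)) = 0 := by
      rw [← h] at k2
      linear_combination k1 - k2
    have h7 := (mul_eq_zero.mp h6).resolve_left h5
    have h8 : z.2 - w.2 = 0 := (mul_eq_zero.mp h7).resolve_left (mul_ne_zero h2 hb)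
    exact Prod.ext (sub_eq_zero.mp h4) (sub_eq_zero.mp h8)

end XC6

/-- **C6**. -/
theorem p_C6 (F : Type) [Field F] [Fintype F] [CharP F 5] (hB0 : S_B0 F) (hC1 : S_C1 F)
    (hC5 : S_C5 F) : S_C6 F := by
  intro ε hε
  obtain ⟨K1, hK1, h1⟩ := hC5 (ε / 4) (by positivity)
  obtain ⟨K2, hK2, h2⟩ := hC1.2 (ε / 2) (by positivity)
  have hq : 1 ≤ qq F := by
    unfold qq
    exact_mod_cast Fintype.card_pos
  -- the case `a ≠ 0`
  have main : ∀ L : ℕ, ∀ a b c d e k : F[X], a.natDegree ≤ L → b.natDegree ≤ L → c.natDegree ≤ L →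
      d.natDegree ≤ L → e.natDegree ≤ L → k.natDegree ≤ L → a * c - b ^ 2 ≠ 0 →
      dsc a b c d e k ≠ 0 → a ≠ 0 →
      ((conic (L + 1) a b c d e k).card : ℝ) ≤ K1 * qq F ^ (ε * (L : ℝ)) := by
    intro L a b c d e k ha hb hc hd he hk hD hdsc ha0
    have hA := XC6.caseA (k := k) hB0 ha hb hc hd he ha0 hD
    have hB := h1 (4 * L) (b ^ 2 - a * c) (-(a * dsc a b c d e k))
      (by
        intro h
        apply hD
        linear_combination -h)
      (neg_ne_zero.mpr (mul_ne_zero ha0 hdsc))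
      (XC6.ds (XC6.dp2 hb (by omega)) (XC6.dm ha hc (by omega)))
      (by
        rw [natDegree_neg]
        refine XC6.dm (n := 3 * L) ha ?_ (by omega)
        unfold dsc
        refine XC6.ds (XC6.dm (XC6.ds (XC6.dm ha hc le_rfl) (XC6.dp2 hb (by omega))) hk (by omega))
          (XC6.da (XC6.ds (XC6.dm ha (XC6.dp2 he le_rfl) (by omega))
            (XC6.dm (XC6.dm (XC6.dm XC6.d2 hb le_rfl) hd le_rfl) he (by omega)))
            (XC6.dm hc (XC6.dp2 hd le_rfl) (by omega))))
    have hcast : (((conic (L + 1) a b c d e k).card : ℕ) : ℝ) ≤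
        ((pell (4 * L + 1) (b ^ 2 - a * c) (-(a * dsc a b c d e k))).card : ℝ) := by
      exact_mod_cast hA
    refine hcast.trans (hB.trans (le_of_eq ?_))
    congr 2
    push_cast
    ring
  refine ⟨K1 + K2, by positivity, ?_⟩
  intro L a b c d e k ha hb hc hd he hk hD hdsc
  have hqp : 0 ≤ qq F ^ (ε * (L : ℝ)) := Real.rpow_nonneg (by linarith) _
  have hsum1 : K1 * qq F ^ (ε * (L : ℝ)) ≤ (K1 + K2) * qq F ^ (ε * (L : ℝ)) :=
    mul_le_mul_of_nonneg_right (by linarith) hqp
  have hsum2 : K2 * qq F ^ (ε * (L : ℝ)) ≤ (K1 + K2) * qq F ^ (ε * (L : ℝ)) :=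
    mul_le_mul_of_nonneg_right (by linarith) hqp
  by_cases ha0 : a = 0
  · by_cases hc0 : c = 0
    · subst ha0
      subst hc0
      have hb0 : b ≠ 0 := by
        intro h
        apply hD
        rw [h]
        ring
      have hR : 4 * d * e - 2 * b * k ≠ 0 := by
        intro h
        apply hdsc
        have h3 : (2 : F[X]) * (2 * d * e - b * k) = 0 := by linear_combination h
        have h4 := (mul_eq_zero.mp h3).resolve_left XC6.two_ne
        unfold dsc
        linear_combination b * h4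
      have hA := XC6.caseC (n := L + 1) hb0 hR (hC1.1 _ hR)
      have hB := h2 _ hR
      have hdeg : (4 * d * e - 2 * b * k).natDegree ≤ 2 * L :=
        XC6.ds (XC6.dm (XC6.dm XC6.d4 hd le_rfl) he (by omega))
          (XC6.dm (XC6.dm XC6.d2 hb le_rfl) hk (by omega))
      have hcast : (((conic (L + 1) 0 b 0 d e k).card : ℕ) : ℝ) ≤
          (dv (4 * d * e - 2 * b * k) : ℝ) := by
        exact_mod_cast hA
      refine hcast.trans (hB.trans (le_trans ?_ hsum2))
      apply mul_le_mul_of_nonneg_left _ hK2.le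
      apply Real.rpow_le_rpow_of_exponent_le hq
      have h5 : ((4 * d * e - 2 * b * k).natDegree : ℝ) ≤ 2 * (L : ℝ) := by
        exact_mod_cast hdeg
      calc ε / 2 * ((4 * d * e - 2 * b * k).natDegree : ℝ) ≤ ε / 2 * (2 * (L : ℝ)) :=
            mul_le_mul_of_nonneg_left h5 (by positivity)
        _ = ε * (L : ℝ) := by ring
    · have hsw : ((conic (L + 1) a b c d e k).card : ℝ) ≤
          ((conic (L + 1) c b a e d k).card : ℝ) := by
        exact_mod_cast XC6.swap
      refine hsw.trans (le_trans (main L c b a e d k hc hb ha he hd hk ?_ ?_ hc0) hsum1)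
      · intro h
        apply hD
        linear_combination h
      · intro h
        apply hdsc
        rw [← h]
        unfold dsc
        ring
  · exact (main L a b c d e k ha hb hc hd he hk hD hdsc ha0).trans hsum1

end P5
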