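import Pool.Agent.H731.P5.Stm

/-!
# C7 : the trivial bound for the points of a conic
-/

set_option autoImplicit false

open Polynomial
open scoped Classical

noncomputable section

namespace P5

namespace XC7

variable {F : Type} [Field F]

theorem two_ne [CharP F 5] : (2 : F[X]) ≠ 0 := by
  have h : (2 : F) ≠ 0 := by
    intro h0
    have h1 : ((2 : ℕ) : F) = 0 := by exact_mod_cast h0
    rw [CharP.cast_eq_zero_iff F 5 2] at h1
    omega
  intro h0
  apply h
  have h1 : C (2 : F) = (0 : F[X]) := by
    rw [← h0]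
    exact map_ofNat C 2
  exact C_eq_zero.1 h1

/-- a quadratic equation has at most two solutions -/
theorem quad (s : Finset F[X]) (a u w : F[X]) (ha : a ≠ 0)
    (h : ∀ x ∈ s, a * x ^ 2 + u * x + w = 0) : s.card ≤ 2 := by
  by_contra hc
  rw [not_le, Finset.two_lt_card] at hc
  obtain ⟨x, hx, y, hy, z, hz, hxy, hxz, hyz⟩ := hc
  have e1 : (x - y) * (a * (x + y) + u) = 0 := by
    linear_combination h x hx - h y hy
  have e2 : (x - z) * (a * (x + z) + u) = 0 := by
    linear_combination h x hx - h z hz
  have e3 := (mul_eq_zero.1 e1).resolve_left (sub_ne_zero.2 hxy)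
  have e4 := (mul_eq_zero.1 e2).resolve_left (sub_ne_zero.2 hxz)
  have e5 : a * (y - z) = 0 := by linear_combination e3 - e4
  rcases mul_eq_zero.1 e5 with h5 | h5
  · exact ha h5
  · exact hyz (sub_eq_zero.1 h5)

end XC7

open XC7 in
theorem p_C7 (F : Type) [Field F] [Fintype F] [CharP F 5] (hB0 : S_B0 F) : S_C7 F := by
  intro n a b c d e k hD
  obtain ⟨-, -, hcard, -⟩ := hB0
  rw [← hcard n]
  have hmem : ∀ z ∈ conic n a b c d e k, z.1 ∈ POL F n ∧ z.2 ∈ POL F n ∧
      a * z.1 ^ 2 + 2 * b * z.1 * z.2 + c * z.2 ^ 2 + 2 * d * z.1 + 2 * e * z.2 + k = 0 := by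
    intro z hz
    unfold conic at hz
    rw [Finset.mem_filter, Finset.mem_product] at hz
    exact ⟨hz.1.1, hz.1.2, hz.2⟩
  by_cases ha : a = 0
  swap
  · refine Finset.card_le_mul_card_image_of_maps_to (f := Prod.snd) (fun z hz => (hmem z hz).2.1) 2
      fun y _ => ?_
    have h1 : (((conic n a b c d e k).filter fun z => z.2 = y).image Prod.fst).card ≤ 2 := by
      refine quad _ a (2 * b * y + 2 * d) (c * y ^ 2 + 2 * e * y + k) ha ?_
      intro x hx
      obtain ⟨z, hz, rfl⟩ := Finset.mem_image.1 hx
      rw [Finset.mem_filter] at hz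
      have h2 := (hmem z hz.1).2.2
      rw [hz.2] at h2
      linear_combination h2
    rwa [Finset.card_image_of_injOn] at h1
    intro z hz w hw hzw
    rw [Finset.mem_coe, Finset.mem_filter] at hz hw
    exact Prod.ext hzw (hz.2.trans hw.2.symm)
  by_cases hc : c = 0
  swap
  · refine Finset.card_le_mul_card_image_of_maps_to (f := Prod.fst) (fun z hz => (hmem z hz).1) 2
      fun x _ => ?_
    have h1 : (((conic n a b c d e k).filter fun z => z.1 = x).image Prod.snd).card ≤ 2 := by
      refine quad _ c (2 * b * x + 2 * e) (a * x ^ 2 + 2 * d * x + k) hc ?_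
      intro y hy
      obtain ⟨z, hz, rfl⟩ := Finset.mem_image.1 hy
      rw [Finset.mem_filter] at hz
      have h2 := (hmem z hz.1).2.2
      rw [hz.2] at h2
      linear_combination h2
    rwa [Finset.card_image_of_injOn] at h1
    intro z hz w hw hzw
    rw [Finset.mem_coe, Finset.mem_filter] at hz hw
    exact Prod.ext (hz.2.trans hw.2.symm) hzw
  have hb : b ≠ 0 := by
    rintro rfl
    apply hD
    rw [ha]
    ring
  have h2 := two_ne (F := F)
  rw [← Finset.card_filter_add_card_filter_not (s := conic n a b c d e k)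
    (fun z => b * z.1 + e = 0), two_mul]
  refine add_le_add ?_ ?_
  · refine Finset.card_le_card_of_injOn Prod.snd ?_ ?_
    · intro z hz
      rw [Finset.mem_coe, Finset.mem_filter] at hz
      exact (hmem z hz.1).2.1
    · intro z hz w hw hzw
      rw [Finset.mem_coe, Finset.mem_filter] at hz hw
      refine Prod.ext ?_ hzw
      have h3 : b * (z.1 - w.1) = 0 := by linear_combination hz.2 - hw.2
      exact sub_eq_zero.1 ((mul_eq_zero.1 h3).resolve_left hb)
  · refine Finset.card_le_card_of_injOn Prod.fst ?_ ?_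
    · intro z hz
      rw [Finset.mem_coe, Finset.mem_filter] at hz
      exact (hmem z hz.1).1
    · intro z hz w hw hzw
      rw [Finset.mem_coe, Finset.mem_filter] at hz hw
      refine Prod.ext hzw ?_
      have e1 := (hmem z hz.1).2.2
      have e2 := (hmem w hw.1).2.2
      have hzw' : z.1 = w.1 := hzw
      rw [ha, hc] at e1 e2
      rw [← hzw'] at e2
      have h3 : 2 * ((b * z.1 + e) * (z.2 - w.2)) = 0 := by linear_combination e1 - e2
      have h4 := (mul_eq_zero.1 h3).resolve_left h2
      exact sub_eq_zero.1 ((mul_eq_zero.1 h4).resolve_left hz.2)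

end P5
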