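import Pool.Agent.H731.P5.Stm

/-!
# C8: zeros of a quadratic polynomial in three variables
-/

open Polynomial
open scoped Classical

noncomputable section

namespace P5

namespace XC8

/-- a quadratic polynomial in one variable with nonzero constant term has at most two zeros -/
theorem two {R : Type} [CommRing R] [IsDomain R] (S : Finset R) (E : R → Prop) [DecidablePred E]
    (p q r : R) (hp : p ≠ 0) (hE : ∀ x, E x → p + q * x + r * x ^ 2 = 0) :
    (S.filter E).card ≤ 2 := by
  have hc : (C p + C q * X + C r * X ^ 2 : R[X]).coeff 0 = p := by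
    simp
  have hne : (C p + C q * X + C r * X ^ 2 : R[X]) ≠ 0 := by
    intro h0
    rw [h0, coeff_zero] at hc
    exact hp hc.symm
  have hdeg : (C p + C q * X + C r * X ^ 2 : R[X]).natDegree ≤ 2 := by
    compute_degree
  have hsub : S.filter E ⊆ (C p + C q * X + C r * X ^ 2 : R[X]).roots.toFinset := by
    intro x hx
    rw [Finset.mem_filter] at hx
    rw [Multiset.mem_toFinset, mem_roots hne, IsRoot.def]
    simp only [eval_add, eval_mul, eval_C, eval_X, eval_pow]
    exact hE x hx.2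
  exact (Finset.card_le_card hsub).trans
    ((Multiset.toFinset_card_le _).trans ((card_roots' _).trans hdeg))

/-- counting in the fibres -/
theorem fib {α β : Type} (S : Finset β) (T : Finset α) (P : β × α → Prop) [DecidablePred P]
    (Q : α → Prop) [DecidablePred Q]
    (h : ∀ t ∈ T, ¬ Q t → (S.filter fun x => P (x, t)).card ≤ 2) :
    ((S ×ˢ T).filter P).card ≤ 2 * T.card + (T.filter Q).card * S.card := by
  rw [Finset.card_filter, Finset.sum_product_right]
  have h1 : ∀ t ∈ T, (∑ x ∈ S, if P (x, t) then 1 else 0) ≤ 2 + (if Q t then 1 else 0) * S.card := by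
    intro t ht
    rw [← Finset.card_filter]
    by_cases hQ : Q t
    · rw [if_pos hQ, one_mul]
      exact (Finset.card_filter_le _ _).trans (Nat.le_add_left _ _)
    · rw [if_neg hQ, zero_mul]
      exact h t ht hQ
  refine (Finset.sum_le_sum h1).trans (le_of_eq ?_)
  rw [Finset.sum_add_distrib, Finset.sum_const, smul_eq_mul, ← Finset.sum_mul,
    ← Finset.card_filter, mul_comm]

end XC8

open XC8 in
theorem p_C8 (F : Type) [Field F] [Fintype F] [CharP F 5] (hB0 : S_B0 F) : S_C8 F := by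
  intro n c hc
  have hcard : (POL F n).card = Fintype.card F ^ n := hB0.2.2.1 n
  have h1 := fib (POL F n) (POL F n ×ˢ POL F n) (fun w =>
      c 0 + c 1 * w.1 + c 2 * w.2.1 + c 3 * w.2.2 + c 4 * w.1 ^ 2 + c 5 * w.2.1 ^ 2 +
        c 6 * w.2.2 ^ 2 + c 7 * w.1 * w.2.1 + c 8 * w.1 * w.2.2 + c 9 * w.2.1 * w.2.2 = 0)
    (fun t => c 0 + c 2 * t.1 + c 3 * t.2 + c 5 * t.1 ^ 2 + c 6 * t.2 ^ 2 + c 9 * t.1 * t.2 = 0)
    (fun t _ ht => two _ _ (c 0 + c 2 * t.1 + c 3 * t.2 + c 5 * t.1 ^ 2 + c 6 * t.2 ^ 2 +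
      c 9 * t.1 * t.2) (c 1 + c 7 * t.1 + c 8 * t.2) (c 4) ht (fun x hx => by
        rw [← hx]
        ring))
  have h2 := fib (POL F n) (POL F n) (fun t =>
      c 0 + c 2 * t.1 + c 3 * t.2 + c 5 * t.1 ^ 2 + c 6 * t.2 ^ 2 + c 9 * t.1 * t.2 = 0)
    (fun z => c 0 + c 3 * z + c 6 * z ^ 2 = 0)
    (fun t _ ht => two _ _ (c 0 + c 3 * t + c 6 * t ^ 2) (c 2 + c 9 * t) (c 5) ht (fun x hx => by
        rw [← hx]
        ring))
  have h3 : ((POL F n).filter (fun z => c 0 + c 3 * z + c 6 * z ^ 2 = 0)).card ≤ 2 :=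
    two _ _ (c 0) (c 3) (c 6) hc (fun x hx => hx)
  rw [Finset.card_product, hcard] at h1
  rw [hcard] at h2
  have h4 := h2.trans (Nat.add_le_add_left (Nat.mul_le_mul_right (Fintype.card F ^ n) h3) _)
  refine (h1.trans (Nat.add_le_add_left (Nat.mul_le_mul_right (Fintype.card F ^ n) h4) _)).trans
    (le_of_eq ?_)
  rw [mul_comm 2 n, pow_mul]
  ring

end P5
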