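import Pool.Agent.H731.P5.Stm

/-!
# C9: quadratic forms in five variables over `F[X]` (helper344 for helper731)
-/

open Polynomial
open scoped Classical

noncomputable section

namespace P5

namespace XC9

variable {F : Type} [Field F]

/-- the coefficient `d` (or `e`): `g i 2 w₁ + g i 3 w₂ + g i 4 w₃` -/
def lin (g : Fin 5 → Fin 5 → F[X]) (i : Fin 5) (w : F[X] × F[X] × F[X]) : F[X] :=
  g i 2 * w.1 + g i 3 * w.2.1 + g i 4 * w.2.2

/-- the coefficient `k` -/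
def qua (g : Fin 5 → Fin 5 → F[X]) (m : F[X]) (w : F[X] × F[X] × F[X]) : F[X] :=
  g 2 2 * w.1 ^ 2 + g 3 3 * w.2.1 ^ 2 + g 4 4 * w.2.2 ^ 2 + 2 * g 2 3 * w.1 * w.2.1 +
    2 * g 2 4 * w.1 * w.2.2 + 2 * g 3 4 * w.2.1 * w.2.2 - m

/-- the coefficients of the discriminant as a polynomial in `w` -/
def cf (g : Fin 5 → Fin 5 → F[X]) (m : F[X]) : Fin 10 → F[X] :=
  ![-(g 0 0 * g 1 1 - g 0 1 ^ 2) * m, 0, 0, 0,
    (g 0 0 * g 1 1 - g 0 1 ^ 2) * g 2 2 -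
      (g 0 0 * g 1 2 ^ 2 - 2 * g 0 1 * g 0 2 * g 1 2 + g 1 1 * g 0 2 ^ 2),
    (g 0 0 * g 1 1 - g 0 1 ^ 2) * g 3 3 -
      (g 0 0 * g 1 3 ^ 2 - 2 * g 0 1 * g 0 3 * g 1 3 + g 1 1 * g 0 3 ^ 2),
    (g 0 0 * g 1 1 - g 0 1 ^ 2) * g 4 4 -
      (g 0 0 * g 1 4 ^ 2 - 2 * g 0 1 * g 0 4 * g 1 4 + g 1 1 * g 0 4 ^ 2),
    (g 0 0 * g 1 1 - g 0 1 ^ 2) * (2 * g 2 3) -
      (2 * g 0 0 * g 1 2 * g 1 3 - 2 * g 0 1 * (g 0 2 * g 1 3 + g 0 3 * g 1 2) +
        2 * g 1 1 * g 0 2 * g 0 3),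
    (g 0 0 * g 1 1 - g 0 1 ^ 2) * (2 * g 2 4) -
      (2 * g 0 0 * g 1 2 * g 1 4 - 2 * g 0 1 * (g 0 2 * g 1 4 + g 0 4 * g 1 2) +
        2 * g 1 1 * g 0 2 * g 0 4),
    (g 0 0 * g 1 1 - g 0 1 ^ 2) * (2 * g 3 4) -
      (2 * g 0 0 * g 1 3 * g 1 4 - 2 * g 0 1 * (g 0 3 * g 1 4 + g 0 4 * g 1 3) +
        2 * g 1 1 * g 0 3 * g 0 4)]

lemma dsc_eq (g : Fin 5 → Fin 5 → F[X]) (m : F[X]) (w : F[X] × F[X] × F[X]) :
    dsc (g 0 0) (g 0 1) (g 1 1) (lin g 0 w) (lin g 1 w) (qua g m w) =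
      cf g m 0 + cf g m 1 * w.1 + cf g m 2 * w.2.1 + cf g m 3 * w.2.2 + cf g m 4 * w.1 ^ 2 +
        cf g m 5 * w.2.1 ^ 2 + cf g m 6 * w.2.2 ^ 2 + cf g m 7 * w.1 * w.2.1 +
        cf g m 8 * w.1 * w.2.2 + cf g m 9 * w.2.1 * w.2.2 := by
  have e0 : cf g m 0 = -(g 0 0 * g 1 1 - g 0 1 ^ 2) * m := rfl
  have e1 : cf g m 1 = 0 := rfl
  have e2 : cf g m 2 = 0 := rfl
  have e3 : cf g m 3 = 0 := rfl
  have e4 : cf g m 4 = (g 0 0 * g 1 1 - g 0 1 ^ 2) * g 2 2 -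
      (g 0 0 * g 1 2 ^ 2 - 2 * g 0 1 * g 0 2 * g 1 2 + g 1 1 * g 0 2 ^ 2) := rfl
  have e5 : cf g m 5 = (g 0 0 * g 1 1 - g 0 1 ^ 2) * g 3 3 -
      (g 0 0 * g 1 3 ^ 2 - 2 * g 0 1 * g 0 3 * g 1 3 + g 1 1 * g 0 3 ^ 2) := rfl
  have e6 : cf g m 6 = (g 0 0 * g 1 1 - g 0 1 ^ 2) * g 4 4 -
      (g 0 0 * g 1 4 ^ 2 - 2 * g 0 1 * g 0 4 * g 1 4 + g 1 1 * g 0 4 ^ 2) := rfl
  have e7 : cf g m 7 = (g 0 0 * g 1 1 - g 0 1 ^ 2) * (2 * g 2 3) -
      (2 * g 0 0 * g 1 2 * g 1 3 - 2 * g 0 1 * (g 0 2 * g 1 3 + g 0 3 * g 1 2) +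
        2 * g 1 1 * g 0 2 * g 0 3) := rfl
  have e8 : cf g m 8 = (g 0 0 * g 1 1 - g 0 1 ^ 2) * (2 * g 2 4) -
      (2 * g 0 0 * g 1 2 * g 1 4 - 2 * g 0 1 * (g 0 2 * g 1 4 + g 0 4 * g 1 2) +
        2 * g 1 1 * g 0 2 * g 0 4) := rfl
  have e9 : cf g m 9 = (g 0 0 * g 1 1 - g 0 1 ^ 2) * (2 * g 3 4) -
      (2 * g 0 0 * g 1 3 * g 1 4 - 2 * g 0 1 * (g 0 3 * g 1 4 + g 0 4 * g 1 3) +
        2 * g 1 1 * g 0 3 * g 0 4) := rfl
  rw [e0, e1, e2, e3, e4, e5, e6, e7, e8, e9]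
  unfold dsc lin qua
  ring

lemma deg_mul {L M N : ℕ} {p r : F[X]} (hp : p.natDegree ≤ L) (hr : r.natDegree ≤ M)
    (h : L + M ≤ N) : (p * r).natDegree ≤ N :=
  natDegree_mul_le.trans ((add_le_add hp hr).trans h)

lemma deg_add {N : ℕ} {p r : F[X]} (hp : p.natDegree ≤ N) (hr : r.natDegree ≤ N) :
    (p + r).natDegree ≤ N := natDegree_add_le_of_degree_le hp hr

lemma lin_deg {L : ℕ} {g : Fin 5 → Fin 5 → F[X]} (hg : ∀ i j, (g i j).natDegree ≤ L) (i : Fin 5)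
    {w : F[X] × F[X] × F[X]} (h1 : w.1.natDegree ≤ L) (h2 : w.2.1.natDegree ≤ L)
    (h3 : w.2.2.natDegree ≤ L) : (lin g i w).natDegree ≤ 3 * L := by
  unfold lin
  exact deg_add (deg_add (deg_mul (hg _ _) h1 (by omega)) (deg_mul (hg _ _) h2 (by omega)))
    (deg_mul (hg _ _) h3 (by omega))

lemma two_deg {N : ℕ} {p : F[X]} (hp : p.natDegree ≤ N) : (2 * p).natDegree ≤ N := by
  have h : (2 : F[X]) * p = p + p := by ring
  rw [h]
  exact deg_add hp hp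

lemma qua_deg {L : ℕ} {g : Fin 5 → Fin 5 → F[X]} {m : F[X]} (hg : ∀ i j, (g i j).natDegree ≤ L)
    (hm : m.natDegree ≤ L) {w : F[X] × F[X] × F[X]} (h1 : w.1.natDegree ≤ L)
    (h2 : w.2.1.natDegree ≤ L) (h3 : w.2.2.natDegree ≤ L) : (qua g m w).natDegree ≤ 3 * L := by
  have key : ∀ (i j : Fin 5) (p r : F[X]), p.natDegree ≤ L → r.natDegree ≤ L →
      (g i j * p * r).natDegree ≤ 3 * L := fun i j p r hp hr =>
    deg_mul (L := 2 * L) (M := L) (deg_mul (hg i j) hp (by omega)) hr (by omega)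
  have e : qua g m w = g 2 2 * w.1 * w.1 + g 3 3 * w.2.1 * w.2.1 + g 4 4 * w.2.2 * w.2.2 +
      2 * (g 2 3 * w.1 * w.2.1) + 2 * (g 2 4 * w.1 * w.2.2) + 2 * (g 3 4 * w.2.1 * w.2.2) +
      (-m) := by
    unfold qua
    ring
  rw [e]
  refine deg_add (deg_add (deg_add (deg_add (deg_add (deg_add ?_ ?_) ?_) ?_) ?_) ?_) ?_
  · exact key _ _ _ _ h1 h1
  · exact key _ _ _ _ h2 h2
  · exact key _ _ _ _ h3 h3
  · exact two_deg (key _ _ _ _ h1 h2)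
  · exact two_deg (key _ _ _ _ h1 h3)
  · exact two_deg (key _ _ _ _ h2 h3)
  · rw [natDegree_neg]
    omega

end XC9

open XC9

theorem p_C9 (F : Type) [Field F] [Fintype F] [CharP F 5] (hB0 : S_B0 F) (hC6 : S_C6 F)
    (hC7 : S_C7 F) (hC8 : S_C8 F) : S_C9 F := by
  intro ε hε
  obtain ⟨K, hK, h6⟩ := hC6 (ε / 3) (by positivity)
  obtain ⟨b1, b2, b3, b4⟩ := hB0
  have hQ1 : (1 : ℝ) ≤ qq F := by
    unfold qq
    exact_mod_cast Fintype.card_pos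
  refine ⟨12 + K, by positivity, ?_⟩
  intro L n g m hn hg hsym hm0 hmL hdet
  set W : Finset (F[X] × F[X] × F[X]) := (POL F n) ×ˢ ((POL F n) ×ˢ (POL F n)) with hW
  set S : Finset (Fin 5 → F[X]) := (Fintype.piFinset (fun _ : Fin 5 => POL F n)).filter
    (fun x => ∑ i, ∑ j, g i j * x i * x j = m) with hS
  obtain ⟨cn, hcn⟩ : ∃ cn : F[X] × F[X] × F[X] → Finset (F[X] × F[X]), ∀ w, cn w =
      conic n (g 0 0) (g 0 1) (g 1 1) (lin g 0 w) (lin g 1 w) (qua g m w) := ⟨_, fun _ => rfl⟩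
  have hmaps : Set.MapsTo (fun x : Fin 5 → F[X] => (x 2, x 3, x 4)) S W := by
    intro x hx
    rw [hS, Finset.mem_coe, Finset.mem_filter, Fintype.mem_piFinset] at hx
    rw [hW, Finset.mem_coe, Finset.mem_product, Finset.mem_product]
    exact ⟨hx.1 2, hx.1 3, hx.1 4⟩
  have hfib : ∀ w ∈ W, (S.filter (fun x => (x 2, x 3, x 4) = w)).card ≤ (cn w).card := by
    intro w hw
    apply Finset.card_le_card_of_injOn (fun x => (x 0, x 1))
    · intro x hx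
      rw [Finset.mem_coe, Finset.mem_filter, hS, Finset.mem_filter, Fintype.mem_piFinset] at hx
      obtain ⟨⟨hx1, hx2⟩, hx3⟩ := hx
      rw [Finset.mem_coe, hcn, conic, Finset.mem_filter, Finset.mem_product]
      refine ⟨⟨hx1 0, hx1 1⟩, ?_⟩
      rw [← hx3]
      unfold lin qua
      simp only [Fin.sum_univ_five] at hx2
      rw [hsym 1 0, hsym 2 0, hsym 3 0, hsym 4 0, hsym 2 1, hsym 3 1, hsym 4 1, hsym 3 2, hsym 4 2,
        hsym 4 3] at hx2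
      simp only
      linear_combination hx2
    · intro x hx y hy hxy
      rw [Finset.mem_coe, Finset.mem_filter] at hx hy
      have h1 := hx.2.trans hy.2.symm
      simp only [Prod.mk.injEq] at h1 hxy
      funext i
      fin_cases i
      · exact hxy.1
      · exact hxy.2
      · exact h1.1
      · exact h1.2.1
      · exact h1.2.2
  have hcard : S.card ≤ ∑ w ∈ W, (cn w).card := by
    rw [Finset.card_eq_sum_card_fiberwise hmaps]
    exact Finset.sum_le_sum hfib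
  -- the exceptional `w`
  set P : F[X] × F[X] × F[X] → Prop := fun w =>
    dsc (g 0 0) (g 0 1) (g 1 1) (lin g 0 w) (lin g 1 w) (qua g m w) = 0 with hP
  have hT : (W.filter P).card ≤ 6 * Fintype.card F ^ (2 * n) := by
    have h := hC8 n (cf g m) (by
      change -(g 0 0 * g 1 1 - g 0 1 ^ 2) * m ≠ 0
      exact mul_ne_zero (neg_ne_zero.2 hdet) hm0)
    refine le_trans (le_of_eq ?_) h
    congr 1
    apply Finset.filter_congr
    intro w _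
    rw [hP]
    simp only
    rw [dsc_eq]
  have hWc : W.card = Fintype.card F ^ (3 * n) := by
    rw [hW, Finset.card_product, Finset.card_product, b3]
    ring
  have hdegw : ∀ w ∈ W, w.1.natDegree ≤ L ∧ w.2.1.natDegree ≤ L ∧ w.2.2.natDegree ≤ L := by
    intro w hw
    rw [hW, Finset.mem_product, Finset.mem_product] at hw
    have hmono : ∀ p ∈ POL F n, p.natDegree ≤ L := fun p hp => (b2 L p).1 (b4 n (L + 1) hn hp)
    exact ⟨hmono _ hw.1, hmono _ hw.2.1, hmono _ hw.2.2⟩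
  have hexp1 : (1 : ℝ) ≤ qq F ^ (ε * (L : ℝ)) := Real.one_le_rpow hQ1 (by positivity)
  have hgood : ∀ w ∈ W.filter (fun w => ¬ P w), ((cn w).card : ℝ) ≤ K * qq F ^ (ε * (L : ℝ)) := by
    intro w hw
    rw [Finset.mem_filter] at hw
    obtain ⟨d1, d2, d3⟩ := hdegw w hw.1
    have h := h6 (3 * L) (g 0 0) (g 0 1) (g 1 1) (lin g 0 w) (lin g 1 w) (qua g m w)
      ((hg _ _).trans (by omega)) ((hg _ _).trans (by omega)) ((hg _ _).trans (by omega))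
      (lin_deg hg 0 d1 d2 d3) (lin_deg hg 1 d1 d2 d3) (qua_deg hg hmL d1 d2 d3) hdet hw.2
    have hsub : cn w ⊆ conic (3 * L + 1) (g 0 0) (g 0 1) (g 1 1) (lin g 0 w) (lin g 1 w)
        (qua g m w) := by
      rw [hcn]
      unfold conic
      apply Finset.filter_subset_filter
      exact Finset.product_subset_product (b4 _ _ (by omega)) (b4 _ _ (by omega))
    have h2 : ((cn w).card : ℝ) ≤ ((conic (3 * L + 1) (g 0 0) (g 0 1) (g 1 1) (lin g 0 w)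
        (lin g 1 w) (qua g m w)).card : ℝ) := by
      exact_mod_cast Finset.card_le_card hsub
    refine h2.trans (h.trans (le_of_eq ?_))
    congr 2
    push_cast
    ring
  have hbad : ∀ w ∈ W.filter P, ((cn w).card : ℝ) ≤ 2 * qq F ^ n := by
    intro w _
    have h := hC7 n (g 0 0) (g 0 1) (g 1 1) (lin g 0 w) (lin g 1 w) (qua g m w) hdet
    rw [hcn]
    unfold qq
    exact_mod_cast h
  have hsum1 : ∑ w ∈ W.filter P, ((cn w).card : ℝ) ≤ 12 * qq F ^ (3 * n) := by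
    calc ∑ w ∈ W.filter P, ((cn w).card : ℝ) ≤ ∑ w ∈ W.filter P, 2 * qq F ^ n :=
          Finset.sum_le_sum hbad
      _ = (W.filter P).card * (2 * qq F ^ n) := by rw [Finset.sum_const, nsmul_eq_mul]
      _ ≤ (6 * qq F ^ (2 * n)) * (2 * qq F ^ n) := by
          have h : ((W.filter P).card : ℝ) ≤ 6 * qq F ^ (2 * n) := by
            unfold qq
            exact_mod_cast hT
          have h0 : (0 : ℝ) ≤ 2 * qq F ^ n := by positivity
          exact mul_le_mul_of_nonneg_right h h0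
      _ = 12 * qq F ^ (3 * n) := by ring
  have hsum2 : ∑ w ∈ W.filter (fun w => ¬ P w), ((cn w).card : ℝ) ≤
      K * qq F ^ (ε * (L : ℝ)) * qq F ^ (3 * n) := by
    calc ∑ w ∈ W.filter (fun w => ¬ P w), ((cn w).card : ℝ)
        ≤ ∑ w ∈ W.filter (fun w => ¬ P w), K * qq F ^ (ε * (L : ℝ)) := Finset.sum_le_sum hgood
      _ = (W.filter (fun w => ¬ P w)).card * (K * qq F ^ (ε * (L : ℝ))) := by
          rw [Finset.sum_const, nsmul_eq_mul]
      _ ≤ qq F ^ (3 * n) * (K * qq F ^ (ε * (L : ℝ))) := by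
          have h : ((W.filter (fun w => ¬ P w)).card : ℝ) ≤ qq F ^ (3 * n) := by
            have h1 := Finset.card_filter_le W (fun w => ¬ P w)
            rw [hWc] at h1
            unfold qq
            exact_mod_cast h1
          have h0 : (0 : ℝ) ≤ K * qq F ^ (ε * (L : ℝ)) := by positivity
          exact mul_le_mul_of_nonneg_right h h0
      _ = K * qq F ^ (ε * (L : ℝ)) * qq F ^ (3 * n) := by ring
  have hfinal : (S.card : ℝ) ≤ ∑ w ∈ W, ((cn w).card : ℝ) := by exact_mod_cast hcard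
  rw [← Finset.sum_filter_add_sum_filter_not W P] at hfinal
  have h12 : 12 * qq F ^ (3 * n) ≤ 12 * qq F ^ (ε * (L : ℝ)) * qq F ^ (3 * n) := by
    have h0 : (0 : ℝ) ≤ qq F ^ (3 * n) := by positivity
    nlinarith [mul_le_mul_of_nonneg_right hexp1 h0]
  calc (S.card : ℝ) ≤ _ := hfinal
    _ ≤ 12 * qq F ^ (3 * n) + K * qq F ^ (ε * (L : ℝ)) * qq F ^ (3 * n) := add_le_add hsum1 hsum2
    _ ≤ 12 * qq F ^ (ε * (L : ℝ)) * qq F ^ (3 * n) +
        K * qq F ^ (ε * (L : ℝ)) * qq F ^ (3 * n) := by linarith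
    _ = (12 + K) * qq F ^ (ε * (L : ℝ)) * qq F ^ (3 * n) := by ring

end P5
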