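import Pool.Agent.H731.P5.Stm

open Polynomial
open scoped Classical

noncomputable section

namespace P5

namespace XD1

variable {F : Type} [Field F] [Fintype F] [CharP F 5]

lemma lam_quad (hB1 : S_B1 F) (v : F[X]) (x E : Fin 5 → F[X]) :
    lam ((∑ l : Fin 5, expand F 5 (x l) * E l) ^ 2 * v) =
      ∑ i, ∑ j, lam (E i * E j * v) * x i * x j := by
  obtain ⟨-, hadd, hmul, -⟩ := hB1
  set Λ : F[X] →+ F[X] := AddMonoidHom.mk' lam hadd with hΛ
  have hΛe : ∀ G : F[X], Λ G = lam G := fun G => rfl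
  have e : (∑ l : Fin 5, expand F 5 (x l) * E l) ^ 2 * v =
      ∑ i, ∑ j, expand F 5 (x i * x j) * (E i * E j * v) := by
    rw [pow_two, Finset.sum_mul_sum, Finset.sum_mul]
    refine Finset.sum_congr rfl fun i _ => ?_
    rw [Finset.sum_mul]
    refine Finset.sum_congr rfl fun j _ => ?_
    rw [map_mul]
    ring
  rw [e, ← hΛe, map_sum]
  refine Finset.sum_congr rfl fun i _ => ?_
  rw [map_sum]
  refine Finset.sum_congr rfl fun j _ => ?_
  rw [hΛe, hmul]
  ring

end XD1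

theorem p_D1 (F : Type) [Field F] [Fintype F] [CharP F 5] (hB0 : S_B0 F) (hB1 : S_B1 F) (hB3 : S_B3 F)
    (hC9 : S_C9 F) : S_D1 F := by
  intro ε hε
  obtain ⟨K, hK, H⟩ := hC9 ε hε
  have hq : (1 : ℝ) ≤ qq F := by
    unfold qq
    exact_mod_cast Fintype.card_pos
  have hq0 : (0 : ℝ) < qq F := by linarith
  refine ⟨K * qq F ^ (8 * ε) * qq F ^ (3 : ℝ), by positivity, ?_⟩
  intro N v hv hdeg
  obtain ⟨E, hE, hrep, hdet⟩ := hB3 v hv
  have hB1' := hB1
  obtain ⟨-, -, -, -, hlamdeg, -, hsol, -, hfdeg, hfne⟩ := hB1'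
  set n : ℕ := N / 5 + 1 with hn
  set g : Fin 5 → Fin 5 → F[X] := fun i j => lam (E i * E j * v) with hg
  set m : F[X] := map (frobenius F 5) v with hm
  have hgdeg : ∀ i j, (g i j).natDegree ≤ N + 8 := by
    intro i j
    refine (hlamdeg _).trans ?_
    have h1 := natDegree_mul_le (p := E i * E j) (q := v)
    have h2 := natDegree_mul_le (p := E i) (q := E j)
    have h3 := hE i
    have h4 := hE j
    omega
  have hgsymm : ∀ i j, g i j = g j i := by
    intro i j
    simp only [hg]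
    rw [mul_comm (E i) (E j)]
  have hmdeg : m.natDegree ≤ N + 8 := by
    rw [hm, hfdeg]
    omega
  have hcount := H (N + 8) n g m (by omega) hgdeg hgsymm (hfne v hv) hmdeg hdet
  have hsub : (POL F (N + 1)).filter (fun f => IsSol f v) ⊆
      ((Fintype.piFinset (fun _ : Fin 5 => POL F n)).filter
        (fun x => ∑ i, ∑ j, g i j * x i * x j = m)).image
        (fun x => ∑ l : Fin 5, expand F 5 (x l) * E l) := by
    intro f hf
    rw [Finset.mem_filter] at hf
    obtain ⟨hf1, hf2⟩ := hf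
    have hf3 : f ∈ POL F (5 * n) := hB0.2.2.2 (N + 1) (5 * n) (by omega) hf1
    obtain ⟨x, hx, hfx⟩ := hrep n f hf3
    rw [Finset.mem_image]
    refine ⟨x, ?_, hfx.symm⟩
    rw [Finset.mem_filter, Fintype.mem_piFinset]
    refine ⟨hx, ?_⟩
    have h1 := (hsol f v).1 hf2
    rw [hfx, XD1.lam_quad hB1] at h1
    exact h1
  have hcard : (((POL F (N + 1)).filter (fun f => IsSol f v)).card : ℝ) ≤
      (((Fintype.piFinset (fun _ : Fin 5 => POL F n)).filter
        (fun x => ∑ i, ∑ j, g i j * x i * x j = m)).card : ℝ) := by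
    exact_mod_cast (Finset.card_le_card hsub).trans Finset.card_image_le
  refine hcard.trans (hcount.trans ?_)
  have h3n : qq F ^ (3 * n) ≤ qq F ^ (3 : ℝ) * qq F ^ ((3 : ℝ) * N / 5) := by
    rw [← Real.rpow_add hq0, ← Real.rpow_natCast]
    refine Real.rpow_le_rpow_of_exponent_le hq ?_
    have h5 : ((N / 5 : ℕ) : ℝ) ≤ (N : ℝ) / 5 := by
      have := Nat.cast_div_le (α := ℝ) (m := N) (n := 5)
      simpa using this
    rw [hn]
    push_cast
    linarith
  have h8 : qq F ^ (ε * ((N + 8 : ℕ) : ℝ)) = qq F ^ (8 * ε) * qq F ^ (ε * (N : ℝ)) := by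
    rw [← Real.rpow_add hq0]
    congr 1
    push_cast
    ring
  rw [h8]
  calc K * (qq F ^ (8 * ε) * qq F ^ (ε * (N : ℝ))) * qq F ^ (3 * n)
      ≤ K * (qq F ^ (8 * ε) * qq F ^ (ε * (N : ℝ))) * (qq F ^ (3 : ℝ) * qq F ^ ((3 : ℝ) * N / 5)) :=
        mul_le_mul_of_nonneg_left h3n (by positivity)
    _ = _ := by ring

end P5
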