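import Pool.Agent.H731.P5.Stm

/-!
# D2: the final summation
-/

open Polynomial
open scoped Classical

noncomputable section

namespace P5

namespace XD2

/-- the values of `v` which can occur -/
def VV (F : Type) [Field F] [Fintype F] (N : ℕ) : Finset F[X] :=
  (POL F N).filter (fun v => v ≠ 0 ∧ 2 * v.natDegree + 2 ≤ N)

theorem qq_one (F : Type) [Field F] [Fintype F] : 1 ≤ qq F := by
  unfold qq
  have : 1 ≤ Fintype.card F := Fintype.card_pos
  exact_mod_cast this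

theorem card_VV (F : Type) [Field F] [Fintype F] [CharP F 5] (hB0 : S_B0 F) (N : ℕ) :
    (VV F N).card ≤ Fintype.card F ^ (N / 2) := by
  obtain ⟨b1, -, b3, -⟩ := hB0
  rw [← b3 (N / 2)]
  refine Finset.card_le_card fun v hv => ?_
  unfold VV at hv
  rw [Finset.mem_filter] at hv
  obtain ⟨-, hv0, hv2⟩ := hv
  rw [b1, degree_eq_natDegree hv0]
  have : v.natDegree < N / 2 := by omega
  exact_mod_cast this

theorem cl5_le (F : Type) [Field F] [Fintype F] [CharP F 5] (hB1 : S_B1 F) (hA9 : S_A9 F)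
    {N : ℕ} (hN : 1 ≤ N) {f : F[X]} (hf : f ∈ SQ F N) :
    cl5 f ≤ 1 + ((VV F N).filter (fun v => IsSol f v)).card := by
  obtain ⟨-, -, -, -, -, -, -, b8, -, -⟩ := hB1
  unfold SQ at hf
  rw [Finset.mem_filter] at hf
  obtain ⟨-, hsq, hdeg⟩ := hf
  have h1 := (hA9 f hsq (by omega)).2
  refine h1.trans ?_
  rw [hdeg]
  have h2 : (POL F N).filter (fun v => IsSol f v) ⊆
      {0} ∪ (VV F N).filter (fun v => IsSol f v) := by
    intro v hv
    rw [Finset.mem_filter] at hv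
    rw [Finset.mem_union, Finset.mem_singleton, Finset.mem_filter]
    by_cases h0 : v = 0
    · exact Or.inl h0
    · refine Or.inr ⟨?_, hv.2⟩
      unfold VV
      rw [Finset.mem_filter]
      refine ⟨hv.1, h0, ?_⟩
      have := b8 f v h0 hv.2
      omega
  refine (Finset.card_le_card h2).trans ((Finset.card_union_le _ _).trans ?_)
  rw [Finset.card_singleton]

theorem sum_le (F : Type) [Field F] [Fintype F] [CharP F 5] (hB0 : S_B0 F) (hB1 : S_B1 F)
    (hA9 : S_A9 F) {N : ℕ} (hN : 1 ≤ N) :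
    ∑ f ∈ SQ F N, cl5 f ≤ Fintype.card F ^ (N + 1) +
      ∑ v ∈ VV F N, ((POL F (N + 1)).filter (fun f => IsSol f v)).card := by
  have hsub : SQ F N ⊆ POL F (N + 1) := Finset.filter_subset _ _
  have h1 : ∑ f ∈ SQ F N, cl5 f ≤
      ∑ f ∈ SQ F N, (1 + ((VV F N).filter (fun v => IsSol f v)).card) :=
    Finset.sum_le_sum fun f hf => cl5_le F hB1 hA9 hN hf
  refine h1.trans ?_
  have h2 : ∑ f ∈ SQ F N, (1 + ((VV F N).filter (fun v => IsSol f v)).card) ≤
      ∑ f ∈ POL F (N + 1), (1 + ((VV F N).filter (fun v => IsSol f v)).card) :=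
    Finset.sum_le_sum_of_subset hsub
  refine h2.trans ?_
  rw [Finset.sum_add_distrib, Finset.sum_const, smul_eq_mul, mul_one, hB0.2.2.1]
  refine Nat.add_le_add_left (le_of_eq ?_) _
  have e1 : ∀ f ∈ POL F (N + 1), ((VV F N).filter (fun v => IsSol f v)).card =
      ∑ v ∈ VV F N, if IsSol f v then 1 else 0 := fun f _ => by rw [Finset.card_filter]
  have e2 : ∀ v ∈ VV F N, ((POL F (N + 1)).filter (fun f => IsSol f v)).card =
      ∑ f ∈ POL F (N + 1), if IsSol f v then 1 else 0 := fun v _ => by rw [Finset.card_filter]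
  rw [Finset.sum_congr rfl e1, Finset.sum_congr rfl e2, Finset.sum_comm]

end XD2

theorem p_D2 (F : Type) [Field F] [Fintype F] [CharP F 5] (hB0 : S_B0 F) (hB1 : S_B1 F)
    (hA9 : S_A9 F) (hD1 : S_D1 F) : S_D2 F := by
  intro ε hε
  obtain ⟨K, hK, hD⟩ := hD1 ε hε
  have hq : 1 ≤ qq F := XD2.qq_one F
  have hq0 : 0 < qq F := by linarith
  refine ⟨qq F + K, by positivity, fun N hN => ?_⟩
  have hNr : (0 : ℝ) ≤ (N : ℝ) := Nat.cast_nonneg N
  have h1 := XD2.sum_le F hB0 hB1 hA9 hN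
  have h2 : ((∑ f ∈ SQ F N, cl5 f : ℕ) : ℝ) ≤ qq F ^ (N + 1) +
      ∑ v ∈ XD2.VV F N, (((POL F (N + 1)).filter (fun f => IsSol f v)).card : ℝ) := by
    have h3 : ((∑ f ∈ SQ F N, cl5 f : ℕ) : ℝ) ≤ ((Fintype.card F ^ (N + 1) +
      ∑ v ∈ XD2.VV F N, ((POL F (N + 1)).filter (fun f => IsSol f v)).card : ℕ) : ℝ) :=
      Nat.cast_le.2 h1
    refine h3.trans (le_of_eq ?_)
    unfold qq
    push_cast
    rfl
  refine h2.trans ?_
  have h4 : ∑ v ∈ XD2.VV F N, (((POL F (N + 1)).filter (fun f => IsSol f v)).card : ℝ) ≤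
      ∑ _v ∈ XD2.VV F N, K * qq F ^ (ε * (N : ℝ)) * qq F ^ ((3 : ℝ) * N / 5) := by
    refine Finset.sum_le_sum fun v hv => ?_
    unfold XD2.VV at hv
    rw [Finset.mem_filter] at hv
    exact hD N v hv.2.1 hv.2.2
  rw [Finset.sum_const, nsmul_eq_mul] at h4
  have h5 : ((XD2.VV F N).card : ℝ) ≤ qq F ^ ((N : ℝ) / 2) := by
    have h6 : ((XD2.VV F N).card : ℝ) ≤ ((Fintype.card F ^ (N / 2) : ℕ) : ℝ) :=
      Nat.cast_le.2 (XD2.card_VV F hB0 N)
    refine h6.trans ?_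
    push_cast
    rw [← Real.rpow_natCast]
    refine Real.rpow_le_rpow_of_exponent_le hq ?_
    exact Nat.cast_div_le
  have h6 : ((XD2.VV F N).card : ℝ) * (K * qq F ^ (ε * (N : ℝ)) * qq F ^ ((3 : ℝ) * N / 5)) ≤
      K * qq F ^ ((11 / 10 + ε) * (N : ℝ)) := by
    have h7 : 0 ≤ K * qq F ^ (ε * (N : ℝ)) * qq F ^ ((3 : ℝ) * N / 5) := by positivity
    refine (mul_le_mul_of_nonneg_right h5 h7).trans (le_of_eq ?_)
    have e : (11 / 10 + ε) * (N : ℝ) = (N : ℝ) / 2 + (ε * (N : ℝ) + (3 : ℝ) * N / 5) := by ring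
    rw [e, Real.rpow_add hq0, Real.rpow_add hq0]
    ring
  have h8 : qq F ^ (N + 1) ≤ qq F * qq F ^ ((11 / 10 + ε) * (N : ℝ)) := by
    rw [pow_succ, mul_comm]
    refine mul_le_mul_of_nonneg_left ?_ hq0.le
    rw [← Real.rpow_natCast]
    refine Real.rpow_le_rpow_of_exponent_le hq ?_
    nlinarith
  calc _ ≤ qq F * qq F ^ ((11 / 10 + ε) * (N : ℝ)) + K * qq F ^ ((11 / 10 + ε) * (N : ℝ)) :=
        add_le_add h8 (h4.trans h6)
    _ = _ := by ring

end P5
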