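import Mathlib

/-!
# The 5-torsion of class groups of quadratic function fields in characteristic 5: definitions

`F` is a finite field of characteristic 5, `q = #F`.  For `f ∈ F[X]` the order `OO f = F[X][s]`, `s ^ 2 = f`,
is `QuadraticAlgebra F[X] f 0`; an element is `⟨a, b⟩ = a + b s`.
-/

open Polynomial
open scoped Classical

noncomputable section

namespace P5

instance fact5 : Fact (Nat.Prime 5) := ⟨by norm_num⟩

/-- The polynomials of degree `< n` (a finite set). -/
def POL (F : Type) [Field F] [Fintype F] (n : ℕ) : Finset F[X] :=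
  (Finset.univ : Finset (Fin n → F)).image (fun c => ∑ i : Fin n, C (c i) * X ^ (i : ℕ))

/-- `q = #F` as a real number. -/
def qq (F : Type) [Fintype F] : ℝ := (Fintype.card F : ℝ)

/-- The equation `(f² v)'''' = - v ^ 5`. -/
def IsSol {F : Type} [Field F] (f v : F[X]) : Prop :=
  derivative (derivative (derivative (derivative (f ^ 2 * v)))) = - v ^ 5

/-- `lam G` has the coefficients `G_4, G_9, G_14, …`. -/
def lam {F : Type} [Field F] (G : F[X]) : F[X] := contract 5 (divX (divX (divX (divX G))))

/-- The ring `F[X][s]`, `s ^ 2 = f`; the element `a + b s` is `⟨a, b⟩`. -/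
abbrev OO {F : Type} [Field F] (f : F[X]) : Type := QuadraticAlgebra F[X] f 0

/-- The derivation `δ (a + b s) = (b' f + 3 b f') + a' s` of `OO f` (characteristic 5; `δ = s d/dX`, `3 = 1/2`). -/
def dl {F : Type} [Field F] (f : F[X]) (x : OO f) : OO f :=
  ⟨derivative x.im * f + 3 * (x.im * derivative f), derivative x.re⟩

/-- The polynomial `v` as an element of `OO f`. -/
def cc {F : Type} [Field F] (f v : F[X]) : OO f := ⟨v, 0⟩

/-- The number of ideal classes `c` of the domain `OO f` with `c ^ 5 = 1` (`0` if `OO f` is not a domain). -/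
def cl5 {F : Type} [Field F] (f : F[X]) : ℕ :=
  if _h : IsDomain (OO f) then Nat.card {c : ClassGroup (OO f) // c ^ 5 = 1} else 0

/-- The squarefree polynomials of degree `N`. -/
def SQ (F : Type) [Field F] [Fintype F] (N : ℕ) : Finset F[X] :=
  (POL F (N + 1)).filter (fun f => Squarefree f ∧ f.natDegree = N)

/-- The discriminant of the conic `a x² + 2 b x y + c y² + 2 d x + 2 e y + k`. -/
def dsc {F : Type} [Field F] (a b c d e k : F[X]) : F[X] :=
  (a * c - b ^ 2) * k - (a * e ^ 2 - 2 * b * d * e + c * d ^ 2)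

/-- The points of the conic in the box. -/
def conic {F : Type} [Field F] [Fintype F] (n : ℕ) (a b c d e k : F[X]) : Finset (F[X] × F[X]) :=
  ((POL F n) ×ˢ (POL F n)).filter (fun z => a * z.1 ^ 2 + 2 * b * z.1 * z.2 + c * z.2 ^ 2 + 2 * d * z.1 + 2 * e * z.2 + k = 0)

/-- The solutions of `Y² - D X² = M` of degree `< n`. -/
def pell {F : Type} [Field F] [Fintype F] (n : ℕ) (D M : F[X]) : Finset (F[X] × F[X]) :=
  ((POL F n) ×ˢ (POL F n)).filter (fun z => z.2 ^ 2 - D * z.1 ^ 2 = M)

/-- The number of divisors of `R` (all divisors, not only the monic ones). -/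
def dv {F : Type} [Field F] (R : F[X]) : ℕ := {U : F[X] | U ∣ R}.ncard

end P5
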