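import Pool.Agent.H731.P5.Stm2

/-!
# P5: the number of squarefree polynomials
-/

open Polynomial
open scoped Classical

noncomputable section

namespace P5

namespace XE1

/-- The monic polynomials of degree `n`. -/
def MON (F : Type) [Field F] [Fintype F] (n : ℕ) : Finset F[X] :=
  (POL F n).image (fun g => X ^ n + g)

variable {F : Type} [Field F] [Fintype F] [CharP F 5]

omit [CharP F 5] in
theorem mem_MON (hB0 : S_B0 F) (n : ℕ) (f : F[X]) :
    f ∈ MON F n ↔ f.Monic ∧ f.natDegree = n := by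
  rw [MON, Finset.mem_image]
  constructor
  · rintro ⟨g, hg, rfl⟩
    rw [hB0.1] at hg
    refine ⟨monic_X_pow_add hg, ?_⟩
    have h1 : (X ^ n + g).degree = (n : WithBot ℕ) := by
      rw [degree_add_eq_left_of_degree_lt (by rwa [degree_X_pow]), degree_X_pow]
    exact natDegree_eq_of_degree_eq_some h1
  · rintro ⟨hm, hn⟩
    refine ⟨f - X ^ n, ?_, by ring⟩
    rw [hB0.1]
    have hf0 : f ≠ 0 := hm.ne_zero
    have hd : f.degree = (n : WithBot ℕ) := by rw [degree_eq_natDegree hf0, hn]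
    have h1 : f.degree = (X ^ n : F[X]).degree := by rw [hd, degree_X_pow]
    have h2 : f.leadingCoeff = (X ^ n : F[X]).leadingCoeff := by
      rw [hm.leadingCoeff, (monic_X_pow n).leadingCoeff]
    have h3 := degree_sub_lt_left h1 hf0 h2
    rwa [hd] at h3

omit [CharP F 5] in
theorem card_MON (hB0 : S_B0 F) (n : ℕ) : (MON F n).card = Fintype.card F ^ n := by
  rw [MON, Finset.card_image_of_injective _ (fun a b h => by simpa using h)]
  exact hB0.2.2.1 n

theorem bad (hB0 : S_B0 F) (N : ℕ) (f : F[X]) (hm : f.Monic) (hN : f.natDegree = N)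
    (hs : ¬ Squarefree f) :
    ∃ d ∈ Finset.Icc 1 (N / 2), ∃ z ∈ MON F d ×ˢ MON F (N - 2 * d), z.1 * z.1 * z.2 = f := by
  unfold Squarefree at hs
  push Not at hs
  obtain ⟨x, hx, hu⟩ := hs
  have hf0 : f ≠ 0 := hm.ne_zero
  have hx0 : x ≠ 0 := by
    rintro rfl
    rw [mul_zero, zero_dvd_iff] at hx
    exact hf0 hx
  obtain ⟨P, hP, hPm, hPu⟩ : ∃ P : F[X], P * P ∣ f ∧ P.Monic ∧ ¬ IsUnit P := by
    have hc : x.leadingCoeff ≠ 0 := leadingCoeff_ne_zero.mpr hx0
    have hcu : IsUnit (C x.leadingCoeff⁻¹ : F[X]) := isUnit_C.mpr (inv_ne_zero hc).isUnit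
    refine ⟨C x.leadingCoeff⁻¹ * x, ?_, ?_, ?_⟩
    · have : C x.leadingCoeff⁻¹ * x * (C x.leadingCoeff⁻¹ * x) =
          (C x.leadingCoeff⁻¹ * C x.leadingCoeff⁻¹) * (x * x) := by ring
      rw [this]
      exact (hcu.mul hcu).mul_left_dvd.mpr hx
    · exact monic_C_mul_of_mul_leadingCoeff_eq_one (inv_mul_cancel₀ hc)
    · intro h
      exact hu (isUnit_of_mul_isUnit_right h)
  obtain ⟨g, hg⟩ := hP
  have hPP : (P * P).Monic := hPm.mul hPm
  have hgm : g.Monic := hPP.of_mul_monic_left (hg ▸ hm)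
  have hdeg : f.natDegree = 2 * P.natDegree + g.natDegree := by
    rw [hg, hPP.natDegree_mul hgm, hPm.natDegree_mul hPm]
    ring
  have hP1 : 1 ≤ P.natDegree := by
    by_contra h
    have h0 : P.natDegree = 0 := by omega
    have h1 : P = 1 := hPm.natDegree_eq_zero.mp h0
    exact hPu (h1 ▸ isUnit_one)
  refine ⟨P.natDegree, Finset.mem_Icc.mpr ⟨hP1, by omega⟩, (P, g), ?_, hg.symm⟩
  rw [Finset.mem_product, mem_MON hB0, mem_MON hB0]
  refine ⟨⟨hPm, rfl⟩, hgm, ?_⟩
  show g.natDegree = N - 2 * P.natDegree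
  omega

theorem geo (q N : ℕ) (hq : 3 ≤ q) : ∀ m : ℕ, m ≤ N →
    2 * ∑ d ∈ Finset.Icc 1 m, q ^ (N - d) + q ^ (N - m) ≤ q ^ N := by
  intro m
  induction m with
  | zero => intro _; simp
  | succ m ih =>
    intro hm
    have h := ih (by omega)
    rw [Finset.sum_Icc_succ_top (by omega)]
    have e : q ^ (N - m) = q * q ^ (N - (m + 1)) := by
      rw [← pow_succ']
      congr 1
      omega
    rw [e] at h
    have h3 : 3 * q ^ (N - (m + 1)) ≤ q * q ^ (N - (m + 1)) := Nat.mul_le_mul_right _ hq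
    omega

theorem main (hB0 : S_B0 F) (N : ℕ) (hN : 1 ≤ N) :
    Fintype.card F ^ N ≤ 2 * (SQ F N).card := by
  have hq : 3 ≤ Fintype.card F := by
    obtain ⟨n, hp, hn⟩ := FiniteField.card F 5
    have h1 : 5 ^ 1 ≤ 5 ^ (n : ℕ) := Nat.pow_le_pow_right (by norm_num) n.pos
    omega
  have hsub : MON F N ⊆ SQ F N ∪ (Finset.Icc 1 (N / 2)).biUnion
      (fun d => (MON F d ×ˢ MON F (N - 2 * d)).image (fun z => z.1 * z.1 * z.2)) := by
    intro f hf
    rw [mem_MON hB0] at hf
    by_cases hs : Squarefree f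
    · refine Finset.mem_union_left _ ?_
      rw [SQ, Finset.mem_filter, hB0.2.1]
      exact ⟨hf.2.le, hs, hf.2⟩
    · refine Finset.mem_union_right _ ?_
      obtain ⟨d, hd, z, hz, he⟩ := bad hB0 N f hf.1 hf.2 hs
      rw [Finset.mem_biUnion]
      exact ⟨d, hd, Finset.mem_image.mpr ⟨z, hz, he⟩⟩
  have h1 : ((Finset.Icc 1 (N / 2)).biUnion
      (fun d => (MON F d ×ˢ MON F (N - 2 * d)).image (fun z => z.1 * z.1 * z.2))).card ≤
      ∑ d ∈ Finset.Icc 1 (N / 2), Fintype.card F ^ (N - d) := by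
    refine Finset.card_biUnion_le.trans (Finset.sum_le_sum fun d hd => ?_)
    refine Finset.card_image_le.trans ?_
    rw [Finset.card_product, card_MON hB0, card_MON hB0, ← pow_add]
    rw [Finset.mem_Icc] at hd
    have : d + (N - 2 * d) = N - d := by omega
    rw [this]
  have h2 := geo (Fintype.card F) N hq (N / 2) (by omega)
  have h3 := (Finset.card_le_card hsub).trans (Finset.card_union_le _ _)
  rw [card_MON hB0] at h3
  omega

end XE1

theorem p_E1 (F : Type) [Field F] [Fintype F] [CharP F 5] (hB0 : S_B0 F) : S_E1 F :=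
  fun N hN => XE1.main hB0 N hN

end P5
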