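import Pool.Agent.H731.P5.B0
import Pool.Agent.H731.P5.B1
import Pool.Agent.H731.P5.B2
import Pool.Agent.H731.P5.B3
import Pool.Agent.H731.P5.A1
import Pool.Agent.H731.P5.A2
import Pool.Agent.H731.P5.A2b
import Pool.Agent.H731.P5.A3
import Pool.Agent.H731.P5.A4
import Pool.Agent.H731.P5.A8
import Pool.Agent.H731.P5.A9
import Pool.Agent.H731.P5.C1
import Pool.Agent.H731.P5.C2
import Pool.Agent.H731.P5.C3
import Pool.Agent.H731.P5.C4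
import Pool.Agent.H731.P5.C5
import Pool.Agent.H731.P5.C6
import Pool.Agent.H731.P5.C7
import Pool.Agent.H731.P5.C8
import Pool.Agent.H731.P5.C9
import Pool.Agent.H731.P5.D1
import Pool.Agent.H731.P5.D2
import Pool.Agent.H731.P5.E1

/-!
# P5: assembly of the lemmas
-/

open Polynomial
open scoped Classical

noncomputable section

namespace P5

variable (F : Type) [Field F] [Fintype F] [CharP F 5]

theorem a_B0 : S_B0 F := p_B0 F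
theorem a_B1 : S_B1 F := p_B1 F
theorem a_B2 : S_B2 F := p_B2 F (a_B0 F)
theorem a_B3 : S_B3 F := p_B3 F (a_B1 F) (a_B2 F) (a_B0 F)
theorem a_A1 : S_A1 F := p_A1 F
theorem a_A2 : S_A2 F := p_A2 F
theorem a_A2b : S_A2b F := p_A2b F (a_A1 F) (a_A2 F)
theorem a_A3 : S_A3 F := p_A3 F
theorem a_A4 : S_A4 F := p_A4 F (a_A1 F) (a_A3 F)
theorem a_A8 : S_A8 F := p_A8 F (a_A1 F) (a_A3 F) (a_A2b F)
theorem a_A9 : S_A9 F := p_A9 F (a_A1 F) (a_A3 F) (a_A4 F) (a_A8 F) (a_B0 F) (a_B1 F)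
theorem a_C1 : S_C1 F := p_C1 F
theorem a_C2 : S_C2 F := p_C2 F (a_B0 F)
theorem a_C3 : S_C3 F := p_C3 F (a_B0 F)
theorem a_C4 : S_C4 F := p_C4 F (a_B0 F) (a_C2 F) (a_C3 F)
theorem a_C5 : S_C5 F := p_C5 F (a_B0 F) (a_C1 F) (a_C4 F)
theorem a_C6 : S_C6 F := p_C6 F (a_B0 F) (a_C1 F) (a_C5 F)
theorem a_C7 : S_C7 F := p_C7 F (a_B0 F)
theorem a_C8 : S_C8 F := p_C8 F (a_B0 F)
theorem a_C9 : S_C9 F := p_C9 F (a_B0 F) (a_C6 F) (a_C7 F) (a_C8 F)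
theorem a_D1 : S_D1 F := p_D1 F (a_B0 F) (a_B1 F) (a_B3 F) (a_C9 F)
theorem a_D2 : S_D2 F := p_D2 F (a_B0 F) (a_B1 F) (a_A9 F) (a_D1 F)
theorem a_E1 : S_E1 F := p_E1 F (a_B0 F)

end P5
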