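import Pool.Agent.H731.P5.Defs

/-!
# The 5-torsion of class groups of quadratic function fields in characteristic 5: statements with paper proofs

Project P5 (helper731), hard page MP_16912e_nt.  Every board task is: prove `theorem P5.p_XX (F : Type) [Field F]
[Fintype F] [CharP F 5] : S_XX F` (with the listed `S_..` as hypotheses where the docstring says `uses`).

Overview.  `F` finite of characteristic 5, `q = #F`, `O = OO f = F[X][s]`, `s² = f` squarefree.  A class of order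
dividing 5 gives `I ^ 5 = (h)`, `δ h = v h` with `δ = s d/dX`, and `v` is a polynomial with `(f² v)'''' = - v ^ 5`; classes
with the same `v` are equal.  So `#Cl(O)[5] ≤ #{v : (f² v)'''' = - v ^ 5}`.  For fixed `v ≠ 0` the equation is a quadratic
equation `Q_v(x₀, …, x₄) = n ≠ 0` over `F[X]` in the 5 components of `f = ∑ x_i(X ^ 5) X ^ i`; three components are
fixed and the remaining conic has at most `C q ^ (ε N)` points.  So the sum of `#Cl(O)[5]` over the squarefree `f` of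
degree `N` is at most `q ^ (N/2) q ^ (3N/5 + ε N) = q ^ (N (1 + 1/10 + ε))`.
-/

open Polynomial
open scoped Classical

noncomputable section

namespace P5

variable (F : Type) [Field F] [Fintype F] [CharP F 5]

/-! ## Part B : polynomials -/

/-- **B0** finite sets of polynomials.  (DH.B0 in Pool/Agent/H463/DH/B0.lean has the same statements for the same `POL`.) -/
def S_B0 : Prop :=
  (∀ n (g : F[X]), g ∈ POL F n ↔ g.degree < n) ∧
  (∀ n (g : F[X]), g ∈ POL F (n + 1) ↔ g.natDegree ≤ n) ∧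
  (∀ n, (POL F n).card = Fintype.card F ^ n) ∧
  (∀ m n, m ≤ n → POL F m ⊆ POL F n)

/-- **B1** the operator `lam`.
(1) `G'''' = - (lam G)(X ^ 5)`: the coefficient of `X ^ m` in `G''''` is `(m+1)(m+2)(m+3)(m+4) G_{m+4}`; modulo 5 the product
is `0` unless `5 ∣ m`, and then it is `24 = -1`.
(2)-(4) linearity (`coeff (lam G) i = G.coeff (5 i + 4)`; use `coeff_contract`, `coeff_divX`).
(5) degrees.  (6) if `lam (X ^ i G) = 0` for `i < 5` then `G = 0` (every coefficient of `G` is a coefficient `5 j + 4` of one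
of the `X ^ i G`).
(7) `IsSol f v ↔ lam (f² v) = v^{(5)}`, `v^{(5)} = map (frobenius F 5) v`: by (1), `v ^ 5 = expand F 5 (map (frobenius F 5) v)`
(`Polynomial.map_frobenius_expand` / `expand_char`), and `expand` is injective.
(8) if `v ≠ 0` and `IsSol f v` then `2 deg v + 2 ≤ deg f`: `5 deg v = deg (f² v)'''' ≤ 2 deg f + deg v - 4` (the left side is
not zero, so the degree of `f² v` is at least 4; `f ≠ 0`).
(9),(10) `map (frobenius F 5) v` has the same degree as `v` and is zero only for `v = 0` (`frobenius` is injective). -/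
def S_B1 : Prop :=
  (∀ G : F[X], derivative (derivative (derivative (derivative G))) = - expand F 5 (lam G)) ∧
  (∀ G H : F[X], lam (G + H) = lam G + lam H) ∧
  (∀ a G : F[X], lam (expand F 5 a * G) = a * lam G) ∧
  (∀ a : F, ∀ G : F[X], lam (C a * G) = C a * lam G) ∧
  (∀ G : F[X], (lam G).natDegree ≤ G.natDegree) ∧
  (∀ G : F[X], (∀ i < 5, lam (X ^ i * G) = 0) → G = 0) ∧
  (∀ f v : F[X], IsSol f v ↔ lam (f ^ 2 * v) = map (frobenius F 5) v) ∧
  (∀ f v : F[X], v ≠ 0 → IsSol f v → 2 * v.natDegree + 2 ≤ f.natDegree) ∧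
  (∀ v : F[X], (map (frobenius F 5) v).natDegree = v.natDegree) ∧
  (∀ v : F[X], v ≠ 0 → map (frobenius F 5) v ≠ 0)

/-- **B2** (uses B0) components: every `f` of degree `< 5 n` is `∑_{i<5} x_i(X ^ 5) X ^ i` with `deg x_i < n`.
Proof: `x_i = contract 5 (divX^[i] f)`, i.e. the coefficients `f_{5 j + i}`. -/
def S_B2 : Prop :=
  ∀ n (f : F[X]), f ∈ POL F (5 * n) → ∃ x : Fin 5 → F[X], (∀ i, x i ∈ POL F n) ∧
    f = ∑ i : Fin 5, expand F 5 (x i) * X ^ (i : ℕ)

/-- **B3** (uses B1, B2, B0) a good basis.  For `v ≠ 0` there are polynomials `E 0, …, E 4` of degree `≤ 4` such that every `f` of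
degree `< 5 n` is `∑ x_l(X ^ 5) E l` with `deg x_l < n`, and such that the form `lam (· · v)` is nondegenerate on `E 0, E 1`.
Proof: put `g i j = lam (X ^ (i + j) v)`, `0 ≤ i, j ≤ 4`.  (a) There are `i, j, k` with `g i i * g j k ≠ g i j * g i k`.  Suppose
not.  If `g i i = 0` for all `i`, then `(g i j)² = g i i * g j j = 0` for all `i, j`, so `lam (X ^ i (X ^ 0 v)) = 0` for all `i < 5`
and `v = 0` by B1(6), contradiction.  Otherwise `g i i ≠ 0` for some `i`; take `j ≠ i` and `G = (expand (g i j) X ^ i - expand (g i i) X ^ j) v`;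
`lam (X ^ k G) = g i j g i k - g i i g j k = 0` for all `k < 5` (B1(2),(3)), so `G = 0`, so
`expand (g i j) X ^ i = expand (g i i) X ^ j`, impossible: the degrees are `i` and `j` modulo 5 (both sides are nonzero).
(b) Let `i, j, k` be as in (a).  Then `i ≠ j`, `i ≠ k`.  If `g i i * g j j ≠ (g i j)²` take `E 0 = X ^ i`, `E 1 = X ^ j` and for
`E 2, E 3, E 4` the other powers.  Similarly if `g i i * g k k ≠ (g i k)²`.  Otherwise `j ≠ k` and `E 0 = X ^ i`, `E 1 = X ^ j + X ^ k`,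
`E 2 = X ^ k`, `E 3, E 4` the other powers: `lam (E0 E0 v) lam (E1 E1 v) - lam (E0 E1 v)² = g i i (g j j + 2 g j k + g k k) - (g i j + g i k)² =
2 (g i i g j k - g i j g i k) ≠ 0`; the representation: `f = ∑ y_i(X ^ 5) X ^ i` by B2, and
`y_j(X⁵) X ^ j + y_k(X⁵) X ^ k = y_j(X⁵) (X ^ j + X ^ k) + (y_k - y_j)(X⁵) X ^ k`. -/
def S_B3 : Prop :=
  ∀ v : F[X], v ≠ 0 → ∃ E : Fin 5 → F[X], (∀ l, (E l).natDegree ≤ 4) ∧
    (∀ n (f : F[X]), f ∈ POL F (5 * n) → ∃ x : Fin 5 → F[X], (∀ l, x l ∈ POL F n) ∧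
      f = ∑ l : Fin 5, expand F 5 (x l) * E l) ∧
    lam (E 0 * E 0 * v) * lam (E 1 * E 1 * v) - lam (E 0 * E 1 * v) ^ 2 ≠ 0

/-! ## Part A : the class group -/

/-- **A1** `δ = dl f` is an additive derivation, kills fifth powers, `δ (conj x) = - conj (δ x)`.
Proof: coordinates, `ring`, `5 = 0`, `2 * 3 = 1` in `F[X]`.  For the fifth power: `δ(x⁵) = 5 x⁴ δ x = 0` from Leibniz. -/
def S_A1 : Prop :=
  ∀ f : F[X],
    (∀ x y : OO f, dl f (x + y) = dl f x + dl f y) ∧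
    (∀ x y : OO f, dl f (x * y) = x * dl f y + y * dl f x) ∧
    (∀ x : OO f, dl f (x ^ 5) = 0) ∧
    (∀ x y : OO f, dl f (x ^ 5 * y) = x ^ 5 * dl f y) ∧
    (∀ x : OO f, dl f (star x) = - star (dl f x)) ∧
    (∀ v : F[X], dl f (cc f v) = ⟨0, derivative v⟩)

/-- **A2** `δ⁵ = - (f²)'''' δ`.
Proof: for `x = a + b s` compute: `δ x = (b' f + 3 b f') + a' s`, and so on, five times; everything is a polynomial identity in
`a, b, f` and their derivatives, with `a^{(5)} = b^{(5)} = f^{(5)} = 0` (characteristic 5) and `5 = 0`.  (Sanity check: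
`δ s = 3 f'`, `δ² s = 3 f'' s`, `δ³ s = 3 f f''' + 9 f' f''`, `δ⁴ s = 3 (f f'''' + 4 f' f''' + 3 f''²) s = - (f²)'''' s`, and the formula
`(s D)⁵ = s⁵ D⁵ + ((s D)⁴ s) D`.)  Suggestion: `derivative_mul` etc. by `simp only`, then `ring`-normalise with `linear_combination`
over `(5 : F[X]) = 0`; or first prove it for `x = cc a` and for `x = cc b * s` separately. -/
def S_A2 : Prop :=
  ∀ (f : F[X]) (x : OO f), dl f (dl f (dl f (dl f (dl f x)))) =
    - cc f (derivative (derivative (derivative (derivative (f ^ 2))))) * dl f x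

/-- **A2b** (uses A1, A2; pure computation) if `OO f` is a domain, `h ≠ 0`, `δ h = v h`, then `(f² v)'''' = - v ^ 5`.
Proof: `δ h = v h`; `δ² h = (v' s + v²) h`; `δ³ h = (v'' f + 3 v' f' + v³ + 3 v v' s) h`;
`δ⁴ h = (s A + B) h`, `A = v''' f - v'' f' + 3 v' f'' + v² v'`, `B = (3 v'² - v v'') f + 2 v v' f' + v⁴` (modulo 5);
`δ⁵ h = ((f A' + 3 f' A + v B) + (B' + v A) s) h`.  By A2 this is `- (f²)'''' v h`; cancel `h`; the first coordinate gives
`f A' + 3 f' A + v B + (f²)'''' v = 0`, which is `v⁵ + (f² v)'''' = 0` modulo 5 (`v^{(5)} = 0` is not needed):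
`(f² v)'''' = f² v'''' + 3 f f' v''' + 2 (f'² + f f'') v'' + (4 f' f'' + 3 f f''') v' + (f²)'''' v`. -/
def S_A2b : Prop :=
  ∀ (f : F[X]), IsDomain (OO f) → ∀ (h : OO f) (v : F[X]), h ≠ 0 → dl f h = cc f v * h → IsSol f v

/-- **A3** for `f` squarefree of degree `≥ 1` the ring `OO f` is a Dedekind domain.
Proof: as DH.p_A3 in Pool/Agent/H463/DH/A3.lean (odd degree, characteristic 3), where the odd degree is only used for
`norm x ≠ 0` (`x ≠ 0`), i.e. `a² ≠ f b²` if `b ≠ 0`: here take an irreducible factor `P` of `f` (degree ≥ 1), its multiplicity in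
`f b²` is odd and in `a²` even.  Only `2 ≠ 0` is used of the characteristic. -/
def S_A3 : Prop :=
  ∀ f : F[X], Squarefree f → 1 ≤ f.natDegree → IsDedekindDomain (OO f)

/-- **A4** (uses A1, A3) `f` squarefree, `deg f ≥ 1`: `δ x = 0` implies that `x` is a fifth power; and if `h₁, h₂ ≠ 0` have
`h₁ δ h₂ = h₂ δ h₁` then `h₁ e ^ 5 = h₂ c ^ 5` for some `c, e ≠ 0`.
Proof: `x = a + b s`, `a' = 0` so `a = a₁ ^ 5`; `b' f + 3 b f' = 0` gives `(b f³)' = f² (b' f + 3 b f') = 0`, so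
`b f³ = c ^ 5`, `f ∣ c` (squarefree), `c = f c₁`, `b = f² c₁ ^ 5`, `b s = (c₁ s) ^ 5`, and `a₁ ^ 5 + (c₁ s) ^ 5 = (a₁ + c₁ s) ^ 5`.
Second part: `δ(h₁⁴ h₂) = 4 h₁³ h₂ δ h₁ + h₁⁴ δ h₂ = 5 h₁³ h₂ δ h₁ = 0`, so `h₁⁴ h₂ = c ^ 5`, `c ≠ 0`, and
`h₂ h₁ ^ 5 = h₁ c ^ 5`; so take `e := c` and `c := h₁`.  (`G' = 0` iff `G` is a fifth power: coefficients, `F` perfect.) -/
def S_A4 : Prop :=
  ∀ f : F[X], Squarefree f → 1 ≤ f.natDegree →
    (∀ x : OO f, dl f x = 0 → ∃ y : OO f, x = y ^ 5) ∧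
    (∀ h₁ h₂ : OO f, h₁ ≠ 0 → h₂ ≠ 0 → h₁ * dl f h₂ = h₂ * dl f h₁ →
      ∃ c e : OO f, c ≠ 0 ∧ e ≠ 0 ∧ h₁ * e ^ 5 = h₂ * c ^ 5)

/-- **A8** (uses A1, A3, A2b) `f` squarefree, `deg f ≥ 1`, `h ≠ 0` and `I ^ 5 = (h)`: there is `v` with `δ h = v h`, `(f² v)'''' = - v ^ 5`.
Proof (compare DH.p_A8 in Pool/Agent/H463/DH/A8.lean, characteristic 3): `h ∈ I ^ 5 = I * I ^ 4`, so `h = ∑ x_i y_i` (finite),
`x_i ∈ I`, `y_i ∈ I ^ 4`; `x_i ^ 5 = h b_i` (`x_i ^ 5 ∈ I ^ 5 = (h)`) and `y_i ^ 5 = h ^ 4 a_i` (`y_i ^ 5 ∈ I ^ 20 = (h ^ 4)`).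
In characteristic 5 `h ^ 5 = ∑ x_i ^ 5 y_i ^ 5 = h ^ 5 ∑ a_i b_i`, so `∑ a_i b_i = 1`.  Apply `δ` to `y_i ^ 5 = h ^ 4 a_i`:
`0 = 4 h³ (δ h) a_i + h⁴ δ a_i`, so `h δ a_i = a_i δ h` (as `-4 = 1`, `h ≠ 0`, `O` a domain).
Hence `δ h = ∑ b_i a_i δ h = h w` with `w = ∑ b_i δ a_i`.
Write `w = α + β s`, `N = h * star h = a² - f b² ∈ F[X]`, `N ≠ 0`:
`N' s = δ N = δ h star h + h δ (star h) = N (w - star w) = 2 β s N`, so `N' = 2 β N` and `β = 0` by degrees.
So `δ h = v h`, `v = α`; then A2b. -/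
def S_A8 : Prop :=
  ∀ f : F[X], Squarefree f → 1 ≤ f.natDegree → ∀ h : OO f, h ≠ 0 → ∀ I : Ideal (OO f), I ^ 5 = Ideal.span {h} →
    ∃ v : F[X], IsSol f v ∧ dl f h = cc f v * h

/-- **A9** (uses A1, A3, A4, A8, B0, B1) `f` squarefree, `deg f ≥ 1`: the classes `c` with `c ^ 5 = 1` are finite in number and there are
at most as many as solutions `v`.
Proof: every class with `c ^ 5 = 1` is `ClassGroup.mk0 I` with `I ≠ 0`, `I ^ 5` principal, `I ^ 5 = (h)`, `h ≠ 0`; choose `I, h` and `v` as in A8.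
The map `c ↦ v` is injective: if `c₁, c₂` have the same `v` then `h₁ δ h₂ = v h₁ h₂ = h₂ δ h₁`, so by A4
`h₁ e ^ 5 = h₂ c ^ 5`, `(I₁ (e)) ^ 5 = (I₂ (c)) ^ 5`, so `I₁ (e) = I₂ (c)` (unique factorization of ideals) and the classes agree.
All solutions are in `POL F f.natDegree` (B1(8), or `v = 0`).  (Compare DH.p_A9 in Pool/Agent/H463/DH/A9.lean.) -/
def S_A9 : Prop :=
  ∀ f : F[X], Squarefree f → 1 ≤ f.natDegree →
    (∀ _h : IsDomain (OO f), Finite {c : ClassGroup (OO f) // c ^ 5 = 1}) ∧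
    cl5 f ≤ ((POL F f.natDegree).filter (fun v => IsSol f v)).card

/-! ## Part C : counting -/

/-- **C1** divisor bound (with all divisors; adapt DH.p_DB in Pool/Agent/H463/DH/DB.lean, where `tau` counts the monic divisors:
`dv R = (q - 1) tau R`; the characteristic plays no role), and the finiteness of the set of divisors. -/
def S_C1 : Prop :=
  (∀ R : F[X], R ≠ 0 → {U : F[X] | U ∣ R}.Finite) ∧
  ∀ ε : ℝ, 0 < ε → ∃ K : ℝ, 0 < K ∧ ∀ R : F[X], R ≠ 0 → (dv R : ℝ) ≤ K * qq F ^ (ε * (R.natDegree : ℝ))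

/-- **C2** (uses B0) elements of norm one: if `D` is not a square then `U² - D T² = 1` has at most `q² (4 L + 2)` solutions with
`deg U, deg T ≤ L`.
Proof: if `D` is constant (a nonsquare constant), `U, T` are constant (if `U` has degree `n > 0` then `T` has degree `n` and the
leading coefficients satisfy `u² = D t²`, `t ≠ 0`, so `D` is a square): at most `q²` solutions.  Let `D` be not constant.  For solutions
`(U, T)`, `(U', T')` with `deg U = deg U' = n ≥ 1` put `P = U U' + D T T'`, `P₁ = U U' - D T T'`; `P P₁ = U² U'² - (U² - 1)(U'² - 1) =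
U² + U'² - 1` has degree `≤ 2 n`, and `P + P₁ = 2 U U'` has degree `2 n`, so one of `P, P₁` has degree `≥ 2 n` and the other one, call it
`Q`, is constant (possibly 0).  If `Q = P`: `Q² - D (U T' + T U')² = 1`; if `Q = P₁`: `Q² - D (T U' - U T')² = 1`.  So `D Z² = Q² - 1` is
constant, so `Z = 0`, `Q = ± 1`: either `U' = ± U, T' = ∓ T`-type relations: from `(U + T s)(U' - T' s) = ± 1` or `(U + T s)(U' + T' s) = ± 1`
we get `(U', T') = ± (U, T)` or `± (U, - T)`.  So there are at most 4 solutions with `deg U = n ≥ 1`; for `n = 0`: `D T² = U² - 1` constant, so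
`T = 0`, `U = ± 1`. -/
def S_C2 : Prop :=
  ∀ D : F[X], D ≠ 0 → ¬ IsSquare D → ∀ L : ℕ,
    (((POL F (L + 1)) ×ˢ (POL F (L + 1))).filter (fun z => z.1 ^ 2 - D * z.2 ^ 2 = 1)).card ≤
      Fintype.card F ^ 2 * (4 * L + 2)

/-- **C3** (uses B0) square roots modulo `M`: `D` squarefree, `M ≠ 0`: the number of `z` of degree `< deg M` with `M ∣ z² - D` is at most the
number `dv M` of all divisors of `M`.
Proof: induction on the number of the distinct prime factors.  `M = P ^ k M₁` with `P` irreducible, `P ∤ M₁`, `k ≥ 1`; by the Chinese remainder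
theorem the number for `M` is the product of the numbers for `P ^ k` and for `M₁`, and `dv M ≥ 2 dv M₁` (the divisors `U`, `P U`, `U ∣ M₁`,
are different).  For `P ^ k` the number is `≤ 2`: if `P ∤ D`, and `z² ≡ w² ≡ D` mod `P ^ k`, then `P ^ k ∣ (z - w)(z + w)` and `P` does not divide
both factors (else `P ∣ 2 z`, `P ∣ D`), so `z ≡ ± w`; if `P ∣ D` then `P ∣ z`, so `P² ∣ z²`, and `P² ∤ D` gives `k = 1`, `z ≡ 0`: one solution.
For a constant `M`: `POL F 0 = {0}`, one element, and `dv M ≥ 1`. -/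
def S_C3 : Prop :=
  ∀ D M : F[X], Squarefree D → M ≠ 0 →
    ((POL F M.natDegree).filter (fun z => M ∣ z ^ 2 - D)).card ≤ dv M

/-- **C4** (uses B0, C2, C3) coprime solutions of the Pell equation for squarefree `D`, `D` not a square.
Proof: let `(X, Y)`, be a coprime solution of `Y² - D X² = M`.  Then `X` is coprime to `M` (a prime dividing both divides `Y²`); let
`z` of degree `< deg M` with `M ∣ Y - z X` (if `M` is constant `z = 0`); then `M ∣ z² - D` as `X² (z² - D) ≡ Y² - D X² ≡ 0`.  By C3 there are at most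
`dv M` values of `z`.  Fix `z` and one solution `(X₂, Y₂)` with this `z`.  For a solution `(X₁, Y₁)` with this `z`, `M` divides
`Y₁ Y₂ - D X₁ X₂ ≡ (z² - D) X₁ X₂` and `X₁ Y₂ - X₂ Y₁`; the quotients `U`, `T` satisfy `U² - D T² = 1`
(`(Y₁Y₂ - D X₁X₂)² - D (X₁Y₂ - X₂Y₁)² = (Y₁² - D X₁²)(Y₂² - D X₂²) = M²`), `deg U, deg T ≤ 2 L + deg D`, and `(U, T)` determines
`(X₁, Y₁)`: `Y₁ = U Y₂ + D T X₂`, `X₁ = U X₂ + T Y₂`.  So there are at most `q² (4 (2 L + deg D) + 2)` of them by C2. -/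
def S_C4 : Prop :=
  ∀ D M : F[X], Squarefree D → ¬ IsSquare D → M ≠ 0 → ∀ L : ℕ,
    ((pell (L + 1) D M).filter (fun z => IsCoprime z.1 z.2)).card ≤
      dv M * (Fintype.card F ^ 2 * (4 * (2 * L + D.natDegree) + 2))

/-- **C5** (uses B0, C1, C4) the Pell equation `Y² - D X² = M` has at most `K q ^ (ε L)` solutions with `deg X, deg Y ≤ L`, if `D, M ≠ 0`
have degrees `≤ L`.
Proof: (i) `D = e²`: `(Y - e X)(Y + e X) = M`; the first factor is a divisor of `M`, and the two factors determine `X, Y`; so at most `dv M`.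
(ii) `D` not a square: `D = e² D₀`, `D₀` squarefree, not a square, `e ≠ 0` (`X, Y` is mapped to `e X, Y`: a solution for `D₀`, degree `≤ 2 L`).
For the solutions of `Y² - D₀ X² = M` let `g = gcd (X, Y)`, `g² ∣ M`, `X = g X₁`, `Y = g Y₁`, `(X₁, Y₁)` is a coprime solution for `M / g²`; for
each of the at most `dv M` values of `g` there are at most `dv (M/g²) q² (4 (4 L + L) + 2)` by C4, `dv (M / g²) ≤ dv M`.
So the number is at most `(dv M)² q² (20 L + 2) ≤ K q ^ (ε L)` by C1 (with `ε/4`) and `20 L + 2 ≤ K' q ^ (ε L/2)`. -/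
def S_C5 : Prop :=
  ∀ ε : ℝ, 0 < ε → ∃ K : ℝ, 0 < K ∧ ∀ L : ℕ, ∀ D M : F[X], D ≠ 0 → M ≠ 0 → D.natDegree ≤ L → M.natDegree ≤ L →
    ((pell (L + 1) D M).card : ℝ) ≤ K * qq F ^ (ε * (L : ℝ))

/-- **C6** (uses B0, C1, C5) the conic `a x² + 2 b x y + c y² + 2 d x + 2 e y + k = 0`, all coefficients and `x, y` of degree `≤ L`,
`a c - b² ≠ 0`, `dsc ≠ 0`, has at most `K q ^ (ε L)` points.
Proof: `a ≠ 0`: with `Δ = b² - a c`, `X = a x + b y + d`, `Y = Δ y + (b d - a e)`: `Y² - Δ X² = (b d - a e)² + Δ (a k - d²) = - a · dsc ≠ 0`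
(if `(x, y)` is on the conic), `(x, y) ↦ (X, Y)` is injective, and all degrees are `≤ 4 L`; use C5 with `4 L` and `ε/4`.
`a = 0`, `c ≠ 0`: exchange the roles of `x` and `y` (`dsc` is symmetric).  `a = c = 0`: `b ≠ 0`, `(2 b x + 2 e)(2 b y + 2 d) = 4 d e - 2 b k ≠ 0`
(`dsc = b (2 d e - b k)`), so `2 b x + 2 e` is a divisor of it and determines `x` and then `y`; use C1. -/
def S_C6 : Prop :=
  ∀ ε : ℝ, 0 < ε → ∃ K : ℝ, 0 < K ∧ ∀ L : ℕ, ∀ a b c d e k : F[X], a.natDegree ≤ L → b.natDegree ≤ L → c.natDegree ≤ L →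
    d.natDegree ≤ L → e.natDegree ≤ L → k.natDegree ≤ L → a * c - b ^ 2 ≠ 0 → dsc a b c d e k ≠ 0 →
    ((conic (L + 1) a b c d e k).card : ℝ) ≤ K * qq F ^ (ε * (L : ℝ))

/-- **C7** (uses B0) trivial bound: if `a c - b² ≠ 0` the conic has at most `2 q ^ n` points in the box `deg x, deg y < n`.
Proof: `a ≠ 0`: for each `y` at most two `x` (a nonzero polynomial of degree 2 in `x` over the domain `F[X]`); `c ≠ 0`: the same; `a = c = 0`,
`b ≠ 0`: `(2 b x + 2 e) y + (2 d x + k) = 0`: for the `x` with `b x + e ≠ 0` at most one `y`, and there is at most one `x` with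
`b x + e = 0`; together at most `q ^ n + q ^ n`. -/
def S_C7 : Prop :=
  ∀ (n : ℕ) (a b c d e k : F[X]), a * c - b ^ 2 ≠ 0 → (conic n a b c d e k).card ≤ 2 * Fintype.card F ^ n

/-- **C8** (uses B0) a quadratic polynomial in three variables with nonzero constant term has at most `6 q ^ (2 n)` zeros with
`deg x, y, z < n`.
Proof: for fixed `x, y` it is `c₆ z² + (…) z + g(x, y, 0)`: at most two zeros `z` unless it is identically zero, and then `g(x, y, 0) = 0`; for fixed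
`x`, `g(x, y, 0)` has at most two zeros `y` unless `g(x, 0, 0) = 0`, and `g(x, 0, 0)`, with constant term `c₀ ≠ 0`, has at most two zeros.
So the number is at most `2 q^{2n} + (2 q^n + 2 q^n) q^n`. -/
def S_C8 : Prop :=
  ∀ (n : ℕ) (c : Fin 10 → F[X]), c 0 ≠ 0 →
    (((POL F n) ×ˢ ((POL F n) ×ˢ (POL F n))).filter (fun w =>
      c 0 + c 1 * w.1 + c 2 * w.2.1 + c 3 * w.2.2 + c 4 * w.1 ^ 2 + c 5 * w.2.1 ^ 2 + c 6 * w.2.2 ^ 2 +
        c 7 * w.1 * w.2.1 + c 8 * w.1 * w.2.2 + c 9 * w.2.1 * w.2.2 = 0)).card ≤ 6 * Fintype.card F ^ (2 * n)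

/-- **C9** (uses B0, C6, C7, C8) quadratic forms in five variables: `g` symmetric, entries and `m ≠ 0` of degree `≤ L`,
`g 0 0 * g 1 1 - (g 0 1)² ≠ 0`, `n ≤ L + 1`: the number of `x` with `deg x_i < n` and `∑ g i j x_i x_j = m` is at most
`K q ^ (ε L) q ^ (3 n)`.
Proof: for fixed `w = (x 2, x 3, x 4)` the pair `(x 0, x 1)` is on the conic with `a = g 0 0`, `b = g 0 1`, `c = g 1 1`,
`d = ∑_{l ≥ 2} g 0 l x_l`, `e = ∑_{l ≥ 2} g 1 l x_l`, `k = ∑_{l, l' ≥ 2} g l l' x_l x_l' - m`, all of degree `≤ 3 L`.  `dsc` is a quadratic polynomial in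
`w` with constant term `- (a c - b²) m ≠ 0`, so by C8 it vanishes for at most `6 q ^ (2 n)` of the `w`, for which there are at most `2 q ^ n`
pairs by C7; for the at most `q ^ (3 n)` other `w` there are at most `K' q ^ (ε L)` by C6 (with `3 L`, `ε/3`; `POL F n ⊆ POL F (3 L + 1)`).
Total `≤ 12 q ^ (3 n) + K' q ^ (ε L) q ^ (3 n)`. -/
def S_C9 : Prop :=
  ∀ ε : ℝ, 0 < ε → ∃ K : ℝ, 0 < K ∧ ∀ (L n : ℕ) (g : Fin 5 → Fin 5 → F[X]) (m : F[X]), n ≤ L + 1 →
    (∀ i j, (g i j).natDegree ≤ L) → (∀ i j, g i j = g j i) → m ≠ 0 → m.natDegree ≤ L →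
    g 0 0 * g 1 1 - g 0 1 ^ 2 ≠ 0 →
    (((Fintype.piFinset (fun _ : Fin 5 => POL F n)).filter (fun x => ∑ i, ∑ j, g i j * x i * x j = m)).card : ℝ) ≤
      K * qq F ^ (ε * (L : ℝ)) * qq F ^ (3 * n)

/-- **D1** (uses B0, B1, B3, C9) fixed `v`: for `v ≠ 0` with `2 deg v + 2 ≤ N` the number of `f` of degree `≤ N` with `IsSol f v` is at most
`K q ^ (ε N) q ^ (3 N / 5)`.
Proof: `n = N / 5 + 1` (natural number division), so `N + 1 ≤ 5 n`; take `E` from B3; every such `f` is `∑ x_l(X ^ 5) E l`, `x_l ∈ POL F n`, and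
`lam (f² v) = ∑_{l, l'} x_l x_l' lam (E l * E l' * v)` by B1, so `x` is a solution of `∑ g l l' x_l x_l' = m`, `g l l' = lam (E l * E l' * v)` (degree
`≤ 8 + N`), `m = map (frobenius F 5) v ≠ 0`; the map `f ↦ x` (a choice) is injective.  C9 with `L = N + 8` and `ε/2`, say:
`K' q ^ (ε (N + 8)/2) q ^ (3 n)`, `3 n ≤ 3 N / 5 + 3`. -/
def S_D1 : Prop :=
  ∀ ε : ℝ, 0 < ε → ∃ K : ℝ, 0 < K ∧ ∀ (N : ℕ) (v : F[X]), v ≠ 0 → 2 * v.natDegree + 2 ≤ N →
    (((POL F (N + 1)).filter (fun f => IsSol f v)).card : ℝ) ≤ K * qq F ^ (ε * (N : ℝ)) * qq F ^ ((3 : ℝ) * N / 5)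

/-- **D2** (uses B0, B1, A9, D1) the theorem.
Proof: `∑_{f ∈ SQ F N} cl5 f ≤ ∑_{f ∈ POL F (N + 1)} #{v ∈ POL F N : IsSol f v} ≤ q ^ (N + 1) + ∑_{v ≠ 0, 2 deg v + 2 ≤ N} #{f ∈ POL F (N+1) : IsSol f v}`
(`v = 0`: at most `q ^ (N+1)` values of `f`; nonzero solutions have `2 deg v + 2 ≤ deg f = N` by B1(8)); there are at most `q ^ (N / 2)`
(real exponent) such `v` (`deg v < N / 2`), so by D1 the second sum is at most `K q ^ (ε N) q ^ (3 N / 5) q ^ (N / 2)`, and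
`q ^ (N + 1) ≤ q · q ^ (11 N / 10 + ε N)`. -/
def S_D2 : Prop :=
  ∀ ε : ℝ, 0 < ε → ∃ K : ℝ, 0 < K ∧ ∀ N : ℕ, 1 ≤ N →
    ((∑ f ∈ SQ F N, cl5 f : ℕ) : ℝ) ≤ K * qq F ^ ((11 / 10 + ε) * (N : ℝ))

end P5
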