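import Pool.Agent.H731.P5.Stm

/-!
# P5: the number of squarefree polynomials (only the lower bound is needed)
-/

open Polynomial
open scoped Classical

noncomputable section

namespace P5

variable (F : Type) [Field F] [Fintype F] [CharP F 5]

/-- **E1** (uses B0) at least `q ^ N / 2` polynomials of degree `N ≥ 1` are squarefree.
Proof: only monic ones: a monic `f` of degree `N` which is not squarefree is `P² g` with `P` monic of degree `d`, `1 ≤ d`, `2 d ≤ N`
and `g` monic of degree `N - 2 d`; so there are at most `∑_{1 ≤ d ≤ N/2} q^d q^{N-2d} = ∑ q^{N-d} ≤ q^N / (q - 1) ≤ q^N / 4` of them (`q ≥ 5`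
in characteristic 5), and `q ^ N` monic polynomials of degree `N` (`g ↦ X ^ N + g`, `g ∈ POL F N`). -/
def S_E1 : Prop := ∀ N : ℕ, 1 ≤ N → Fintype.card F ^ N ≤ 2 * (SQ F N).card

end P5
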